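import Mathlib

/-!
# Class-preserving automorphisms: the extension property

For a tuple `s` of generators of `G`, `Ext s` says that every choice of elements
`c i` of the commutator subgroup is realised by a class-preserving automorphism
sending `s i` to `c i * s i`.
-/

set_option autoImplicit false

namespace Pool.Agent.ClassAut

open Subgroup
open scoped commutatorElement

variable {G : Type*} [Group G]

/-- Every assignment `s i ↦ c i * s i` with `c i` in the commutator subgroup extends to a
class-preserving automorphism, and `s` generates `G`. -/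
def Ext {n : ℕ} (s : Fin n → G) : Prop :=
  Subgroup.closure (Set.range s) = ⊤ ∧
    ∀ c : Fin n → G, (∀ i, c i ∈ commutator G) →
      ∃ α : G ≃* G, (∀ x, IsConj x (α x)) ∧ ∀ i, α (s i) = c i * s i

lemma comm_mem (a b : G) : ⁅a, b⁆ ∈ commutator G :=
  Subgroup.commutator_mem_commutator (Subgroup.mem_top a) (Subgroup.mem_top b)

lemma isConj_iff_exists_comm {x y : G} : IsConj x y ↔ ∃ g : G, y = ⁅g, x⁆ * x := by
  rw [isConj_iff]
  constructor
  · rintro ⟨g, rfl⟩; exact ⟨g, by simp [commutatorElement_def]⟩
  · rintro ⟨g, rfl⟩; exact ⟨g, by simp [commutatorElement_def]⟩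

lemma mul_inv_mem_of_isConj {x y : G} (h : IsConj x y) : y * x⁻¹ ∈ commutator G := by
  obtain ⟨g, rfl⟩ := isConj_iff_exists_comm.mp h
  simpa using comm_mem g x

lemma isConj_mul_iff {c x : G} : IsConj x (c * x) ↔ ∃ g : G, ⁅g, x⁆ = c := by
  rw [isConj_iff_exists_comm]
  constructor
  · rintro ⟨g, hg⟩; exact ⟨g, (mul_right_cancel hg).symm⟩
  · rintro ⟨g, rfl⟩; exact ⟨g, rfl⟩

/-- Two homomorphisms agreeing on a generating tuple are equal. -/
lemma aut_ext_of_closure {n : ℕ} {s : Fin n → G} (hs : Subgroup.closure (Set.range s) = ⊤)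
    {α β : G ≃* G} (h : ∀ i, α (s i) = β (s i)) : α = β := by
  have h1 : (α : G →* G) = (β : G →* G) := by
    apply MonoidHom.eq_of_eqOn_dense hs
    rintro _ ⟨i, rfl⟩
    exact h i
  ext x
  exact DFunLike.congr_fun h1 x

section card

/-- The map recording a class-preserving automorphism by its values on a tuple. -/
noncomputable def rec {n : ℕ} (s : Fin n → G)
    (α : {α : G ≃* G // ∀ x : G, IsConj x (α x)}) : Fin n → commutator G :=
  fun i => ⟨α.1 (s i) * (s i)⁻¹, mul_inv_mem_of_isConj (α.2 (s i))⟩

lemma rec_injective {n : ℕ} {s : Fin n → G} (hs : Subgroup.closure (Set.range s) = ⊤) :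
    Function.Injective (rec s) := by
  intro α β h
  apply Subtype.ext
  apply aut_ext_of_closure hs
  intro i
  have := congrArg Subtype.val (congrFun h i)
  simpa [rec] using this

lemma ext_iff_surjective {n : ℕ} {s : Fin n → G} (hs : Subgroup.closure (Set.range s) = ⊤) :
    Ext s ↔ Function.Surjective (rec s) := by
  constructor
  · rintro ⟨_, h⟩ c
    obtain ⟨α, hα, h2⟩ := h (fun i => (c i : G)) (fun i => (c i).2)
    refine ⟨⟨α, hα⟩, ?_⟩
    funext i
    apply Subtype.ext
    simp [rec, h2]
  · intro h
    refine ⟨hs, fun c hc => ?_⟩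
    obtain ⟨α, hα⟩ := h (fun i => ⟨c i, hc i⟩)
    refine ⟨α.1, α.2, fun i => ?_⟩
    have := congrArg Subtype.val (congrFun hα i)
    simp only [rec] at this
    rw [← this]; simp

lemma card_eq_iff_ext [Finite G] {n : ℕ} {s : Fin n → G} (hs : Subgroup.closure (Set.range s) = ⊤) :
    Nat.card {α : G ≃* G // ∀ x : G, IsConj x (α x)} = Nat.card (commutator G) ^ n ↔
      Ext s := by
  have : Finite (G ≃* G) := Finite.of_injective (fun α : G ≃* G => (α : G → G))
    DFunLike.coe_injective
  rw [ext_iff_surjective hs]
  have hcard : Nat.card (Fin n → commutator G) = Nat.card (commutator G) ^ n := by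
    rw [Nat.card_fun]; simp
  constructor
  · intro h
    have hb : Function.Bijective (rec s) :=
      (Nat.bijective_iff_injective_and_card _).mpr ⟨rec_injective hs, by rw [h, hcard]⟩
    exact hb.2
  · intro h
    rw [← hcard]
    exact Nat.card_eq_of_bijective _ ⟨rec_injective hs, h⟩

/-- The extension property does not depend on the generating tuple (of a given length). -/
lemma Ext.change [Finite G] {n : ℕ} {s s' : Fin n → G} (h : Ext s)
    (hs' : Subgroup.closure (Set.range s') = ⊤) : Ext s' :=
  (card_eq_iff_ext hs').mp ((card_eq_iff_ext h.1).mpr h)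

end card

/-- The extension property passes to quotients. -/
lemma Ext.quotient {n : ℕ} {s : Fin n → G} (h : Ext s) (N : Subgroup G) [N.Normal] :
    Ext (fun i => (QuotientGroup.mk (s i) : G ⧸ N)) := by
  have hmap : (commutator G).map (QuotientGroup.mk' N) = commutator (G ⧸ N) := by
    rw [map_commutator_eq]
    have : (QuotientGroup.mk' N).range = ⊤ :=
      MonoidHom.range_eq_top.mpr (QuotientGroup.mk'_surjective N)
    rw [this]; rfl
  refine ⟨?_, ?_⟩
  · have : Set.range (fun i => (QuotientGroup.mk (s i) : G ⧸ N))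
        = (QuotientGroup.mk' N) '' Set.range s := by
      rw [← Set.range_comp]; rfl
    rw [this, ← MonoidHom.map_closure, h.1, ← MonoidHom.range_eq_map]
    exact MonoidHom.range_eq_top.mpr (QuotientGroup.mk'_surjective N)
  · intro c hc
    have hlift : ∀ i, ∃ d ∈ commutator G, (QuotientGroup.mk d : G ⧸ N) = c i := by
      intro i
      have := hc i
      rw [← hmap] at this
      obtain ⟨d, hd, hd2⟩ := this
      exact ⟨d, hd, hd2⟩
    choose d hd hd2 using hlift
    obtain ⟨α, hα, hα2⟩ := h.2 d hd
    have hN : N.map (α : G →* G) = N := by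
      have key : ∀ β : G ≃* G, (∀ x, IsConj x (β x)) → N.map (β : G →* G) ≤ N := by
        rintro β hβ _ ⟨x, hx, rfl⟩
        obtain ⟨g, hg⟩ := isConj_iff.mp (hβ x)
        show β x ∈ N
        rw [← hg]
        exact Subgroup.Normal.conj_mem inferInstance x hx g
      apply le_antisymm (key α hα)
      intro x hx
      have hinv : ∀ y, IsConj y (α.symm y) := by
        intro y
        have := hα (α.symm y)
        rw [MulEquiv.apply_symm_apply] at this
        exact this.symm
      have := key α.symm hinv ⟨x, hx, rfl⟩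
      refine ⟨α.symm x, this, ?_⟩
      show α (α.symm x) = x
      simp
    refine ⟨QuotientGroup.congr N N α hN, ?_, ?_⟩
    · intro x
      obtain ⟨x, rfl⟩ := QuotientGroup.mk_surjective x
      obtain ⟨g, hg⟩ := isConj_iff.mp (hα x)
      rw [isConj_iff]
      refine ⟨QuotientGroup.mk g, ?_⟩
      rw [QuotientGroup.congr_mk]
      show ((g * x * g⁻¹ : G) : G ⧸ N) = _
      rw [hg]
    · intro i
      show QuotientGroup.congr N N α hN (QuotientGroup.mk (s i)) = _
      rw [QuotientGroup.congr_mk]
      show ((α (s i) : G) : G ⧸ N) = _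
      rw [hα2 i, QuotientGroup.mk_mul, hd2 i]

end Pool.Agent.ClassAut
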