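import Mathlib

/-!
# Frattini subgroup of a finite p-group and generating tuples
-/

set_option autoImplicit false

namespace Pool.Agent.ClassAut

open Subgroup
open scoped commutatorElement

section hom

/-- In a commutative group generated by `b`, every element is a product of powers of `b i`. -/
lemma exists_prod_zpow {B : Type*} [CommGroup B] {n : ℕ} {b : Fin n → B}
    (hb : Subgroup.closure (Set.range b) = ⊤) (x : B) : ∃ e : Fin n → ℤ, x = ∏ i, b i ^ e i := by
  have hx : x ∈ Subgroup.closure (Set.range b) := by rw [hb]; trivial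
  induction hx using Subgroup.closure_induction with
  | mem x hx =>
    obtain ⟨i, rfl⟩ := hx
    refine ⟨Pi.single i 1, ?_⟩
    rw [Finset.prod_eq_single i]
    · simp
    · intro j _ hj; simp [hj]
    · simp
  | one => exact ⟨0, by simp⟩
  | mul x y _ _ hx hy =>
    obtain ⟨e, rfl⟩ := hx
    obtain ⟨f, rfl⟩ := hy
    exact ⟨e + f, by simp [zpow_add, Finset.prod_mul_distrib]⟩
  | inv x _ hx =>
    obtain ⟨e, rfl⟩ := hx
    exact ⟨-e, by simp⟩

/-- Existence of a homomorphism from a commutative group with prescribed values on generators. -/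
lemma exists_hom_of_comm {B T : Type*} [CommGroup B] [CommGroup T] {n : ℕ} {b : Fin n → B}
    (hb : Subgroup.closure (Set.range b) = ⊤) (t : Fin n → T)
    (h : ∀ e : Fin n → ℤ, ∏ i, b i ^ e i = 1 → ∏ i, t i ^ e i = 1) :
    ∃ f : B →* T, ∀ i, f (b i) = t i := by
  let φ : Multiplicative (Fin n → ℤ) →* B :=
    { toFun := fun e => ∏ i, b i ^ (Multiplicative.toAdd e i)
      map_one' := by simp
      map_mul' := fun x y => by simp [zpow_add, Finset.prod_mul_distrib] }
  let ψ : Multiplicative (Fin n → ℤ) →* T :=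
    { toFun := fun e => ∏ i, t i ^ (Multiplicative.toAdd e i)
      map_one' := by simp
      map_mul' := fun x y => by simp [zpow_add, Finset.prod_mul_distrib] }
  have hφ : Function.Surjective φ := by
    intro x
    obtain ⟨e, rfl⟩ := exists_prod_zpow hb x
    exact ⟨Multiplicative.ofAdd e, rfl⟩
  have hker : φ.ker ≤ ψ.ker := by
    intro e he
    exact h _ he
  refine ⟨MonoidHom.liftOfSurjective φ hφ ⟨ψ, hker⟩, fun i => ?_⟩
  have h1 : φ (Multiplicative.ofAdd (Pi.single i 1)) = b i := by
    show ∏ j, b j ^ (Pi.single i (1 : ℤ) : Fin n → ℤ) j = b i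
    rw [Finset.prod_eq_single i]
    · simp
    · intro j _ hj; simp [hj]
    · simp
  have h2 : ψ (Multiplicative.ofAdd (Pi.single i 1)) = t i := by
    show ∏ j, t j ^ (Pi.single i (1 : ℤ) : Fin n → ℤ) j = t i
    rw [Finset.prod_eq_single i]
    · simp
    · intro j _ hj; simp [hj]
    · simp
  rw [← h1, ← h2]
  exact MonoidHom.liftOfRightInverse_comp_apply φ _ _ ⟨ψ, hker⟩ _

lemma closure_range_abelianization {G : Type*} [Group G] {n : ℕ} {s : Fin n → G}
    (hs : Subgroup.closure (Set.range s) = ⊤) :
    Subgroup.closure (Set.range fun i => Abelianization.of (s i)) = ⊤ := by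
  have : Set.range (fun i => Abelianization.of (s i)) = Abelianization.of '' Set.range s := by
    rw [← Set.range_comp]; rfl
  rw [this, ← MonoidHom.map_closure, hs, ← MonoidHom.range_eq_map]
  exact MonoidHom.range_eq_top.mpr (QuotientGroup.mk'_surjective _)

lemma exists_exponents {G : Type*} [Group G] {n : ℕ} {s : Fin n → G}
    (hs : Subgroup.closure (Set.range s) = ⊤) (x : G) :
    ∃ e : Fin n → ℤ, Abelianization.of x = ∏ i, Abelianization.of (s i) ^ e i :=
  exists_prod_zpow (closure_range_abelianization hs) _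

/-- Existence of a homomorphism from `G` to a commutative group with prescribed values on a
generating tuple, killing a subgroup `N` containing the commutator subgroup. -/
lemma exists_hom_of_relations {G T : Type*} [Group G] [CommGroup T] {n : ℕ} {s : Fin n → G}
    (hs : Subgroup.closure (Set.range s) = ⊤) (N : Subgroup G) (t : Fin n → T)
    (h : ∀ (e : Fin n → ℤ) (w : G), Abelianization.of w = ∏ i, Abelianization.of (s i) ^ e i →
      w ∈ N → ∏ i, t i ^ e i = 1) :
    ∃ f : G →* T, (∀ i, f (s i) = t i) ∧ ∀ w ∈ N, f w = 1 := by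
  obtain ⟨F, hF⟩ := exists_hom_of_comm (closure_range_abelianization hs) t
    (fun e he => h e 1 (by rw [map_one, he]) N.one_mem)
  refine ⟨F.comp Abelianization.of, hF, fun w hw => ?_⟩
  obtain ⟨e, he⟩ := exists_exponents hs w
  have := h e w he hw
  rw [MonoidHom.comp_apply, he, map_prod]
  simpa [hF] using this

end hom

section frattini

variable {G : Type*} [Group G] [Finite G] {p : ℕ} [hp : Fact p.Prime]

lemma coatom_normal (hG : IsPGroup p G) {M : Subgroup G} (hM : IsCoatom M) : M.Normal := by
  have : Group.IsNilpotent G := hG.isNilpotent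
  exact (Group.normalizerCondition_of_isNilpotent).normal_of_coatom M hM

omit [Finite G] in
/-- An element of a `p`-group lies in the subgroup generated by a power prime to `p`. -/
lemma mem_of_zpow_mem (hG : IsPGroup p G) {H : Subgroup G} {x : G} {e : ℤ} (he : ¬ (p : ℤ) ∣ e)
    (hx : x ^ e ∈ H) : x ∈ H := by
  obtain ⟨k, hk⟩ := hG x
  have hcop : IsCoprime e ((p : ℤ) ^ k) := by
    apply IsCoprime.pow_right
    exact ((Nat.prime_iff_prime_int.mp hp.out).coprime_iff_not_dvd.mpr he).symm
  obtain ⟨a, b, hab⟩ := hcop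
  have : x = (x ^ e) ^ a * (x ^ (p ^ k)) ^ b := by
    calc x = x ^ (a * e + b * (p : ℤ) ^ k) := by rw [hab, zpow_one]
      _ = _ := by
        rw [zpow_add, mul_comm a e, zpow_mul, mul_comm b, zpow_mul]
        congr 2
        rw [← zpow_natCast]; norm_cast
  rw [this, hk, one_zpow, mul_one]
  exact H.zpow_mem hx a

omit [Finite G] in
lemma sup_zpowers_eq_top {M : Subgroup G} (hM : IsCoatom M) {x : G} (hx : x ∉ M) :
    M ⊔ Subgroup.zpowers x = ⊤ := by
  apply hM.2
  refine lt_of_le_of_ne le_sup_left fun h => hx ?_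
  rw [h]
  exact Subgroup.mem_sup_right (Subgroup.mem_zpowers x)

lemma commutator_le_frattini (hG : IsPGroup p G) : commutator G ≤ frattini G := by
  rw [frattini, Order.radical]
  refine le_iInf₂ fun M hM => ?_
  have hMn := coatom_normal hG hM
  obtain ⟨x, hx⟩ : ∃ x, x ∉ M := by
    by_contra h
    exact hM.1 ((Subgroup.eq_top_iff' M).mpr fun y => not_not.mp fun hy => h ⟨y, hy⟩)
  exact Subgroup.Normal.commutator_le_of_self_sup_commutative_eq_top
    (sup_zpowers_eq_top hM hx) inferInstance

lemma pow_mem_frattini (hG : IsPGroup p G) (x : G) : x ^ p ∈ frattini G := by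
  rw [frattini, Order.radical]
  simp only [Subgroup.mem_iInf]
  intro M hM
  have hMn := coatom_normal hG hM
  by_contra hx
  have h1 := sup_zpowers_eq_top hM hx
  have h2 : x ∈ M ⊔ Subgroup.zpowers (x ^ p) := by rw [h1]; trivial
  rw [← SetLike.mem_coe, Subgroup.normal_mul] at h2
  obtain ⟨m, hm, y, hy, hxy⟩ := h2
  obtain ⟨k, rfl⟩ := Subgroup.mem_zpowers_iff.mp hy
  have h3 : x ^ (1 - (p : ℤ) * k) ∈ M := by
    have : x ^ (1 - (p : ℤ) * k) = m := by
      have hxy' : m * (x ^ p) ^ k = x := hxy
      rw [zpow_sub, zpow_one, zpow_mul, zpow_natCast, mul_inv_eq_iff_eq_mul]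
      exact hxy'.symm
    rw [this]; exact hm
  have h4 : ¬ (p : ℤ) ∣ 1 - (p : ℤ) * k := by
    intro hd
    have : (p : ℤ) ∣ 1 := by
      have := dvd_add hd (Dvd.intro k rfl : (p : ℤ) ∣ (p : ℤ) * k)
      simpa using this
    have hp1 := Int.natCast_dvd_natCast.mp (by exact_mod_cast this : ((p : ℕ) : ℤ) ∣ ((1 : ℕ) : ℤ))
    exact hp.out.one_lt.ne' (Nat.dvd_one.mp hp1)
  exact hx (M.pow_mem (mem_of_zpow_mem hG h4 h3) p)

lemma zpow_mem_frattini (hG : IsPGroup p G) (x : G) {e : ℤ} (he : (p : ℤ) ∣ e) :
    x ^ e ∈ frattini G := by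
  obtain ⟨k, rfl⟩ := he
  rw [zpow_mul, zpow_natCast]
  exact (frattini G).zpow_mem (pow_mem_frattini hG x) k

omit [Finite G] in
/-- Transfer along the abelianization: membership in a subgroup containing the commutator
subgroup only depends on the image in the abelianization. -/
lemma mem_iff_of_abelianization_eq {H : Subgroup G} (hH : commutator G ≤ H) {x y : G}
    (h : Abelianization.of x = Abelianization.of y) : x ∈ H ↔ y ∈ H := by
  have h1 : x⁻¹ * y ∈ commutator G := QuotientGroup.eq.mp h
  have h2 := hH h1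
  constructor
  · intro hx; simpa using H.mul_mem hx h2
  · intro hy
    have := H.mul_mem hy (H.inv_mem h2)
    simpa using this

omit [Finite G] in
/-- Helper: if `w` is a product of powers of the `s j` modulo the commutator subgroup, `w` and all
`s j` with `j ≠ i` lie in `H ⊇ G'`, and the exponent of `s i` is prime to `p`, then `s i ∈ H`. -/
lemma gen_mem_of_exponent (hG : IsPGroup p G) {n : ℕ} {s : Fin n → G} {H : Subgroup G}
    (hH : commutator G ≤ H) {i : Fin n} (hs : ∀ j, j ≠ i → s j ∈ H) {w : G} (hw : w ∈ H)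
    {e : Fin n → ℤ} (he : Abelianization.of w = ∏ j, Abelianization.of (s j) ^ e j)
    (hi : ¬ (p : ℤ) ∣ e i) : s i ∈ H := by
  have hprod : ∏ j ∈ Finset.univ.erase i, Abelianization.of (s j) ^ e j
      ∈ H.map Abelianization.of := by
    apply Subgroup.prod_mem
    intro j hj
    exact Subgroup.zpow_mem _
      (Subgroup.mem_map_of_mem Abelianization.of (hs j (Finset.ne_of_mem_erase hj))) _
  obtain ⟨u, hu, hu2⟩ := hprod
  have h1 : Abelianization.of w = Abelianization.of (s i ^ e i * u) := by
    rw [map_mul, map_zpow, hu2, he]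
    exact (Finset.mul_prod_erase Finset.univ _ (Finset.mem_univ i)).symm
  have h2 : s i ^ e i * u ∈ H := (mem_iff_of_abelianization_eq hH h1).mp hw
  have h3 : s i ^ e i ∈ H := by
    have := H.mul_mem h2 (H.inv_mem hu)
    simpa using this
  exact mem_of_zpow_mem hG hi h3

/-- Independence modulo the Frattini subgroup of a generating tuple of minimal length. -/
lemma dvd_exponent_of_mem_frattini (hG : IsPGroup p G) {n : ℕ} (hn : n = Group.rank G)
    {s : Fin n → G} (hs : Subgroup.closure (Set.range s) = ⊤) {w : G} (hw : w ∈ frattini G)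
    {e : Fin n → ℤ} (he : Abelianization.of w = ∏ j, Abelianization.of (s j) ^ e j) (i : Fin n) :
    (p : ℤ) ∣ e i := by
  classical
  by_contra hi
  let S : Finset G := (Finset.univ.erase i).image s
  have hS : Subgroup.closure (S : Set G) = ⊤ := by
    apply frattini_nongenerating
    have hle : commutator G ≤ Subgroup.closure (S : Set G) ⊔ frattini G :=
      (commutator_le_frattini hG).trans le_sup_right
    have hmem : ∀ j, j ≠ i → s j ∈ Subgroup.closure (S : Set G) ⊔ frattini G := by
      intro j hj
      apply Subgroup.mem_sup_left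
      apply Subgroup.subset_closure
      simp only [S, Finset.coe_image, Finset.coe_erase, Finset.coe_univ]
      exact ⟨j, ⟨trivial, by simpa using hj⟩, rfl⟩
    have hsi := gen_mem_of_exponent hG hle hmem (Subgroup.mem_sup_right hw) he hi
    rw [eq_top_iff, ← hs, Subgroup.closure_le]
    rintro _ ⟨j, rfl⟩
    by_cases hj : j = i
    · subst hj; exact hsi
    · exact hmem j hj
  have h1 := Group.rank_le hS
  have h2 : S.card ≤ n - 1 := by
    refine Finset.card_image_le.trans ?_
    rw [Finset.card_erase_of_mem (Finset.mem_univ i)]; simp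
  have h3 := i.pos
  omega

/-- Exchange: an element outside the Frattini subgroup can replace some generator. -/
lemma exists_exchange (hG : IsPGroup p G) {n : ℕ} {s : Fin n → G}
    (hs : Subgroup.closure (Set.range s) = ⊤) {x : G} (hx : x ∉ frattini G) :
    ∃ i, Subgroup.closure (Set.range (Function.update s i x)) = ⊤ := by
  classical
  obtain ⟨e, he⟩ := exists_exponents hs x
  obtain ⟨i, hi⟩ : ∃ i, ¬ (p : ℤ) ∣ e i := by
    by_contra hcon
    have hall : ∀ i, (p : ℤ) ∣ e i := fun i => not_not.mp fun h => hcon ⟨i, h⟩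
    apply hx
    have hprod : ∏ j, Abelianization.of (s j) ^ e j ∈ (frattini G).map Abelianization.of := by
      apply Subgroup.prod_mem
      intro j _
      exact ⟨s j ^ e j, zpow_mem_frattini hG _ (hall j), by simp⟩
    obtain ⟨u, hu, hu2⟩ := hprod
    exact (mem_iff_of_abelianization_eq (commutator_le_frattini hG) (by rw [hu2, he])).mp hu
  refine ⟨i, ?_⟩
  apply frattini_nongenerating
  set H := Subgroup.closure (Set.range (Function.update s i x)) with hH
  have hle : commutator G ≤ H ⊔ frattini G := (commutator_le_frattini hG).trans le_sup_right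
  have hmem : ∀ j, j ≠ i → s j ∈ H ⊔ frattini G := by
    intro j hj
    apply Subgroup.mem_sup_left
    apply Subgroup.subset_closure
    exact ⟨j, by simp [Function.update_of_ne hj]⟩
  have hxm : x ∈ H ⊔ frattini G := by
    apply Subgroup.mem_sup_left
    apply Subgroup.subset_closure
    exact ⟨i, by simp⟩
  have hsi := gen_mem_of_exponent hG hle hmem hxm he hi
  rw [eq_top_iff, ← hs, Subgroup.closure_le]
  rintro _ ⟨j, rfl⟩
  by_cases hj : j = i
  · subst hj; exact hsi
  · exact hmem j hj

omit [Finite G] in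
lemma exists_generating_tuple [Group.FG G] :
    ∃ s : Fin (Group.rank G) → G, Subgroup.closure (Set.range s) = ⊤ := by
  obtain ⟨S, hS, hS2⟩ := Group.rank_spec G
  refine ⟨fun i => (S.equivFin.symm (Fin.cast hS.symm i) : G), ?_⟩
  rw [← hS2]
  congr 1
  ext x
  constructor
  · rintro ⟨i, rfl⟩; exact (S.equivFin.symm (Fin.cast hS.symm i)).2
  · intro hx
    exact ⟨Fin.cast hS (S.equivFin ⟨x, hx⟩), by simp⟩

end frattini

end Pool.Agent.ClassAut
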