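import Pool.Agent.ClassAut.TwoGenBasic

/-!
# Two-generator groups of class at most three
-/

set_option autoImplicit false

namespace Pool.Agent.ClassAut

open Subgroup
open scoped commutatorElement IsMulCommutative

variable {G : Type*} [Group G]

lemma triple_mul {c X Y : G} (h1 : Commute c X) (h2 : Commute c Y) (h3 : Commute X Y)
    (a b d a' b' d' : ℤ) :
    c ^ a * X ^ b * Y ^ d * (c ^ a' * X ^ b' * Y ^ d')
      = c ^ (a + a') * X ^ (b + b') * Y ^ (d + d') := by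
  have e1 : Y ^ d * c ^ a' = c ^ a' * Y ^ d := ((h2.zpow_left a').zpow_right d).eq.symm
  have e2 : Y ^ d * X ^ b' = X ^ b' * Y ^ d := ((h3.zpow_left b').zpow_right d).eq.symm
  have e3 : X ^ b * c ^ a' = c ^ a' * X ^ b := ((h1.zpow_left a').zpow_right b).eq.symm
  calc c ^ a * X ^ b * Y ^ d * (c ^ a' * X ^ b' * Y ^ d')
      = c ^ a * X ^ b * (Y ^ d * c ^ a') * X ^ b' * Y ^ d' := by group
    _ = c ^ a * X ^ b * (c ^ a' * Y ^ d) * X ^ b' * Y ^ d' := by rw [e1]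
    _ = c ^ a * (X ^ b * c ^ a') * (Y ^ d * X ^ b') * Y ^ d' := by group
    _ = c ^ a * (c ^ a' * X ^ b) * (X ^ b' * Y ^ d) * Y ^ d' := by rw [e2, e3]
    _ = c ^ (a + a') * X ^ (b + b') * Y ^ (d + d') := by group

section

variable (h4 : ⁅⁅commutator G, (⊤ : Subgroup G)⁆, (⊤ : Subgroup G)⁆ = ⊥)
include h4

/-- commutators of a fixed `c ∈ G'` -/
lemma comm_form {x y : G} (h : Gen x y) {c : G} (hc : c ∈ commutator G) (g : G) :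
    ∃ b d : ℤ, ⁅c, g⁆ = ⁅c, x⁆ ^ b * ⁅c, y⁆ ^ d := by
  have hxc : ∀ z, ⁅c, x⁆ * z = z * ⁅c, x⁆ := central_comm h4 hc
  have hyc : ∀ z, ⁅c, y⁆ * z = z * ⁅c, y⁆ := central_comm h4 hc
  have hcXY : Commute ⁅c, x⁆ ⁅c, y⁆ := hxc _
  let S : Subgroup G :=
    { carrier := {g | ∃ b d : ℤ, ⁅c, g⁆ = ⁅c, x⁆ ^ b * ⁅c, y⁆ ^ d}
      one_mem' := ⟨0, 0, by simp⟩
      mul_mem' := by
        rintro g g' ⟨b, d, hg⟩ ⟨b', d', hg'⟩
        refine ⟨b + b', d + d', ?_⟩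
        rw [bil_right h4 hc, hg, hg']
        have := triple_mul (Commute.one_left ⁅c, x⁆) (Commute.one_left ⁅c, y⁆) hcXY 0 b d 0 b' d'
        simpa using this
      inv_mem' := by
        rintro g ⟨b, d, hg⟩
        refine ⟨-b, -d, ?_⟩
        rw [bil_inv_right h4 hc, hg, mul_inv_rev, zpow_neg, zpow_neg]
        exact ((hcXY.zpow_left b).zpow_right d).inv_inv.eq.symm }
  exact h.induction (H := S) ⟨1, 0, by simp⟩ ⟨0, 1, by simp⟩ g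

/-- Every element of `G'` has the form `c^a * ⁅c,x⁆^b * ⁅c,y⁆^d` with `c = ⁅y, x⁆`. -/
lemma K_form {x y : G} (h : Gen x y) {k : G} (hk : k ∈ commutator G) :
    ∃ a b d : ℤ, k = ⁅y, x⁆ ^ a * ⁅⁅y, x⁆, x⁆ ^ b * ⁅⁅y, x⁆, y⁆ ^ d := by
  set c := ⁅y, x⁆ with hc_def
  have hc : c ∈ commutator G := comm_mem y x
  have hxc : ∀ z, ⁅c, x⁆ * z = z * ⁅c, x⁆ := central_comm h4 hc
  have hyc : ∀ z, ⁅c, y⁆ * z = z * ⁅c, y⁆ := central_comm h4 hc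
  have h1 : Commute c ⁅c, x⁆ := (hxc c).symm
  have h2 : Commute c ⁅c, y⁆ := (hyc c).symm
  have h3 : Commute ⁅c, x⁆ ⁅c, y⁆ := hxc _
  let L : Subgroup G :=
    { carrier := {z | ∃ a b d : ℤ, z = c ^ a * ⁅c, x⁆ ^ b * ⁅c, y⁆ ^ d}
      one_mem' := ⟨0, 0, 0, by simp⟩
      mul_mem' := by
        rintro _ _ ⟨a, b, d, rfl⟩ ⟨a', b', d', rfl⟩
        exact ⟨a + a', b + b', d + d', triple_mul h1 h2 h3 _ _ _ _ _ _⟩
      inv_mem' := by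
        rintro _ ⟨a, b, d, rfl⟩
        refine ⟨-a, -b, -d, ?_⟩
        rw [inv_eq_iff_mul_eq_one, triple_mul h1 h2 h3]
        simp }
  have hLn : L.Normal := by
    refine ⟨?_⟩
    rintro _ ⟨a, b, d, rfl⟩ g
    obtain ⟨e, f, hef⟩ := comm_form h4 h hc g
    have hconj : g * c * g⁻¹ = c ^ (1 : ℤ) * ⁅c, x⁆ ^ (-e) * ⁅c, y⁆ ^ (-f) := by
      have e1 : g * c * g⁻¹ = ⁅c, g⁆⁻¹ * c := by simp [commutatorElement_def, mul_assoc]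
      rw [e1, hef]
      have e2 : (⁅c, x⁆ ^ e * ⁅c, y⁆ ^ f)⁻¹ = ⁅c, x⁆ ^ (-e) * ⁅c, y⁆ ^ (-f) := by
        rw [mul_inv_rev, zpow_neg, zpow_neg]
        exact ((h3.zpow_left e).zpow_right f).inv_inv.eq.symm
      rw [e2]
      have := triple_mul h1 h2 h3 0 (-e) (-f) 1 0 0
      simpa using this
    have hmem : g * c * g⁻¹ ∈ L := ⟨1, -e, -f, hconj⟩
    have hX : ⁅c, x⁆ ∈ L := ⟨0, 1, 0, by simp⟩
    have hY : ⁅c, y⁆ ∈ L := ⟨0, 0, 1, by simp⟩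
    have e3 : g * (c ^ a * ⁅c, x⁆ ^ b * ⁅c, y⁆ ^ d) * g⁻¹
        = (g * c * g⁻¹) ^ a * ⁅c, x⁆ ^ b * ⁅c, y⁆ ^ d := by
      have e4 : ⁅c, x⁆ ^ b * g⁻¹ = g⁻¹ * ⁅c, x⁆ ^ b :=
        ((show Commute ⁅c, x⁆ g⁻¹ from hxc _).zpow_left b).eq
      have e5 : ⁅c, y⁆ ^ d * g⁻¹ = g⁻¹ * ⁅c, y⁆ ^ d :=
        ((show Commute ⁅c, y⁆ g⁻¹ from hyc _).zpow_left d).eq
      rw [conj_zpow]
      calc g * (c ^ a * ⁅c, x⁆ ^ b * ⁅c, y⁆ ^ d) * g⁻¹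
          = g * c ^ a * ⁅c, x⁆ ^ b * (⁅c, y⁆ ^ d * g⁻¹) := by group
        _ = g * c ^ a * (⁅c, x⁆ ^ b * g⁻¹) * ⁅c, y⁆ ^ d := by rw [e5]; group
        _ = g * c ^ a * g⁻¹ * ⁅c, x⁆ ^ b * ⁅c, y⁆ ^ d := by rw [e4]; group
    rw [e3]
    exact L.mul_mem (L.mul_mem (L.zpow_mem hmem a) (L.zpow_mem hX b)) (L.zpow_mem hY d)
  have hle : commutator G ≤ L := h.swap.commutator_le hLn ⟨1, 0, 0, by simp [hc_def]⟩
  exact hle hk

lemma comm_pow_left {x y : G} (n : ℕ) :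
    ⁅y ^ n, x⁆ = ⁅y, x⁆ ^ n * ⁅y, ⁅y, x⁆⁆ ^ (n.choose 2) := by
  set c := ⁅y, x⁆ with hc_def
  have hc : c ∈ commutator G := comm_mem y x
  have hW : ∀ z, ⁅y, c⁆ * z = z * ⁅y, c⁆ := by
    intro z
    rw [← commutatorElement_inv]
    exact ((show Commute ⁅c, y⁆ z from central_comm h4 hc z).inv_left).eq
  have hcW : Commute c ⁅y, c⁆ := (hW c).symm
  induction n with
  | zero => simp
  | succ n ih =>
    have e1 : y * c ^ n * y⁻¹ = ⁅y, c⁆ ^ n * c ^ n := by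
      have : y * c * y⁻¹ = ⁅y, c⁆ * c := by simp [commutatorElement_def]
      rw [← conj_pow, this, (show Commute ⁅y, c⁆ c from hW c).mul_pow]
    have e2 : y * (c ^ n * ⁅y, c⁆ ^ n.choose 2) * y⁻¹
        = ⁅y, c⁆ ^ n * c ^ n * ⁅y, c⁆ ^ n.choose 2 := by
      have e3 : ⁅y, c⁆ ^ n.choose 2 * y⁻¹ = y⁻¹ * ⁅y, c⁆ ^ n.choose 2 :=
        ((show Commute ⁅y, c⁆ y⁻¹ from hW _).pow_left _).eq
      calc y * (c ^ n * ⁅y, c⁆ ^ n.choose 2) * y⁻¹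
          = y * c ^ n * (⁅y, c⁆ ^ n.choose 2 * y⁻¹) := by group
        _ = (y * c ^ n * y⁻¹) * ⁅y, c⁆ ^ n.choose 2 := by rw [e3]; group
        _ = _ := by rw [e1]
    rw [pow_succ', commutatorElement_mul_left_eq_conj_mul, ih, e2, ← hc_def]
    have hch : (n + 1).choose 2 = n + n.choose 2 := by
      rw [Nat.choose_succ_succ' n 1]; simp
    rw [hch]
    have e4 : ⁅y, c⁆ ^ n * c ^ n = c ^ n * ⁅y, c⁆ ^ n := ((hcW.pow_left n).pow_right n).eq.symm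
    have e5 : ⁅y, c⁆ ^ n.choose 2 * c = c * ⁅y, c⁆ ^ n.choose 2 := (hcW.pow_right _).eq.symm
    have e6 : ⁅y, c⁆ ^ n * c = c * ⁅y, c⁆ ^ n := (hcW.pow_right _).eq.symm
    calc ⁅y, c⁆ ^ n * c ^ n * ⁅y, c⁆ ^ n.choose 2 * c
        = c ^ n * ⁅y, c⁆ ^ n * (c * ⁅y, c⁆ ^ n.choose 2) := by rw [e4, mul_assoc, e5]
      _ = c ^ n * (⁅y, c⁆ ^ n * c) * ⁅y, c⁆ ^ n.choose 2 := by group
      _ = c ^ n * (c * ⁅y, c⁆ ^ n) * ⁅y, c⁆ ^ n.choose 2 := by rw [e6]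
      _ = c ^ (n + 1) * ⁅y, c⁆ ^ (n + n.choose 2) := by
        rw [pow_succ c n, pow_add]; simp only [mul_assoc]

/-- The elements `⁅g, x⁆`. -/
lemma comm_with_gen_form [Finite G] {x y : G} (h : Gen x y) (g : G) :
    ∃ (j : ℕ) (a : ℤ), ⁅g, x⁆
      = ⁅y, x⁆ ^ j * ⁅y, ⁅y, x⁆⁆ ^ (j.choose 2) * ⁅⁅y, x⁆, x⁆ ^ a := by
  obtain ⟨k, hk, i, j, rfl⟩ := h.exists_form g
  obtain ⟨a, b, d, hkf⟩ := K_form h4 h hk
  obtain ⟨n, hn⟩ : ∃ n : ℕ, y ^ j = y ^ n := by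
    have := (isOfFinOrder_of_finite y)
    obtain ⟨n, hn⟩ := (this.mem_powers_iff_mem_zpowers.mpr (Subgroup.mem_zpowers_iff.mpr ⟨j, rfl⟩))
    exact ⟨n, hn.symm⟩
  refine ⟨n, a, ?_⟩
  have hx : ⁅k * y ^ j * x ^ i, x⁆ = ⁅k * y ^ j, x⁆ := by
    rw [commutatorElement_mul_left_eq_conj_mul]
    have : ⁅x ^ i, x⁆ = 1 := by
      rw [commutatorElement_eq_one_iff_mul_comm]
      exact ((Commute.refl x).zpow_left i).eq
    rw [this]; simp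
  have hkx : ⁅k, x⁆ = ⁅⁅y, x⁆, x⁆ ^ a := by
    have hc : ⁅y, x⁆ ∈ commutator G := comm_mem y x
    have central : ∀ z : G, ∀ m : ℤ, ⁅⁅⁅y, x⁆, z⁆ ^ m, x⁆ = 1 := by
      intro z m
      rw [commutatorElement_eq_one_iff_mul_comm]
      exact ((show Commute ⁅⁅y, x⁆, z⁆ x from central_comm h4 hc x).zpow_left m).eq
    have hm1 : ⁅⁅y, x⁆, x⁆ ^ b ∈ commutator G := Subgroup.zpow_mem _ (comm_mem _ _) _
    have hm2 : ⁅⁅y, x⁆, y⁆ ^ d ∈ commutator G := Subgroup.zpow_mem _ (comm_mem _ _) _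
    have hm0 : ⁅y, x⁆ ^ a ∈ commutator G := Subgroup.zpow_mem _ (comm_mem _ _) _
    rw [hkf, bil_left h4 ((commutator G).mul_mem hm0 hm1) hm2, bil_left h4 hm0 hm1, central,
      central, mul_one, mul_one]
    -- `⁅c ^ a, x⁆ = ⁅c, x⁆ ^ a`
    have hz : ∀ m : ℤ, ⁅⁅y, x⁆ ^ m, x⁆ = ⁅⁅y, x⁆, x⁆ ^ m := by
      intro m
      cases m with
      | ofNat n => simpa using bil_pow_left h4 hc n
      | negSucc n =>
        rw [zpow_negSucc, zpow_negSucc, bil_inv_left h4 ((commutator G).pow_mem hc _),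
          bil_pow_left h4 hc]
    exact hz a
  rw [hx, commutatorElement_mul_left_eq_conj_mul, hn, hkx, comm_pow_left h4]
  have hKmem : ⁅y, x⁆ ^ n * ⁅y, ⁅y, x⁆⁆ ^ n.choose 2 ∈ commutator G :=
    (commutator G).mul_mem (Subgroup.pow_mem _ (comm_mem _ _) _)
      (Subgroup.pow_mem _ (comm_mem _ _) _)
  rw [K_comm h4 hk hKmem, mul_inv_cancel_right]

end

end Pool.Agent.ClassAut
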