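import Pool.Agent.ClassAut.Basic
import Pool.Agent.ClassAut.Burnside

/-!
# Groups of class at most two
-/

set_option autoImplicit false

namespace Pool.Agent.ClassAut

open Subgroup
open scoped commutatorElement IsMulCommutative

variable {G : Type*} [Group G]

/-- A class-preserving endomorphism of a finite group is an automorphism. -/
lemma exists_mulEquiv_of_isConj [Finite G] (f : G →* G) (hf : ∀ x, IsConj x (f x)) :
    ∃ α : G ≃* G, ∀ x, α x = f x := by
  have hinj : Function.Injective f := by
    rw [injective_iff_map_eq_one]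
    intro x hx
    have := hf x
    rw [hx] at this
    exact isConj_one_right.mp this.symm
  have hbij : Function.Bijective f := Finite.injective_iff_bijective.mp hinj
  exact ⟨MulEquiv.ofBijective f hbij, fun x => rfl⟩

lemma exists_pow_factor {p : ℕ} (hp : 2 ≤ p) {n : ℕ} (e : Fin n → ℤ) (he : e ≠ 0) :
    ∃ (k : ℕ) (e' : Fin n → ℤ), (∀ i, e i = (p : ℤ) ^ k * e' i) ∧ ∃ i, ¬ (p : ℤ) ∣ e' i := by
  have key : ∀ (N : ℕ) (e : Fin n → ℤ), e ≠ 0 → ∑ i, (e i).natAbs ≤ N →
      ∃ (k : ℕ) (e' : Fin n → ℤ), (∀ i, e i = (p : ℤ) ^ k * e' i) ∧ ∃ i, ¬ (p : ℤ) ∣ e' i := by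
    intro N
    induction N with
    | zero =>
      intro e he hN
      exfalso; apply he
      funext i
      have : (e i).natAbs ≤ ∑ i, (e i).natAbs :=
        Finset.single_le_sum (f := fun i => (e i).natAbs) (fun _ _ => Nat.zero_le _)
          (Finset.mem_univ i)
      have h0 : (e i).natAbs = 0 := by omega
      simpa using h0
    | succ N ih =>
      intro e he hN
      by_cases h : ∃ i, ¬ (p : ℤ) ∣ e i
      · exact ⟨0, e, by simp, h⟩
      · have h' : ∀ i, (p : ℤ) ∣ e i := fun i => not_not.mp fun hi => h ⟨i, hi⟩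
        choose f hf using h'
        have hf0 : f ≠ 0 := by
          rintro rfl
          apply he
          funext i
          simp [hf i]
        have hlt : ∑ i, (f i).natAbs < ∑ i, (e i).natAbs := by
          obtain ⟨i, hi⟩ : ∃ i, f i ≠ 0 := by
            by_contra hcon
            exact hf0 (funext fun i => not_not.mp fun hi => hcon ⟨i, hi⟩)
          apply Finset.sum_lt_sum
          · intro j _
            rw [hf j, Int.natAbs_mul, Int.natAbs_natCast]
            exact Nat.le_mul_of_pos_left _ (by omega)
          · refine ⟨i, Finset.mem_univ i, ?_⟩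
            rw [hf i, Int.natAbs_mul, Int.natAbs_natCast]
            have : 0 < (f i).natAbs := Int.natAbs_pos.mpr hi
            nlinarith
        obtain ⟨k, e', h1, h2⟩ := ih f hf0 (by omega)
        refine ⟨k + 1, e', fun i => ?_, h2⟩
        rw [hf i, h1 i, pow_succ]; ring
  exact key _ e he le_rfl

section

variable (hc : commutator G ≤ center G)
include hc

lemma comm_mul_right (g x y : G) : ⁅g, x * y⁆ = ⁅g, x⁆ * ⁅g, y⁆ := by
  rw [commutatorElement_mul_right_eq_mul_conj]
  have := (Subgroup.mem_center_iff.mp (hc (comm_mem g y))) x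
  rw [mul_assoc ⁅g, x⁆, this, mul_assoc, mul_assoc, mul_inv_cancel, mul_one]

lemma comm_pow_right (g x : G) (k : ℕ) : ⁅g, x ^ k⁆ = ⁅g, x⁆ ^ k := by
  induction k with
  | zero => simp
  | succ k ih => rw [pow_succ, comm_mul_right hc, ih, pow_succ]

end

/-- (forward direction) the extension property gives full classes outside the Frattini
subgroup. -/
lemma Ext.isConj [Finite G] {p : ℕ} [Fact p.Prime] (hG : IsPGroup p G) {n : ℕ} {s : Fin n → G}
    (h : Ext s) {x : G} (hx : x ∉ frattini G) {c : G} (hc : c ∈ commutator G) :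
    IsConj x (c * x) := by
  obtain ⟨i, hi⟩ := exists_exchange hG h.1 hx
  have h' := h.change hi
  obtain ⟨α, hα, hα2⟩ := h'.2 (fun _ => c) (fun _ => hc)
  have := hα2 i
  simp only [Function.update_self] at this
  rw [← this]
  exact hα x

lemma isConj_mul_right_of_left {x : G}
    (h : ∀ c ∈ commutator G, IsConj x (c * x)) : ∀ c ∈ commutator G, IsConj x (x * c) := by
  intro c hc
  have : x * c = (x * c * x⁻¹) * x := by group
  rw [this]
  exact h _ (Subgroup.Normal.conj_mem inferInstance c hc x)

lemma isConj_mul_left_of_right {x : G}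
    (h : ∀ c ∈ commutator G, IsConj x (x * c)) : ∀ c ∈ commutator G, IsConj x (c * x) := by
  intro c hc
  have : c * x = x * (x⁻¹ * c * x⁻¹⁻¹) := by group
  rw [this]
  exact h _ (Subgroup.Normal.conj_mem inferInstance c hc x⁻¹)

/-- (backward direction, class two) full classes outside the Frattini subgroup give the
extension property. -/
lemma ext_of_classTwo [Finite G] {p : ℕ} [hp : Fact p.Prime] (hG : IsPGroup p G)
    (hc : commutator G ≤ center G)
    (hC : ∀ x ∉ frattini G, ∀ c ∈ commutator G, IsConj x (c * x))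
    {n : ℕ} (hn : n = Group.rank G) {s : Fin n → G}
    (hs : Subgroup.closure (Set.range s) = ⊤) : Ext s := by
  refine ⟨hs, fun c hcK => ?_⟩
  -- the key decomposition of an element
  have key : ∀ g : G, g ∈ commutator G ∨ ∃ (k : ℕ) (w : G), w ∉ frattini G ∧
      (∃ e : Fin n → ℤ, Abelianization.of g = ∏ i, Abelianization.of (s i) ^ e i) ∧
      Abelianization.of (w ^ p ^ k) = Abelianization.of g := by
    intro g
    obtain ⟨e, he⟩ := exists_exponents hs g
    by_cases he0 : e = 0
    · left
      have h1 : Abelianization.of g = Abelianization.of 1 := by rw [he, he0]; simp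
      exact (mem_iff_of_abelianization_eq le_rfl h1).mpr (one_mem _)
    · right
      obtain ⟨k, e', h1, i, h2⟩ := exists_pow_factor hp.out.two_le e he0
      obtain ⟨w, hw'⟩ : ∃ w, Abelianization.of w = ∏ i, Abelianization.of (s i) ^ e' i :=
        QuotientGroup.mk'_surjective (commutator G) _
      refine ⟨k, w, fun hwf => h2 (dvd_exponent_of_mem_frattini hG hn hs hwf hw' i), ⟨e, he⟩, ?_⟩
      rw [map_pow, hw', he, ← Finset.prod_pow]
      refine Finset.prod_congr rfl fun j _ => ?_
      rw [h1 j, mul_comm, zpow_mul]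
      rw [← zpow_natCast]; norm_cast
  -- relations
  have hrel : ∀ (e : Fin n → ℤ) (w : G),
      Abelianization.of w = ∏ i, Abelianization.of (s i) ^ e i → w ∈ center G →
      ∏ i, (⟨c i, hc (hcK i)⟩ : center G) ^ e i = 1 := by
    intro e w he hw
    by_cases he0 : e = 0
    · simp [he0]
    obtain ⟨k, e', h1, i, h2⟩ := exists_pow_factor hp.out.two_le e he0
    obtain ⟨v, hv'⟩ : ∃ w, Abelianization.of w = ∏ i, Abelianization.of (s i) ^ e' i :=
      QuotientGroup.mk'_surjective (commutator G) _
    have hvf : v ∉ frattini G := fun hwf =>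
      h2 (dvd_exponent_of_mem_frattini hG hn hs hwf hv' i)
    have hvw : Abelianization.of (v ^ p ^ k) = Abelianization.of w := by
      rw [map_pow, hv', he, ← Finset.prod_pow]
      refine Finset.prod_congr rfl fun j _ => ?_
      rw [h1 j, mul_comm, zpow_mul]
      rw [← zpow_natCast]; norm_cast
    have hvc : v ^ p ^ k ∈ center G := (mem_iff_of_abelianization_eq hc hvw).mpr hw
    have hpow : ∀ d ∈ commutator G, d ^ p ^ k = 1 := by
      intro d hd
      obtain ⟨g, rfl⟩ := isConj_mul_iff.mp (hC v hvf d hd)
      rw [← comm_pow_right hc, commutatorElement_eq_one_iff_mul_comm]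
      exact Subgroup.mem_center_iff.mp hvc g
    apply Finset.prod_eq_one
    intro j _
    apply Subtype.ext
    rw [h1 j, zpow_mul]
    have := hpow (c j) (hcK j)
    simp only [SubgroupClass.coe_zpow, OneMemClass.coe_one]
    have h3 : c j ^ ((p : ℤ) ^ k) = 1 := by
      rw [← this, ← zpow_natCast]; norm_cast
    rw [h3, one_zpow]
  obtain ⟨f, hf1, hf2⟩ := exists_hom_of_relations hs (center G)
    (fun i => (⟨c i, hc (hcK i)⟩ : center G)) hrel
  have hfK : ∀ g, (f g : G) ∈ commutator G := by
    intro g
    have hg : g ∈ Subgroup.closure (Set.range s) := by rw [hs]; trivial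
    induction hg using Subgroup.closure_induction with
    | mem x hx => obtain ⟨i, rfl⟩ := hx; rw [hf1]; exact hcK i
    | one => simp
    | mul x y _ _ hx hy => rw [map_mul]; exact (commutator G).mul_mem hx hy
    | inv x _ hx => rw [map_inv]; exact (commutator G).inv_mem hx
  let F : G →* G :=
    { toFun := fun g => (f g : G) * g
      map_one' := by simp
      map_mul' := fun x y => by
        have := Subgroup.mem_center_iff.mp (f y).2 x
        simp only [map_mul, Subgroup.coe_mul]
        calc (f x : G) * f y * (x * y) = f x * (f y * x) * y := by group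
          _ = f x * (x * f y) * y := by rw [← this]
          _ = f x * x * (f y * y) := by group }
  have hF : ∀ x, IsConj x (F x) := by
    intro g
    show IsConj g ((f g : G) * g)
    rw [isConj_mul_iff]
    rcases key g with hg | ⟨k, w, hw, -, hwg⟩
    · refine ⟨1, ?_⟩
      rw [hf2 g (hc hg)]; simp
    · obtain ⟨h, hh⟩ := isConj_mul_iff.mp (hC w hw _ (hfK w))
      have hz : (w ^ p ^ k)⁻¹ * g ∈ commutator G := QuotientGroup.eq.mp hwg
      have hg : g = w ^ p ^ k * ((w ^ p ^ k)⁻¹ * g) := by group
      have h1 : ⁅h, (w ^ p ^ k)⁻¹ * g⁆ = 1 := by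
        rw [commutatorElement_eq_one_iff_mul_comm]
        exact Subgroup.mem_center_iff.mp (hc hz) h
      refine ⟨h, ?_⟩
      calc ⁅h, g⁆ = ⁅h, w ^ p ^ k * ((w ^ p ^ k)⁻¹ * g)⁆ := by rw [← hg]
        _ = (f w : G) ^ p ^ k := by
          rw [comm_mul_right hc, h1, mul_one, comm_pow_right hc, hh]
        _ = f g := by
          conv_rhs => rw [hg]
          rw [map_mul, hf2 _ (hc hz), mul_one, map_pow]; simp
  obtain ⟨α, hα⟩ := exists_mulEquiv_of_isConj F hF
  refine ⟨α, fun x => by rw [hα]; exact hF x, fun i => ?_⟩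
  rw [hα]
  show (f (s i) : G) * s i = c i * s i
  rw [hf1]

end Pool.Agent.ClassAut
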