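import Pool.Agent.ClassAut.TwoGenBasic

/-!
# Two generators, cyclic commutator subgroup: sufficiency
-/

set_option autoImplicit false

namespace Pool.Agent.ClassAut

open Subgroup
open scoped commutatorElement

variable {G : Type*} [Group G]

/-- The arithmetic condition on the exponent of the action. -/
def Good (p : ℕ) (U : ℤ) : Prop := (p ≠ 2 ∧ (p : ℤ) ∣ U - 1) ∨ (p = 2 ∧ (4 : ℤ) ∣ U - 1)

lemma good_one (p : ℕ) : Good p 1 := by
  by_cases h : p = 2
  · right; exact ⟨h, by simp⟩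
  · left; exact ⟨h, by simp⟩

lemma Good.pow {p : ℕ} {U : ℤ} (h : Good p U) (n : ℕ) : Good p (U ^ n) := by
  rcases h with ⟨h1, h2⟩ | ⟨h1, h2⟩
  · left; exact ⟨h1, h2.trans (sub_one_dvd_pow_sub_one U n)⟩
  · right; exact ⟨h1, h2.trans (sub_one_dvd_pow_sub_one U n)⟩
where
  sub_one_dvd_pow_sub_one (U : ℤ) (n : ℕ) : U - 1 ∣ U ^ n - 1 := by
    simpa using sub_dvd_pow_sub_pow U 1 n

lemma Good.geom_sum {p : ℕ} (hp : p.Prime) {U : ℤ} (h : Good p U) :
    ∃ w : ℤ, ¬ (p : ℤ) ∣ w ∧ ∑ i ∈ Finset.range p, U ^ i = p * w := by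
  have hp1 : ¬ (p : ℤ) ∣ 1 := by
    intro hd
    have : (p : ℕ) ∣ 1 := by exact_mod_cast hd
    exact hp.one_lt.ne' (Nat.dvd_one.mp this)
  rcases h with ⟨h1, k, hk⟩ | ⟨rfl, k, hk⟩
  · have hodd : Odd p := hp.odd_of_ne_two h1
    have := odd_sq_dvd_geom_sum₂_sub (R := ℤ) (a := 1) (b := k) hodd
    obtain ⟨l, hl⟩ := this
    refine ⟨1 + p * l, ?_, ?_⟩
    · intro hd
      exact hp1 ((dvd_add_left (Dvd.intro l rfl)).mp hd)
    · have hU : U = 1 + p * k := by linarith
      simp only [one_pow, mul_one] at hl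
      rw [hU]; linear_combination hl
  · refine ⟨1 + 2 * k, ?_, ?_⟩
    · intro hd
      have hd' : (2 : ℤ) ∣ 1 + 2 * k := by exact_mod_cast hd
      omega
    · simp only [Finset.sum_range_succ, Finset.range_zero, Finset.sum_empty, pow_zero, pow_one]
      push_cast
      linarith

lemma comm_pow_of_act {X y : G} {U : ℤ} (hX : ∀ z ∈ commutator G, X * z * X⁻¹ = z ^ U) (n : ℕ) :
    ⁅X ^ n, y⁆ = ⁅X, y⁆ ^ (∑ i ∈ Finset.range n, U ^ i) := by
  induction n with
  | zero => simp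
  | succ n ih =>
    rw [pow_succ', commutatorElement_mul_left_eq_conj_mul, hX _ (comm_mem _ _), ih, geom_sum_succ,
      zpow_add, zpow_one, mul_comm U, zpow_mul]

lemma act_pow {X : G} {U : ℤ} (hX : ∀ z ∈ commutator G, X * z * X⁻¹ = z ^ U) (n : ℕ) :
    ∀ z ∈ commutator G, X ^ n * z * (X ^ n)⁻¹ = z ^ (U ^ n) := by
  induction n with
  | zero => intro z _; simp
  | succ n ih =>
    intro z hz
    have : X ^ (n + 1) * z * (X ^ (n + 1))⁻¹ = X ^ n * (X * z * X⁻¹) * (X ^ n)⁻¹ := by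
      rw [pow_succ]; group
    rw [this, hX z hz, ih _ (Subgroup.zpow_mem _ hz U), ← zpow_mul, pow_succ, mul_comm]

lemma exists_comm_pow_prime {p : ℕ} (hp : p.Prime) {x y : G} {U : ℤ}
    (hx : ∀ z ∈ commutator G, x * z * x⁻¹ = z ^ U) (hU : Good p U) (r : ℕ) :
    ∃ w : ℤ, ¬ (p : ℤ) ∣ w ∧ ⁅x ^ p ^ r, y⁆ = ⁅x, y⁆ ^ ((p : ℤ) ^ r * w) := by
  induction r with
  | zero =>
    refine ⟨1, ?_, by simp⟩
    intro hd
    have : (p : ℕ) ∣ 1 := by exact_mod_cast hd
    exact hp.one_lt.ne' (Nat.dvd_one.mp this)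
  | succ r ih =>
    obtain ⟨w, hw, hw2⟩ := ih
    obtain ⟨v, hv, hv2⟩ := (hU.pow (p ^ r)).geom_sum hp
    refine ⟨w * v, ?_, ?_⟩
    · intro hd
      rcases (Nat.prime_iff_prime_int.mp hp).dvd_or_dvd hd with h | h
      · exact hw h
      · exact hv h
    · rw [pow_succ, pow_mul, comm_pow_of_act (act_pow hx (p ^ r)), hv2, hw2, ← zpow_mul]
      congr 1; ring

/-- With a cyclic commutator subgroup and good action, the extension property holds (via inner
automorphisms). -/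
lemma ext_of_act [Finite G] {p : ℕ} [hp : Fact p.Prime] (hG : IsPGroup p G) {x y : G}
    (h : Gen x y)
    (hact : ∀ g : G, ∃ U : ℤ, Good p U ∧ ∀ z ∈ commutator G, g * z * g⁻¹ = z ^ U) :
    Ext ![x, y] := by
  classical
  -- the commutator subgroup is generated by `⁅x, y⁆`
  have hK : commutator G = Subgroup.zpowers ⁅x, y⁆ := by
    apply le_antisymm
    · apply h.commutator_le _ (Subgroup.mem_zpowers _)
      refine ⟨fun z hz g => ?_⟩
      obtain ⟨U, -, hU⟩ := hact g
      have hz' : z ∈ commutator G :=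
        (Subgroup.zpowers_le.mpr (comm_mem x y)) hz
      rw [hU z hz']
      exact Subgroup.zpow_mem _ hz U
    · exact Subgroup.zpowers_le.mpr (comm_mem x y)
  obtain ⟨m, hm⟩ := (IsPGroup.iff_card (p := p)).mp (hG.to_subgroup (commutator G))
  have hord : ∀ {a b : G}, Gen a b → orderOf ⁅a, b⁆ = p ^ m := by
    intro a b hab
    rw [← Nat.card_zpowers, ← hm]
    congr 1
    have : Subgroup.zpowers ⁅a, b⁆ = commutator G := by
      apply le_antisymm
      · exact Subgroup.zpowers_le.mpr (comm_mem a b)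
      · apply hab.commutator_le _ (Subgroup.mem_zpowers _)
        refine ⟨fun z hz g => ?_⟩
        obtain ⟨U, -, hU⟩ := hact g
        have hz' : z ∈ commutator G :=
          (Subgroup.zpowers_le.mpr (comm_mem a b)) hz
        rw [hU z hz']
        exact Subgroup.zpow_mem _ hz U
    rw [this]
  -- powers commuting with the other generator
  have key : ∀ {a b : G}, Gen a b → ∀ n : ℤ, a ^ n * b = b * a ^ n → (p : ℤ) ^ m ∣ n := by
    intro a b hab n hn
    by_contra hcon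
    have hn0 : n ≠ 0 := by rintro rfl; exact hcon (dvd_zero _)
    obtain ⟨r, e', he', i, hi⟩ := exists_pow_factor hp.out.two_le (fun _ : Fin 1 => n)
      (by intro h0; exact hn0 (congrFun h0 0))
    have he := he' i
    set n' := e' i with hn'
    have hrm : r < m := by
      by_contra hr
      apply hcon
      rw [show n = (p : ℤ) ^ r * n' from he]
      exact Dvd.dvd.mul_right (pow_dvd_pow _ (not_lt.mp hr)) _
    have hmem : (a ^ p ^ r) ^ n' ∈ Subgroup.centralizer {b} := by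
      rw [Subgroup.mem_centralizer_singleton_iff]
      have : (a ^ p ^ r) ^ n' = a ^ n := by
        rw [show n = (p : ℤ) ^ r * n' from he, zpow_mul]
        congr 1
        rw [← zpow_natCast]; norm_cast
      rw [this]; exact hn
    have hmem' := mem_of_zpow_mem hG hi hmem
    rw [Subgroup.mem_centralizer_singleton_iff] at hmem'
    obtain ⟨U, hU, hU2⟩ := hact a
    obtain ⟨w, hw, hw2⟩ := exists_comm_pow_prime (y := b) hp.out hU2 hU r
    have h1 : ⁅a ^ p ^ r, b⁆ = 1 := commutatorElement_eq_one_iff_mul_comm.mpr hmem'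
    rw [h1] at hw2
    have h2 := orderOf_dvd_iff_zpow_eq_one.mpr hw2.symm
    rw [hord hab] at h2
    have h3 : (p : ℤ) ^ (r + 1) ∣ (p : ℤ) ^ r * w := by
      refine dvd_trans ?_ h2
      push_cast
      exact pow_dvd_pow _ hrm
    rw [pow_succ] at h3
    have hpr : (p : ℤ) ^ r ≠ 0 := pow_ne_zero _ (by exact_mod_cast hp.out.ne_zero)
    exact hw ((mul_dvd_mul_iff_left hpr).mp h3)
  -- counting
  have hgen := gen_iff.mpr h
  rw [← card_eq_iff_ext hgen, hm]
  have : Finite (G ≃* G) := Finite.of_injective (fun α : G ≃* G => (α : G → G))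
    DFunLike.coe_injective
  have hle : Nat.card {α : G ≃* G // ∀ x : G, IsConj x (α x)} ≤ (p ^ m) ^ 2 := by
    have := Nat.card_le_card_of_injective _ (rec_injective hgen)
    refine this.trans ?_
    rw [Nat.card_fun, hm]; simp
  have hge : (p ^ m) ^ 2 ≤ Nat.card {α : G ≃* G // ∀ x : G, IsConj x (α x)} := by
    let Θ : Fin (p ^ m) × Fin (p ^ m) → {α : G ≃* G // ∀ x : G, IsConj x (α x)} :=
      fun ij => ⟨MulAut.conj (x ^ (ij.1 : ℕ) * y ^ (ij.2 : ℕ)), fun z => by
        rw [isConj_iff]; exact ⟨_, rfl⟩⟩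
    have hΘ : Function.Injective Θ := by
      rintro ⟨i, j⟩ ⟨i', j'⟩ hij
      have hcomm : ∀ z : G, (y ^ (-(j' : ℤ)) * x ^ ((i : ℤ) - i') * y ^ (j : ℤ)) * z
          = z * (y ^ (-(j' : ℤ)) * x ^ ((i : ℤ) - i') * y ^ (j : ℤ)) := by
        intro z
        have h0 := congrArg Subtype.val hij
        have h1 : (x ^ (i : ℕ) * y ^ (j : ℕ)) * z * (x ^ (i : ℕ) * y ^ (j : ℕ))⁻¹
            = (x ^ (i' : ℕ) * y ^ (j' : ℕ)) * z * (x ^ (i' : ℕ) * y ^ (j' : ℕ))⁻¹ :=
          DFunLike.congr_fun h0 z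
        have e1 : y ^ (-(j' : ℤ)) * x ^ ((i : ℤ) - i') * y ^ (j : ℤ)
            = (x ^ (i' : ℕ) * y ^ (j' : ℕ))⁻¹ * (x ^ (i : ℕ) * y ^ (j : ℕ)) := by
          rw [zpow_sub, zpow_neg]
          simp only [zpow_natCast, mul_inv_rev]
          have : x ^ (i : ℕ) * (x ^ (i' : ℕ))⁻¹ = (x ^ (i' : ℕ))⁻¹ * x ^ (i : ℕ) :=
            ((Commute.refl x).pow_pow _ _).inv_right.eq
          rw [this]; group
        rw [e1]
        set A := x ^ (i : ℕ) * y ^ (j : ℕ)
        set B := x ^ (i' : ℕ) * y ^ (j' : ℕ)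
        calc B⁻¹ * A * z = B⁻¹ * (A * z * A⁻¹) * A := by group
          _ = B⁻¹ * (B * z * B⁻¹) * A := by rw [h1]
          _ = z * (B⁻¹ * A) := by group
      set w := y ^ (-(j' : ℤ)) * x ^ ((i : ℤ) - i') * y ^ (j : ℤ) with hw
      have hx : x ^ ((i : ℤ) - i') = y ^ (j' : ℤ) * w * y ^ (-(j : ℤ)) := by
        rw [hw]; group
      have hi : (i : ℤ) - i' = 0 := by
        have h2 : (p : ℤ) ^ m ∣ (i : ℤ) - i' := by
          apply key h
          rw [hx]
          have e2 : y ^ (j' : ℤ) * w * y ^ (-(j : ℤ)) = w * y ^ ((j' : ℤ) - j) := by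
            rw [← hcomm (y ^ (j' : ℤ)), mul_assoc, ← zpow_add]; rfl
          rw [e2]
          have hwy : Commute w y := hcomm y
          exact (hwy.mul_left ((Commute.refl y).zpow_left _)).eq
        by_contra hne
        have h3 := Int.le_of_dvd (abs_pos.mpr hne) ((dvd_abs _ _).mpr h2)
        have h4 : |(i : ℤ) - i'| < (p : ℤ) ^ m := by
          have hi1 : (i : ℕ) < p ^ m := i.2
          have hi2 : (i' : ℕ) < p ^ m := i'.2
          have hi1' : (i : ℤ) < (p : ℤ) ^ m := by exact_mod_cast hi1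
          have hi2' : (i' : ℤ) < (p : ℤ) ^ m := by exact_mod_cast hi2
          rw [abs_lt]; constructor <;> linarith [Int.natCast_nonneg (i : ℕ), Int.natCast_nonneg (i' : ℕ)]
        linarith
      have hw' : w = y ^ ((j : ℤ) - j') := by
        rw [hw, hi, zpow_zero, mul_one, ← zpow_add]
        congr 1; ring
      have hj : (j : ℤ) - j' = 0 := by
        have h2 : (p : ℤ) ^ m ∣ (j : ℤ) - j' := by
          apply key h.swap
          rw [← hw']; exact hcomm x
        by_contra hne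
        have h3 := Int.le_of_dvd (abs_pos.mpr hne) ((dvd_abs _ _).mpr h2)
        have h4 : |(j : ℤ) - j'| < (p : ℤ) ^ m := by
          have hi1 : (j : ℕ) < p ^ m := j.2
          have hi2 : (j' : ℕ) < p ^ m := j'.2
          have hi1' : (j : ℤ) < (p : ℤ) ^ m := by exact_mod_cast hi1
          have hi2' : (j' : ℤ) < (p : ℤ) ^ m := by exact_mod_cast hi2
          rw [abs_lt]; constructor <;> linarith [Int.natCast_nonneg (j : ℕ), Int.natCast_nonneg (j' : ℕ)]
        linarith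
      apply Prod.ext
      · apply Fin.ext; show (i : ℕ) = i'; omega
      · apply Fin.ext; show (j : ℕ) = j'; omega
    have := Nat.card_le_card_of_injective Θ hΘ
    rw [Nat.card_prod, Nat.card_fin] at this
    rw [pow_two]; exact this
  exact le_antisymm hle hge

/-- Sufficiency of case (b). -/
lemma ext_of_cyclic [Finite G] {p : ℕ} [hp : Fact p.Prime] (hG : IsPGroup p G) {x y : G}
    (h : Gen x y) (hcyc : IsCyclic (commutator G))
    (h2 : p = 2 → ∀ z ∈ ⁅commutator G, (⊤ : Subgroup G)⁆, ∃ b ∈ commutator G, z = b ^ 4) :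
    Ext ![x, y] := by
  apply ext_of_act hG h
  intro g
  obtain ⟨⟨k, hk⟩, hgen⟩ := hcyc.exists_generator
  have hgen' : ∀ z ∈ commutator G, ∃ a : ℤ, k ^ a = z := by
    intro z hz
    obtain ⟨a, ha⟩ := Subgroup.mem_zpowers_iff.mp (hgen ⟨z, hz⟩)
    exact ⟨a, congrArg Subtype.val ha⟩
  have hcomm_mem : ⁅g, k⁆ ∈ ⁅commutator G, (⊤ : Subgroup G)⁆ := by
    rw [← commutatorElement_inv]
    exact inv_mem (Subgroup.commutator_mem_commutator hk (Subgroup.mem_top g))
  by_cases hp2 : p = 2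
  · obtain ⟨b, hb, hb2⟩ := h2 hp2 _ hcomm_mem
    obtain ⟨a, rfl⟩ := hgen' b hb
    refine ⟨1 + 4 * a, Or.inr ⟨hp2, by simp⟩, fun z hz => ?_⟩
    obtain ⟨e, rfl⟩ := hgen' z hz
    have h3 : g * k * g⁻¹ = k ^ (1 + 4 * a) := by
      have : g * k * g⁻¹ = ⁅g, k⁆ * k := by simp [commutatorElement_def]
      rw [this, hb2]
      rw [zpow_add, zpow_one, mul_comm 4 a, zpow_mul]
      have : (k ^ a) ^ (4 : ℤ) = (k ^ a) ^ 4 := by norm_cast
      rw [this]
      exact (((Commute.refl k).zpow_left a).pow_left 4).eq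
    calc g * k ^ e * g⁻¹ = (g * k * g⁻¹) ^ e := by rw [conj_zpow]
      _ = (k ^ e) ^ (1 + 4 * a) := by rw [h3, ← zpow_mul, ← zpow_mul, mul_comm]
  · obtain ⟨u, hu⟩ := hgen' (g * k * g⁻¹) (Subgroup.Normal.conj_mem inferInstance k hk g)
    by_cases hd : (p : ℤ) ∣ u - 1
    · refine ⟨u, Or.inl ⟨hp2, hd⟩, fun z hz => ?_⟩
      obtain ⟨e, rfl⟩ := hgen' z hz
      calc g * k ^ e * g⁻¹ = (g * k * g⁻¹) ^ e := by rw [conj_zpow]
        _ = (k ^ e) ^ u := by rw [← hu, ← zpow_mul, ← zpow_mul, mul_comm]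
    · -- then `K = ⊥`
      have h3 : k ^ (u - 1) ∈ ⁅commutator G, (⊤ : Subgroup G)⁆ := by
        have : k ^ (u - 1) = ⁅g, k⁆ := by
          rw [zpow_sub, zpow_one, hu]; rfl
        rw [this]; exact hcomm_mem
      have h4 := mem_of_zpow_mem hG hd h3
      have h5 : commutator G ≤ ⁅commutator G, (⊤ : Subgroup G)⁆ := by
        intro z hz
        obtain ⟨a, rfl⟩ := hgen' z hz
        exact Subgroup.zpow_mem _ h4 a
      have : Group.IsNilpotent G := hG.isNilpotent
      have h6 := eq_bot_of_le_commutator h5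
      refine ⟨1, good_one p, fun z hz => ?_⟩
      rw [h6, Subgroup.mem_bot] at hz
      rw [hz]; simp

end Pool.Agent.ClassAut
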