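import Pool.Agent.ClassAut.ClassThreeTwoGen

/-!
# Two generators: necessity of a cyclic commutator subgroup for odd `p`
-/

set_option autoImplicit false

namespace Pool.Agent.ClassAut

open Subgroup
open scoped commutatorElement

variable {G : Type*} [Group G]

/-- The Frattini subgroup of the commutator subgroup, as a subgroup of `G`. -/
def frK (G : Type*) [Group G] : Subgroup G :=
  (frattini (commutator G)).map (commutator G).subtype

lemma frK_le : frK G ≤ commutator G := by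
  rintro _ ⟨z, -, rfl⟩
  exact z.2

instance frK_normal : (frK G).Normal := by
  unfold frK
  infer_instance

lemma pow_mem_frK [Finite G] {p : ℕ} [Fact p.Prime] (hG : IsPGroup p G) {k : G}
    (hk : k ∈ commutator G) : k ^ p ∈ frK G :=
  ⟨(⟨k, hk⟩ : commutator G) ^ p, pow_mem_frattini (hG.to_subgroup _) _, rfl⟩

/-- If `γ₃ ≤ Φ(γ₂)` then the commutator subgroup of a two-generator finite group is cyclic. -/
lemma eq_zpowers_of_le [Finite G] {x y : G} (h : Gen x y)
    (hle : ⁅commutator G, (⊤ : Subgroup G)⁆ ≤ frK G) :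
    commutator G = Subgroup.zpowers ⁅y, x⁆ := by
  have hc : ⁅y, x⁆ ∈ commutator G := comm_mem y x
  set L := Subgroup.zpowers ⁅y, x⁆ ⊔ frK G with hL
  have hLK : L ≤ commutator G := sup_le (Subgroup.zpowers_le.mpr hc) frK_le
  have hLn : L.Normal := by
    refine ⟨fun z hz g => ?_⟩
    have e : g * z * g⁻¹ = ⁅z, g⁆⁻¹ * z := by simp [commutatorElement_def, mul_assoc]
    rw [e]
    refine L.mul_mem (L.inv_mem ?_) hz
    exact (hle.trans le_sup_right) (Subgroup.commutator_mem_commutator (hLK hz) (mem_top g))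
  have hKL : commutator G ≤ L :=
    h.swap.commutator_le hLn (Subgroup.mem_sup_left (Subgroup.mem_zpowers _))
  have htop : Subgroup.zpowers (⟨⁅y, x⁆, hc⟩ : commutator G) = ⊤ := by
    apply frattini_nongenerating
    apply Subgroup.map_injective (commutator G).subtype_injective
    rw [Subgroup.map_sup]
    have e1 : (Subgroup.zpowers (⟨⁅y, x⁆, hc⟩ : commutator G)).map (commutator G).subtype
        = Subgroup.zpowers ⁅y, x⁆ := by
      rw [MonoidHom.map_zpowers]; rfl
    rw [e1]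
    have e2 : (⊤ : Subgroup (commutator G)).map (commutator G).subtype = commutator G := by
      rw [← MonoidHom.range_eq_map, Subgroup.range_subtype]
    rw [e2]
    exact le_antisymm hLK hKL
  apply le_antisymm
  · intro k hk
    have : (⟨k, hk⟩ : commutator G) ∈ Subgroup.zpowers (⟨⁅y, x⁆, hc⟩ : commutator G) := by
      rw [htop]; trivial
    obtain ⟨a, ha⟩ := Subgroup.mem_zpowers_iff.mp this
    exact Subgroup.mem_zpowers_iff.mpr ⟨a, congrArg Subtype.val ha⟩
  · exact Subgroup.zpowers_le.mpr hc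

lemma isCyclic_of_eq_zpowers {c : G} (h : commutator G = Subgroup.zpowers c) :
    IsCyclic (commutator G) := by
  rw [h]; infer_instance

lemma quotient_pair (N : Subgroup G) [N.Normal] {x y : G} (hE : Ext ![x, y]) :
    Ext ![(x : G ⧸ N), (y : G ⧸ N)] := by
  have := hE.quotient N
  have e : (fun i => (QuotientGroup.mk (![x, y] i) : G ⧸ N)) = ![(x : G ⧸ N), (y : G ⧸ N)] := by
    funext i
    fin_cases i <;> rfl
  rwa [e] at this

/-- In class three the elements of `γ₃` are not separated from `c`. -/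
lemma not_mem_of_nontrivial [Finite G] {p : ℕ} [Fact p.Prime] (hG : IsPGroup p G) {x y : G}
    (h : Gen x y) (hc : ⁅y, x⁆ ∈ ⁅commutator G, (⊤ : Subgroup G)⁆) : commutator G = ⊥ := by
  have : Group.IsNilpotent G := hG.isNilpotent
  apply eq_bot_of_le_commutator
  exact h.swap.commutator_le inferInstance hc

lemma dvd_choose_two {p : ℕ} (hp : p.Prime) (hp2 : p ≠ 2) {j : ℕ} (hj : p ∣ j) :
    p ∣ j.choose 2 := by
  have h1 : 2 * j.choose 2 = j * (j - 1) := by
    rw [Nat.choose_two_right]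
    exact Nat.mul_div_cancel' (Nat.even_mul_pred_self j).two_dvd
  have h2 : p ∣ 2 * j.choose 2 := by rw [h1]; exact Dvd.dvd.mul_right hj _
  rcases (Nat.Prime.dvd_mul hp).mp h2 with h | h
  · exact absurd ((Nat.prime_dvd_prime_iff_eq hp Nat.prime_two).mp h) hp2
  · exact h

section

variable (h4 : ⁅⁅commutator G, (⊤ : Subgroup G)⁆, (⊤ : Subgroup G)⁆ = ⊥)
include h4

lemma gamma3_form_odd [Finite G] {p : ℕ} [hp : Fact p.Prime] (hG : IsPGroup p G) (hp2 : p ≠ 2)
    (hexp : ∀ k ∈ commutator G, k ^ p = 1) (hK : commutator G ≠ ⊥) {x y : G}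
    (hE : Ext ![x, y]) {z : G} (hz : z ∈ ⁅commutator G, (⊤ : Subgroup G)⁆) :
    ∃ a : ℤ, z = ⁅⁅y, x⁆, x⁆ ^ a := by
  have hle : ⁅commutator G, (⊤ : Subgroup G)⁆ ≤ commutator G := Subgroup.commutator_le_left _ _
  obtain ⟨g, hg⟩ := hE.exists_comm (hle hz)
  obtain ⟨j, a, hja⟩ := comm_with_gen_form h4 hE.gen g
  have hc : ⁅y, x⁆ ∈ commutator G := comm_mem y x
  have hW : ⁅y, ⁅y, x⁆⁆ ∈ ⁅commutator G, (⊤ : Subgroup G)⁆ := by
    rw [← commutatorElement_inv]
    exact inv_mem (Subgroup.commutator_mem_commutator hc (mem_top y))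
  have hV : ⁅⁅y, x⁆, x⁆ ∈ ⁅commutator G, (⊤ : Subgroup G)⁆ :=
    Subgroup.commutator_mem_commutator hc (mem_top x)
  rw [hg] at hja
  have hcj : ⁅y, x⁆ ^ j ∈ ⁅commutator G, (⊤ : Subgroup G)⁆ := by
    have e : ⁅y, x⁆ ^ j
        = z * (⁅⁅y, x⁆, x⁆ ^ a)⁻¹ * (⁅y, ⁅y, x⁆⁆ ^ (j.choose 2))⁻¹ := by
      rw [hja]; group
    rw [e]
    exact mul_mem (mul_mem hz (inv_mem (Subgroup.zpow_mem _ hV a)))
      (inv_mem (Subgroup.pow_mem _ hW _))
  have hpj : p ∣ j := by
    by_contra hcon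
    apply hK
    apply not_mem_of_nontrivial hG hE.gen
    have hcon' : ¬ (p : ℤ) ∣ (j : ℤ) := by
      intro hd; exact hcon (by exact_mod_cast hd)
    exact mem_of_zpow_mem hG hcon' (by rw [zpow_natCast]; exact hcj)
  refine ⟨a, ?_⟩
  obtain ⟨l, hl⟩ := hpj
  obtain ⟨l', hl'⟩ := dvd_choose_two hp.out hp2 ⟨l, hl⟩
  rw [hja, hl', hl, pow_mul, pow_mul, hexp _ hc, hexp _ (hle hW)]
  simp

lemma class_two_of_odd [Finite G] {p : ℕ} [hp : Fact p.Prime] (hG : IsPGroup p G) (hp2 : p ≠ 2)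
    (hexp : ∀ k ∈ commutator G, k ^ p = 1) {x y : G} (hE : Ext ![x, y]) :
    ⁅commutator G, (⊤ : Subgroup G)⁆ = ⊥ := by
  by_cases hK : commutator G = ⊥
  · rw [hK, Subgroup.commutator_bot_left]
  have hc : ⁅y, x⁆ ∈ commutator G := comm_mem y x
  obtain ⟨m, hm⟩ := gamma3_form_odd h4 hG hp2 hexp hK hE
    (Subgroup.commutator_mem_commutator hc (mem_top y))
  -- the new generator
  have hgen : Gen (y * x ^ (-m)) x := hE.gen.swap.mul_zpow (-m)
  have hE' : Ext ![y * x ^ (-m), x] := hE.change_gen hgen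
  have e1 : ⁅x, y * x ^ (-m)⁆ = ⁅y, x⁆⁻¹ := by
    rw [commutatorElement_mul_right_eq_mul_conj]
    have : ⁅x, x ^ (-m)⁆ = 1 := by
      rw [commutatorElement_eq_one_iff_mul_comm]
      exact ((Commute.refl x).zpow_right _).eq
    rw [this]; simp [commutatorElement_inv]
  have e2 : ⁅⁅y, x⁆, y * x ^ (-m)⁆ = 1 := by
    rw [bil_right h4 hc, bil_zpow_right h4 hc, hm, zpow_neg, mul_inv_cancel]
  rw [eq_bot_iff]
  intro z hz
  obtain ⟨a, ha⟩ := gamma3_form_odd h4 hG hp2 hexp hK hE' hz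
  rw [e1, bil_inv_left h4 hc, e2] at ha
  rw [Subgroup.mem_bot, ha]; simp

end

/-- For odd `p`, the extension property for a pair forces a cyclic commutator subgroup. -/
theorem isCyclic_of_odd [Finite G] {p : ℕ} [hp : Fact p.Prime] (hG : IsPGroup p G) (hp2 : p ≠ 2)
    {x y : G} (hE : Ext ![x, y]) : IsCyclic (commutator G) := by
  have hnil : Group.IsNilpotent G := hG.isNilpotent
  let T : Subgroup G := frK G ⊔ ⁅⁅commutator G, (⊤ : Subgroup G)⁆, (⊤ : Subgroup G)⁆
  have hT : T.Normal := inferInstance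
  have h4 := quotient_h4 (N := T) le_sup_right
  have hexp : ∀ k ∈ commutator (G ⧸ T), k ^ p = 1 := by
    intro k hk
    rw [← map_mk_commutator] at hk
    obtain ⟨k₀, hk₀, rfl⟩ := hk
    rw [← map_pow]
    exact (QuotientGroup.eq_one_iff _).mpr (Subgroup.mem_sup_left (pow_mem_frK hG hk₀))
  have h1 := class_two_of_odd h4 (hG.to_quotient T) hp2 hexp (quotient_pair T hE)
  rw [← map_mk_commutator, ← map_mk_top, ← Subgroup.map_commutator, Subgroup.map_eq_bot_iff,
    QuotientGroup.ker_mk'] at h1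
  have h2 : ⁅commutator G, (⊤ : Subgroup G)⁆ ≤ frK G := by
    apply le_of_le_commutator_sup
    rw [sup_comm]; exact h1
  exact isCyclic_of_eq_zpowers (eq_zpowers_of_le hE.gen h2)

end Pool.Agent.ClassAut
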