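import Pool.Agent.ClassAut.ClassTwo

/-!
# At least three generators: the class is at most two
-/

set_option autoImplicit false

namespace Pool.Agent.ClassAut

open Subgroup
open scoped commutatorElement

variable {G : Type*} [Group G]

/-- In a nilpotent group a subgroup contained in its commutator with the whole group is
trivial. -/
lemma eq_bot_of_le_commutator [hnil : Group.IsNilpotent G] {H : Subgroup G}
    (h : H ≤ ⁅H, (⊤ : Subgroup G)⁆) : H = ⊥ := by
  obtain ⟨n, hn⟩ := Subgroup.nilpotent_iff_lowerCentralSeries.mp hnil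
  have key : ∀ n, H ≤ (⊤ : Subgroup G).lowerCentralSeries n := by
    intro n
    induction n with
    | zero => simp
    | succ n ih =>
      rw [Subgroup.lowerCentralSeries_succ]
      exact h.trans (Subgroup.commutator_mono ih le_rfl)
  rw [eq_bot_iff, ← hn]
  exact key n

lemma map_mk_commutator (N : Subgroup G) [N.Normal] :
    (commutator G).map (QuotientGroup.mk' N) = commutator (G ⧸ N) := by
  rw [map_commutator_eq]
  have : (QuotientGroup.mk' N).range = ⊤ :=
    MonoidHom.range_eq_top.mpr (QuotientGroup.mk'_surjective N)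
  rw [this]; rfl

lemma map_mk_top (N : Subgroup G) [N.Normal] :
    (⊤ : Subgroup G).map (QuotientGroup.mk' N) = ⊤ := by
  rw [← MonoidHom.range_eq_map]
  exact MonoidHom.range_eq_top.mpr (QuotientGroup.mk'_surjective N)

/-- Relative version of `eq_bot_of_le_commutator`. -/
lemma le_of_le_commutator_sup [hnil : Group.IsNilpotent G] {H N : Subgroup G} [N.Normal]
    (h : H ≤ ⁅H, (⊤ : Subgroup G)⁆ ⊔ N) : H ≤ N := by
  have h1 : H.map (QuotientGroup.mk' N) = ⊥ := by
    apply eq_bot_of_le_commutator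
    have h2 := Subgroup.map_mono (f := QuotientGroup.mk' N) h
    rw [Subgroup.map_sup, Subgroup.map_commutator, map_mk_top] at h2
    have h3 : N.map (QuotientGroup.mk' N) = ⊥ := by
      rw [Subgroup.map_eq_bot_iff, QuotientGroup.ker_mk']
    rwa [h3, sup_bot_eq] at h2
  rwa [Subgroup.map_eq_bot_iff, QuotientGroup.ker_mk'] at h1

section classThree

/-- The commutator subgroup is abelian in class three. -/
lemma comm_commutator_eq_bot
    (h4 : ⁅⁅commutator G, (⊤ : Subgroup G)⁆, (⊤ : Subgroup G)⁆ = ⊥) :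
    ⁅commutator G, commutator G⁆ = ⊥ := by
  have h1 : ⁅⁅(⊤ : Subgroup G), commutator G⁆, (⊤ : Subgroup G)⁆ = ⊥ := by
    rw [Subgroup.commutator_comm ⊤ (commutator G)]; exact h4
  exact Subgroup.commutator_commutator_eq_bot_of_rotate h1 h4

variable (h4 : ⁅⁅commutator G, (⊤ : Subgroup G)⁆, (⊤ : Subgroup G)⁆ = ⊥)
include h4

lemma K_comm {k l : G} (hk : k ∈ commutator G) (hl : l ∈ commutator G) : k * l = l * k := by
  have := Subgroup.commutator_mem_commutator hk hl
  rw [comm_commutator_eq_bot h4, Subgroup.mem_bot, commutatorElement_eq_one_iff_mul_comm] at this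
  exact this

lemma central_comm {k g : G} (hk : k ∈ commutator G) (x : G) : ⁅k, g⁆ * x = x * ⁅k, g⁆ := by
  have : ⁅⁅k, g⁆, x⁆ ∈ ⁅⁅commutator G, (⊤ : Subgroup G)⁆, (⊤ : Subgroup G)⁆ :=
    Subgroup.commutator_mem_commutator
      (Subgroup.commutator_mem_commutator hk (Subgroup.mem_top g)) (Subgroup.mem_top x)
  rw [h4, Subgroup.mem_bot, commutatorElement_eq_one_iff_mul_comm] at this
  exact this

lemma bil_left {k l g : G} (_hk : k ∈ commutator G) (hl : l ∈ commutator G) :
    ⁅k * l, g⁆ = ⁅k, g⁆ * ⁅l, g⁆ := by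
  rw [commutatorElement_mul_left_eq_conj_mul, ← central_comm h4 hl k, mul_inv_cancel_right,
    central_comm h4 hl]

lemma bil_right {k g h : G} (hk : k ∈ commutator G) : ⁅k, g * h⁆ = ⁅k, g⁆ * ⁅k, h⁆ := by
  rw [commutatorElement_mul_right_eq_mul_conj, mul_assoc ⁅k, g⁆, ← central_comm h4 hk g,
    mul_assoc, mul_assoc, mul_inv_cancel, mul_one]

lemma bil_inv_left {k g : G} (hk : k ∈ commutator G) : ⁅k⁻¹, g⁆ = ⁅k, g⁆⁻¹ := by
  have := bil_left h4 hk ((commutator G).inv_mem hk) (g := g)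
  rw [mul_inv_cancel, commutatorElement_one_left] at this
  exact (inv_eq_of_mul_eq_one_right this.symm).symm

lemma bil_inv_right {k g : G} (hk : k ∈ commutator G) : ⁅k, g⁻¹⁆ = ⁅k, g⁆⁻¹ := by
  have := bil_right h4 hk (g := g) (h := g⁻¹)
  rw [mul_inv_cancel, commutatorElement_one_right] at this
  exact (inv_eq_of_mul_eq_one_right this.symm).symm

lemma bil_pow_right {k g : G} (hk : k ∈ commutator G) (n : ℕ) : ⁅k, g ^ n⁆ = ⁅k, g⁆ ^ n := by
  induction n with
  | zero => simp
  | succ n ih => rw [pow_succ, bil_right h4 hk, ih, pow_succ]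

lemma bil_zpow_right {k g : G} (hk : k ∈ commutator G) (m : ℤ) : ⁅k, g ^ m⁆ = ⁅k, g⁆ ^ m := by
  cases m with
  | ofNat n => simpa using bil_pow_right h4 hk n
  | negSucc n => rw [zpow_negSucc, zpow_negSucc, bil_inv_right h4 hk, bil_pow_right h4 hk]

lemma bil_pow_left {k g : G} (hk : k ∈ commutator G) (n : ℕ) : ⁅k ^ n, g⁆ = ⁅k, g⁆ ^ n := by
  induction n with
  | zero => simp
  | succ n ih => rw [pow_succ, bil_left h4 ((commutator G).pow_mem hk n) hk, ih, pow_succ]

lemma bil_conj_left {k g x : G} (hk : k ∈ commutator G) : ⁅x * k * x⁻¹, g⁆ = ⁅k, g⁆ := by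
  have h1 : x * k * x⁻¹ = ⁅k, x⁆⁻¹ * k := by
    simp [commutatorElement_def, mul_assoc]
  have h2 : ⁅k, x⁆ ∈ commutator G := comm_mem k x
  rw [h1, bil_left h4 ((commutator G).inv_mem h2) hk, bil_inv_left h4 h2]
  have : ⁅⁅k, x⁆, g⁆ = 1 := by
    rw [commutatorElement_eq_one_iff_mul_comm]; exact central_comm h4 hk g
  rw [this]; simp

/-- For each `g` the derivation attached to the `j`-th generator is governed by an integer. -/
lemma exists_exponent_derivation {n : ℕ} {s : Fin n → G}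
    (hs : Subgroup.closure (Set.range s) = ⊤) (j : Fin n) (x g : G) :
    ∃ m : ℤ, ∀ c ∈ commutator G, ∀ α : G ≃* G, (∀ y, IsConj y (α y)) →
      (∀ l, l ≠ j → α (s l) = s l) → α (s j) = c * s j → ⁅α g * g⁻¹, x⁆ = ⁅c, x⁆ ^ m := by
  have hg : g ∈ Subgroup.closure (Set.range s) := by rw [hs]; trivial
  induction hg using Subgroup.closure_induction with
  | mem y hy =>
    obtain ⟨l, rfl⟩ := hy
    by_cases hl : l = j
    · subst hl
      refine ⟨1, fun c _ α _ _ h2 => ?_⟩
      rw [h2]; simp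
    · refine ⟨0, fun c _ α _ h1 _ => ?_⟩
      rw [h1 l hl]; simp
  | one => exact ⟨0, fun c _ α _ _ _ => by simp⟩
  | mul y z _ _ hy hz =>
    obtain ⟨m1, h1⟩ := hy
    obtain ⟨m2, h2⟩ := hz
    refine ⟨m1 + m2, fun c hc α hα h3 h5 => ?_⟩
    have e : α (y * z) * (y * z)⁻¹ = (α y * y⁻¹) * (y * (α z * z⁻¹) * y⁻¹) := by
      rw [map_mul]; group
    have hy' := mul_inv_mem_of_isConj (hα y)
    have hz' := mul_inv_mem_of_isConj (hα z)
    rw [e, bil_left h4 hy' (Subgroup.Normal.conj_mem inferInstance _ hz' y),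
      bil_conj_left h4 hz', h1 c hc α hα h3 h5, h2 c hc α hα h3 h5, zpow_add]
  | inv y _ hy =>
    obtain ⟨m, h1⟩ := hy
    refine ⟨-m, fun c hc α hα h3 h5 => ?_⟩
    have hy' := mul_inv_mem_of_isConj (hα y)
    have e : α y⁻¹ * y⁻¹⁻¹ = y⁻¹ * (α y * y⁻¹)⁻¹ * y⁻¹⁻¹ := by
      rw [map_inv]; group
    rw [e, bil_conj_left h4 ((commutator G).inv_mem hy'), bil_inv_left h4 hy',
      h1 c hc α hα h3 h5, zpow_neg]

lemma key3 {n : ℕ} {s : Fin n → G} (hE : Ext s) {i j k : Fin n} (hij : i ≠ j) (hjk : j ≠ k) :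
    ∃ m : ℤ, ∀ c ∈ commutator G, ⁅c, s k * s i ^ m⁆ = 1 := by
  classical
  obtain ⟨α₀, hα₀, hα₀'⟩ := hE.2 (fun _ => ⁅s k, s j⁆) (fun _ => comm_mem _ _)
  have h0 := hα₀ (s i)
  rw [hα₀' i, isConj_mul_iff] at h0
  obtain ⟨g, hg⟩ := h0
  obtain ⟨m, hm⟩ := exists_exponent_derivation h4 hE.1 j (s i) g
  refine ⟨m, fun c hc => ?_⟩
  obtain ⟨α, hα, hα'⟩ := hE.2 (fun l => if l = j then c else 1)
    (fun l => by split_ifs; exacts [hc, one_mem _])
  have hαj : α (s j) = c * s j := by rw [hα' j]; simp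
  have hαl : ∀ l, l ≠ j → α (s l) = s l := by intro l hl; rw [hα' l]; simp [hl]
  have hu := mul_inv_mem_of_isConj (hα g)
  have h1 := hm c hc α hα hαl hαj
  set u := α g * g⁻¹ with hu_def
  have hαg : α g = u * g := by rw [hu_def]; group
  have h2 : ⁅α g, s i⁆ = ⁅s k, c * s j⁆ := by
    have := congrArg α hg
    rwa [map_commutatorElement, map_commutatorElement, hαl i hij, hαl k hjk.symm, hαj] at this
  have h3 : ⁅α g, s i⁆ = ⁅s k, s j⁆ * ⁅c, s i⁆ ^ m := by
    rw [hαg, commutatorElement_mul_left_eq_conj_mul, hg, K_comm h4 hu (comm_mem _ _),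
      mul_inv_cancel_right, h1]
  have h5 : ⁅s k, c * s j⁆ = ⁅c, s k⁆⁻¹ * ⁅s k, s j⁆ := by
    rw [commutatorElement_mul_right_eq_mul_conj, mul_assoc ⁅s k, c⁆,
      K_comm h4 hc (comm_mem (s k) (s j)), mul_assoc, mul_assoc, mul_inv_cancel, mul_one,
      commutatorElement_inv]
  rw [h3, h5] at h2
  have h6 : ⁅c, s k⁆⁻¹ = ⁅c, s i⁆ ^ m := by
    have h7 : ⁅s k, s j⁆ * ⁅c, s i⁆ ^ m = ⁅c, s i⁆ ^ m * ⁅s k, s j⁆ := by
      rw [← bil_zpow_right h4 hc, central_comm h4 hc]
    rw [h7] at h2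
    exact (mul_right_cancel h2).symm
  rw [bil_right h4 hc, bil_zpow_right h4 hc, ← h6, mul_inv_cancel]

lemma le_center_of_three [Finite G] {n : ℕ} (hn : 3 ≤ n) {s : Fin n → G} (hE : Ext s) :
    commutator G ≤ center G := by
  classical
  let i0 : Fin n := ⟨0, by omega⟩
  let j0 : Fin n := ⟨1, by omega⟩
  let k0 : Fin n := ⟨2, by omega⟩
  obtain ⟨m, hm⟩ := key3 h4 hE (i := i0) (j := j0) (k := k0) (by simp [i0, j0]) (by simp [j0, k0])
  let s' := Function.update s k0 (s k0 * s i0 ^ m)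
  have hs'k : s' k0 = s k0 * s i0 ^ m := by simp [s']
  have hs'l : ∀ l, l ≠ k0 → s' l = s l := fun l hl => by simp [s', Function.update_of_ne hl]
  have hgen : Subgroup.closure (Set.range s') = ⊤ := by
    rw [eq_top_iff, ← hE.1, Subgroup.closure_le]
    have hmem : ∀ l, s' l ∈ Subgroup.closure (Set.range s') :=
      fun l => Subgroup.subset_closure ⟨l, rfl⟩
    rintro _ ⟨l, rfl⟩
    by_cases hl : l = k0
    · subst hl
      have h1 := hmem k0
      have h2 := hmem i0
      rw [hs'k] at h1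
      rw [hs'l i0 (by simp [i0, k0])] at h2
      have := mul_mem h1 (inv_mem (Subgroup.zpow_mem _ h2 m))
      simpa using this
    · rw [← hs'l l hl]; exact hmem l
  have hE' := hE.change hgen
  have hcent : ∀ l, ∀ c ∈ commutator G, ⁅c, s' l⁆ = 1 := by
    intro l c hc
    by_cases hl : l = k0
    · subst hl; rw [hs'k]; exact hm c hc
    · obtain ⟨j, hj1, hj2⟩ : ∃ j : Fin n, j ≠ k0 ∧ j ≠ l := by
        by_cases h : l = i0
        · exact ⟨j0, by simp [j0, k0], by rw [h]; simp [i0, j0]⟩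
        · exact ⟨i0, by simp [i0, k0], fun h' => h h'.symm⟩
      obtain ⟨m', hm'⟩ := key3 h4 hE' (i := k0) (j := j) (k := l) hj1.symm hj2
      have := hm' c hc
      rw [bil_right h4 hc, bil_zpow_right h4 hc, hs'k, hm c hc] at this
      simpa using this
  intro c hc
  rw [Subgroup.mem_center_iff]
  have hle : (⊤ : Subgroup G) ≤ Subgroup.centralizer {c} := by
    rw [← hgen, Subgroup.closure_le]
    rintro _ ⟨l, rfl⟩
    rw [SetLike.mem_coe, Subgroup.mem_centralizer_singleton_iff]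
    exact (commutatorElement_eq_one_iff_mul_comm.mp (hcent l c hc)).symm
  intro g
  have := hle (Subgroup.mem_top g)
  rw [Subgroup.mem_centralizer_singleton_iff] at this
  exact this

end classThree

lemma quotient_h4 {N : Subgroup G} [N.Normal]
    (h : ⁅⁅commutator G, (⊤ : Subgroup G)⁆, (⊤ : Subgroup G)⁆ ≤ N) :
    ⁅⁅commutator (G ⧸ N), (⊤ : Subgroup (G ⧸ N))⁆, (⊤ : Subgroup (G ⧸ N))⁆ = ⊥ := by
  rw [← map_mk_commutator N, ← map_mk_top N, ← Subgroup.map_commutator,
    ← Subgroup.map_commutator, Subgroup.map_eq_bot_iff, QuotientGroup.ker_mk']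
  exact h

/-- With at least three generators, the extension property forces class at most two. -/
theorem Ext.le_center_of_three [Finite G] [Group.IsNilpotent G] {n : ℕ} (hn : 3 ≤ n)
    {s : Fin n → G} (hE : Ext s) : commutator G ≤ center G := by
  have h1 := ClassAut.le_center_of_three
    (quotient_h4 (N := ⁅⁅commutator G, (⊤ : Subgroup G)⁆, (⊤ : Subgroup G)⁆) le_rfl) hn
    (hE.quotient _)
  rw [← Subgroup.commutator_top_right_eq_bot_iff_le_center, ← map_mk_commutator,
    ← map_mk_top, ← Subgroup.map_commutator, Subgroup.map_eq_bot_iff,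
    QuotientGroup.ker_mk'] at h1
  rw [← Subgroup.commutator_top_right_eq_bot_iff_le_center]
  exact eq_bot_of_le_commutator h1

end Pool.Agent.ClassAut
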