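import Pool.Agent.ClassAut.ClassThreeTwoGen

/-!
# Two generators, `p = 2`, class at most three, elementary abelian commutator subgroup: sufficiency
-/

set_option autoImplicit false

namespace Pool.Agent.ClassAut

open Subgroup
open scoped commutatorElement IsMulCommutative

variable {G : Type*} [Group G]

lemma zpow_eq_one_or_self {z : G} (hz : z ^ 2 = 1) (a : ℤ) : z ^ a = 1 ∨ z ^ a = z := by
  rcases Int.even_or_odd' a with ⟨b, rfl | rfl⟩
  · left; rw [zpow_mul]; norm_cast; rw [hz, one_zpow]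
  · right; rw [zpow_add, zpow_mul]; norm_cast; rw [hz, one_zpow, one_mul]; simp

lemma inv_eq_self_of_sq {z : G} (hz : z ^ 2 = 1) : z⁻¹ = z := by
  rw [inv_eq_iff_mul_eq_one, ← pow_two, hz]

section

variable (h4 : ⁅⁅commutator G, (⊤ : Subgroup G)⁆, (⊤ : Subgroup G)⁆ = ⊥)
  (h2 : ∀ c ∈ commutator G, c ^ 2 = 1)
include h4 h2

lemma full_class_of_two {x y : G} (h : Gen x y) {k : G} (hk : k ∈ commutator G) :
    ∃ g : G, ⁅g, x⁆ = k := by
  obtain ⟨a, b, d, hkf⟩ := K_form h4 h hk
  set c := ⁅y, x⁆ with hc_def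
  have hc : c ∈ commutator G := comm_mem y x
  have hc2 : c ^ 2 = 1 := h2 c hc
  have hX2 : ⁅c, x⁆ ^ 2 = 1 := h2 _ (comm_mem _ _)
  have hY2 : ⁅c, y⁆ ^ 2 = 1 := h2 _ (comm_mem _ _)
  have hW : ⁅y, c⁆ = ⁅c, y⁆ := by
    rw [← commutatorElement_inv, inv_eq_self_of_sq hY2]
  have hXc : ∀ z, ⁅c, x⁆ * z = z * ⁅c, x⁆ := central_comm h4 hc
  have hYc : ∀ z, ⁅c, y⁆ * z = z * ⁅c, y⁆ := central_comm h4 hc
  -- the two relevant families
  have fam : ∀ n : ℕ, (∃ g : G, ⁅g, x⁆ = c ^ n * ⁅c, y⁆ ^ (n.choose 2)) ∧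
      (∃ g : G, ⁅g, x⁆ = c ^ n * ⁅c, y⁆ ^ (n.choose 2) * ⁅c, x⁆) := by
    intro n
    refine ⟨⟨y ^ n, ?_⟩, ⟨c * y ^ n, ?_⟩⟩
    · rw [comm_pow_left h4, ← hc_def, hW]
    · have hmem : ⁅y ^ n, x⁆ ∈ commutator G := comm_mem _ _
      rw [commutatorElement_mul_left_eq_conj_mul, K_comm h4 hc hmem, mul_inv_cancel_right,
        comm_pow_left h4, ← hc_def, hW]
  have f0 := fam 0
  have f1 := fam 1
  have f2 := fam 2
  have f3 := fam 3
  have e3 : c ^ 3 = c := by rw [pow_succ, hc2, one_mul]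
  have eY3 : ⁅c, y⁆ ^ 3 = ⁅c, y⁆ := by rw [pow_succ, hY2, one_mul]
  have hch0 : Nat.choose 0 2 = 0 := rfl
  have hch1 : Nat.choose 1 2 = 0 := rfl
  have hch2 : Nat.choose 2 2 = 1 := rfl
  have hch3 : Nat.choose 3 2 = 3 := rfl
  simp only [hch0, pow_zero, mul_one, one_mul] at f0
  simp only [hch1, pow_zero, pow_one, mul_one] at f1
  simp only [hch2, hc2, pow_one, one_mul] at f2
  simp only [hch3, e3, eY3] at f3
  rw [hkf]
  rcases zpow_eq_one_or_self hc2 a with ha | ha <;>
  rcases zpow_eq_one_or_self hX2 b with hb | hb <;>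
  rcases zpow_eq_one_or_self hY2 d with hd | hd <;>
  rw [ha, hb, hd]
  · simpa using f0.1
  · simpa using f2.1
  · simpa using f0.2
  · have := f2.2
    rw [hYc] at this
    simpa using this
  · simpa using f1.1
  · simpa using f3.1
  · simpa using f1.2
  · have := f3.2
    rw [mul_assoc, hYc] at this
    simpa [mul_assoc] using this

theorem ext_of_two [Finite G] (hG : IsPGroup 2 G) (hr : 2 = Group.rank G) {x y : G}
    (h : Gen x y) : Ext ![x, y] := by
  have hp : Fact (Nat.Prime 2) := ⟨Nat.prime_two⟩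
  have hs := gen_iff.mpr h
  refine ⟨hs, fun uv huv => ?_⟩
  have hcen : ⁅commutator G, (⊤ : Subgroup G)⁆ ≤ center G :=
    Subgroup.commutator_top_right_eq_bot_iff_le_center.mp h4
  set c := ⁅y, x⁆ with hc_def
  have hc : c ∈ commutator G := comm_mem y x
  have hc2 : c ^ 2 = 1 := h2 c hc
  have hxy : ⁅x, y⁆ = c := by
    rw [← commutatorElement_inv, ← hc_def, inv_eq_self_of_sq hc2]
  -- an element of `G'` is `c ^ a` modulo the centre, `a ∈ {0, 1}`
  have modc : ∀ k ∈ commutator G, k ∈ ⁅commutator G, (⊤ : Subgroup G)⁆ ∨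
      c⁻¹ * k ∈ ⁅commutator G, (⊤ : Subgroup G)⁆ := by
    intro k hk
    obtain ⟨a, b, d, hkf⟩ := K_form h4 h hk
    have hz : ⁅c, x⁆ ^ b * ⁅c, y⁆ ^ d ∈ ⁅commutator G, (⊤ : Subgroup G)⁆ :=
      mul_mem (Subgroup.zpow_mem _ (Subgroup.commutator_mem_commutator hc (Subgroup.mem_top _)) _)
        (Subgroup.zpow_mem _ (Subgroup.commutator_mem_commutator hc (Subgroup.mem_top _)) _)
    rw [← hc_def, mul_assoc] at hkf
    rcases zpow_eq_one_or_self hc2 a with ha | ha
    · left; rw [hkf, ha, one_mul]; exact hz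
    · right; rw [hkf, ha, inv_mul_cancel_left]; exact hz
  -- choose the conjugating element
  have conjx : ∀ b : ℕ, ∀ k : G, k ∈ commutator G →
      x ^ b * k * (x ^ b)⁻¹ * k⁻¹ ∈ ⁅commutator G, (⊤ : Subgroup G)⁆ := by
    intro b k hk
    have : x ^ b * k * (x ^ b)⁻¹ * k⁻¹ = ⁅k, x ^ b⁆⁻¹ := by simp [commutatorElement_def, mul_assoc]
    rw [this]
    exact inv_mem (Subgroup.commutator_mem_commutator hk (Subgroup.mem_top _))
  have choose_h : ∀ u ∈ commutator G, ∀ v ∈ commutator G, ∃ g : G,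
      u * ⁅g, x⁆⁻¹ ∈ ⁅commutator G, (⊤ : Subgroup G)⁆ ∧
      v * ⁅g, y⁆⁻¹ ∈ ⁅commutator G, (⊤ : Subgroup G)⁆ := by
    intro u hu v hv
    have comm3 : ∀ k ∈ commutator G, c⁻¹ * k ∈ ⁅commutator G, (⊤ : Subgroup G)⁆ →
        k * c⁻¹ ∈ ⁅commutator G, (⊤ : Subgroup G)⁆ := by
      intro k hk hk2
      have := K_comm h4 hk ((commutator G).inv_mem hc)
      rw [this]; exact hk2
    rcases modc u hu with hu' | hu' <;> rcases modc v hv with hv' | hv'
    · refine ⟨1, ?_, ?_⟩
      · simpa using hu'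
      · simpa using hv'
    · refine ⟨x, ?_, ?_⟩
      · simpa using hu'
      · rw [hxy]; exact comm3 v hv hv'
    · refine ⟨y, ?_, ?_⟩
      · rw [← hc_def]; exact comm3 u hu hu'
      · simpa using hv'
    · refine ⟨x * y, ?_, ?_⟩
      · have e1 : ⁅x * y, x⁆ = ⁅c, x⁆⁻¹ * c := by
          rw [commutatorElement_mul_left_eq_conj_mul, commutatorElement_self, mul_one, ← hc_def]
          simp [commutatorElement_def, mul_assoc]
        rw [e1, mul_inv_rev, inv_inv, ← mul_assoc]
        exact mul_mem (comm3 u hu hu')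
          (Subgroup.commutator_mem_commutator hc (Subgroup.mem_top _))
      · have e1 : ⁅x * y, y⁆ = c := by
          rw [commutatorElement_mul_left_eq_conj_mul, commutatorElement_self, mul_one, hxy]
          simp
        rw [e1]; exact comm3 v hv hv'
  have hu := huv 0
  have hv := huv 1
  obtain ⟨g, hg1, hg2⟩ := choose_h (uv 0) hu (uv 1) hv
  have hz1K : uv 0 * ⁅g, x⁆⁻¹ ∈ commutator G := mul_mem hu (inv_mem (comm_mem _ _))
  have hz2K : uv 1 * ⁅g, y⁆⁻¹ ∈ commutator G := mul_mem hv (inv_mem (comm_mem _ _))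
  let t : Fin 2 → center G := ![⟨_, hcen hg1⟩, ⟨_, hcen hg2⟩]
  have ht2 : ∀ i, t i ^ 2 = 1 := by
    intro i
    fin_cases i
    · apply Subtype.ext; exact h2 _ hz1K
    · apply Subtype.ext; exact h2 _ hz2K
  have htK : ∀ i, (t i : G) ∈ commutator G := by
    intro i
    fin_cases i
    · exact hz1K
    · exact hz2K
  obtain ⟨f, hf1, hf2⟩ := exists_hom_of_relations hs (frattini G) t (by
    intro e w he hw
    apply Finset.prod_eq_one
    intro i _
    obtain ⟨k, hk⟩ := dvd_exponent_of_mem_frattini hG hr hs hw he i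
    rw [hk, zpow_mul]
    have : t i ^ ((2 : ℕ) : ℤ) = 1 := by rw [zpow_natCast]; exact ht2 i
    rw [this, one_zpow])
  have hfK : ∀ z, (f z : G) ∈ commutator G := by
    intro z
    have hz : z ∈ Subgroup.closure (Set.range ![x, y]) := by rw [hs]; trivial
    induction hz using Subgroup.closure_induction with
    | mem z hz => obtain ⟨i, rfl⟩ := hz; rw [hf1]; exact htK i
    | one => simp
    | mul z w _ _ hz hw => rw [map_mul]; exact (commutator G).mul_mem hz hw
    | inv z _ hz => rw [map_inv]; exact (commutator G).inv_mem hz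
  let F : G →* G :=
    { toFun := fun z => (f z : G) * (g * z * g⁻¹)
      map_one' := by simp
      map_mul' := fun z w => by
        have := Subgroup.mem_center_iff.mp (f w).2 (g * z * g⁻¹)
        simp only [map_mul, Subgroup.coe_mul]
        calc (f z : G) * f w * (g * (z * w) * g⁻¹)
            = (f z : G) * (f w * (g * z * g⁻¹)) * (g * w * g⁻¹) := by group
          _ = (f z : G) * ((g * z * g⁻¹) * f w) * (g * w * g⁻¹) := by rw [← this]
          _ = (f z : G) * (g * z * g⁻¹) * ((f w : G) * (g * w * g⁻¹)) := by group }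
  have hF : ∀ z, IsConj z (F z) := by
    intro z
    by_cases hzf : z ∈ frattini G
    · have : F z = g * z * g⁻¹ := by
        show (f z : G) * (g * z * g⁻¹) = _
        rw [hf2 z hzf]; simp
      rw [this, isConj_iff]; exact ⟨g, rfl⟩
    · have e1 : F z = ((f z : G) * ⁅g, z⁆) * z := by
        show (f z : G) * (g * z * g⁻¹) = _
        simp [commutatorElement_def, mul_assoc]
      have hmem : (f z : G) * ⁅g, z⁆ ∈ commutator G := mul_mem (hfK z) (comm_mem _ _)
      rw [e1, isConj_mul_iff]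
      obtain ⟨i, hi⟩ := exists_exchange hG hs hzf
      fin_cases i
      · have hgen : Gen z y := by
          rw [← gen_iff]
          have : Function.update ![x, y] (0 : Fin 2) z = ![z, y] := by
            ext j; fin_cases j <;> simp
          rw [← this]; exact hi
        exact full_class_of_two h4 h2 hgen hmem
      · have hgen : Gen x z := by
          rw [← gen_iff]
          have : Function.update ![x, y] (1 : Fin 2) z = ![x, z] := by
            ext j; fin_cases j <;> simp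
          rw [← this]; exact hi
        exact full_class_of_two h4 h2 hgen.swap hmem
  obtain ⟨α, hα⟩ := exists_mulEquiv_of_isConj F hF
  refine ⟨α, fun z => by rw [hα]; exact hF z, fun i => ?_⟩
  rw [hα]
  show (f (![x, y] i) : G) * (g * ![x, y] i * g⁻¹) = uv i * ![x, y] i
  rw [hf1]
  fin_cases i
  · show uv 0 * ⁅g, x⁆⁻¹ * (g * x * g⁻¹) = uv 0 * x
    simp [commutatorElement_def, mul_assoc]
  · show uv 1 * ⁅g, y⁆⁻¹ * (g * y * g⁻¹) = uv 1 * y
    simp [commutatorElement_def, mul_assoc]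

end

end Pool.Agent.ClassAut
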