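import Pool.Agent.ClassAut.ThreeGen

/-!
# Two-generator groups: basic facts
-/

set_option autoImplicit false

namespace Pool.Agent.ClassAut

open Subgroup
open scoped commutatorElement

variable {G : Type*} [Group G]

/-- `x` and `y` generate `G`. -/
def Gen (x y : G) : Prop := Subgroup.closure ({x, y} : Set G) = ⊤

omit [Group G] in
lemma range_pair (x y : G) : Set.range ![x, y] = {x, y} := by
  ext z
  simp only [Set.mem_range, Fin.exists_fin_two, Matrix.cons_val_zero, Matrix.cons_val_one,
    Set.mem_insert_iff, Set.mem_singleton_iff]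
  rw [eq_comm, @eq_comm _ y z]

lemma gen_iff {x y : G} : Subgroup.closure (Set.range ![x, y]) = ⊤ ↔ Gen x y := by
  rw [range_pair, Gen]

lemma Gen.swap {x y : G} (h : Gen x y) : Gen y x := by
  rw [Gen, Set.pair_comm]; exact h

lemma gen_of_mem {x y x' y' : G} (h : Gen x y)
    (hx : x ∈ Subgroup.closure ({x', y'} : Set G))
    (hy : y ∈ Subgroup.closure ({x', y'} : Set G)) : Gen x' y' := by
  rw [Gen, eq_top_iff, ← h, Subgroup.closure_le]
  rintro z (rfl | hz)
  · exact hx
  · rw [Set.mem_singleton_iff] at hz; subst hz; exact hy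

lemma mem_closure_pair_left (x y : G) : x ∈ Subgroup.closure ({x, y} : Set G) :=
  Subgroup.subset_closure (by simp)

lemma mem_closure_pair_right (x y : G) : y ∈ Subgroup.closure ({x, y} : Set G) :=
  Subgroup.subset_closure (by simp)

lemma Gen.mul_zpow {x y : G} (h : Gen x y) (m : ℤ) : Gen (x * y ^ m) y := by
  apply gen_of_mem h _ (mem_closure_pair_right _ _)
  have h1 := mem_closure_pair_left (x * y ^ m) y
  have h2 := Subgroup.zpow_mem _ (mem_closure_pair_right (x * y ^ m) y) m
  have := mul_mem h1 (inv_mem h2)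
  simpa using this

lemma Gen.induction {x y : G} (h : Gen x y) {H : Subgroup G} (hx : x ∈ H) (hy : y ∈ H) (g : G) :
    g ∈ H := by
  have : (⊤ : Subgroup G) ≤ H := by
    rw [← h, Subgroup.closure_le]
    rintro z (rfl | hz)
    · exact hx
    · rw [Set.mem_singleton_iff] at hz; subst hz; exact hy
  exact this (Subgroup.mem_top g)

/-- A normal subgroup containing `⁅x, y⁆` contains the commutator subgroup. -/
lemma Gen.commutator_le {x y : G} (h : Gen x y) {N : Subgroup G} (hN : N.Normal)
    (hc : ⁅x, y⁆ ∈ N) : commutator G ≤ N := by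
  have hc' : ⁅y, x⁆ ∈ N := by rw [← commutatorElement_inv]; exact N.inv_mem hc
  -- elements commuting with everything modulo `N`
  let Z : Subgroup G := (Subgroup.center (G ⧸ N)).comap (QuotientGroup.mk' N)
  have memZ : ∀ g, (⁅g, x⁆ ∈ N) → (⁅g, y⁆ ∈ N) → g ∈ Z := by
    intro g h1 h2
    rw [Subgroup.mem_comap, Subgroup.mem_center_iff]
    intro z
    obtain ⟨z, rfl⟩ := QuotientGroup.mk'_surjective N z
    let C : Subgroup G := (Subgroup.centralizer {QuotientGroup.mk' N g}).comap
      (QuotientGroup.mk' N)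
    have hx : x ∈ C := by
      rw [Subgroup.mem_comap, Subgroup.mem_centralizer_singleton_iff]
      have : QuotientGroup.mk' N ⁅g, x⁆ = 1 := (QuotientGroup.eq_one_iff _).mpr h1
      rw [map_commutatorElement, commutatorElement_eq_one_iff_mul_comm] at this
      exact this.symm
    have hy : y ∈ C := by
      rw [Subgroup.mem_comap, Subgroup.mem_centralizer_singleton_iff]
      have : QuotientGroup.mk' N ⁅g, y⁆ = 1 := (QuotientGroup.eq_one_iff _).mpr h2
      rw [map_commutatorElement, commutatorElement_eq_one_iff_mul_comm] at this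
      exact this.symm
    have := h.induction hx hy z
    rw [Subgroup.mem_comap, Subgroup.mem_centralizer_singleton_iff] at this
    exact this
  have hZ : ∀ g, g ∈ Z := h.induction (memZ x (by simp) hc) (memZ y hc' (by simp))
  rw [commutator_def, Subgroup.commutator_le]
  intro a _ b _
  have h1 := hZ a
  rw [Subgroup.mem_comap, Subgroup.mem_center_iff] at h1
  have h2 := h1 (QuotientGroup.mk' N b)
  have h3 : QuotientGroup.mk' N ⁅a, b⁆ = 1 := by
    rw [map_commutatorElement, commutatorElement_eq_one_iff_mul_comm]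
    exact h2.symm
  exact (QuotientGroup.eq_one_iff _).mp h3

/-- Normal form modulo the commutator subgroup. -/
lemma Gen.exists_form {x y : G} (h : Gen x y) (g : G) :
    ∃ k ∈ commutator G, ∃ i j : ℤ, g = k * y ^ j * x ^ i := by
  obtain ⟨e, he⟩ := exists_exponents (gen_iff.mpr h) g
  simp only [Fin.prod_univ_two, Matrix.cons_val_zero, Matrix.cons_val_one] at he
  have h1 : Abelianization.of (g * (y ^ e 1 * x ^ e 0)⁻¹) = 1 := by
    rw [map_mul, map_inv, map_mul, map_zpow, map_zpow, he, mul_comm (Abelianization.of y ^ e 1)]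
    exact mul_inv_cancel _
  have h2 : g * (y ^ e 1 * x ^ e 0)⁻¹ ∈ commutator G := (QuotientGroup.eq_one_iff _).mp h1
  exact ⟨_, h2, e 0, e 1, by group⟩

lemma Ext.gen {x y : G} (h : Ext ![x, y]) : Gen x y := gen_iff.mp h.1

lemma Ext.change_gen [Finite G] {x y x' y' : G} (h : Ext ![x, y]) (h' : Gen x' y') :
    Ext ![x', y'] := h.change (gen_iff.mpr h')

/-- full classes for the first generator -/
lemma Ext.exists_comm {x y : G} (h : Ext ![x, y]) {c : G} (hc : c ∈ commutator G) :
    ∃ g : G, ⁅g, x⁆ = c := by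
  obtain ⟨α, hα, hα'⟩ := h.2 (fun _ => c) (fun _ => hc)
  have h1 := hα' 0
  simp only [Matrix.cons_val_zero] at h1
  exact isConj_mul_iff.mp (h1 ▸ hα x)

lemma Ext.exists_aut {x y : G} (h : Ext ![x, y]) {u v : G} (hu : u ∈ commutator G)
    (hv : v ∈ commutator G) :
    ∃ α : G ≃* G, (∀ z, IsConj z (α z)) ∧ α x = u * x ∧ α y = v * y := by
  obtain ⟨α, hα, hα'⟩ := h.2 ![u, v] (by
    intro i; fin_cases i
    · exact hu
    · exact hv)
  refine ⟨α, hα, ?_, ?_⟩
  · simpa using hα' 0
  · simpa using hα' 1

end Pool.Agent.ClassAut
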