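import Pool.Agent.ClassAut.TwoNecC
import Pool.Agent.ClassAut.TwoCase

/-!
# Two generators, `p = 2`: necessity
-/

set_option autoImplicit false

namespace Pool.Agent.ClassAut

open Subgroup
open scoped commutatorElement

universe u

section

variable {G : Type*} [Group G]

lemma setup_of [Finite G] {x y : G} (h : Gen x y) {t : G} (htne : t ≠ 1)
    (ht2 : t * t = 1) (htc : ∀ g : G, t * g = g * t)
    (hle : ∀ z ∈ ⁅⁅commutator G, (⊤ : Subgroup G)⁆, (⊤ : Subgroup G)⁆, z = 1 ∨ z = t)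
    (hne : ⁅⁅commutator G, (⊤ : Subgroup G)⁆, (⊤ : Subgroup G)⁆ ≠ ⊥)
    (hc2 : ⁅y, x⁆ ^ 2 ∈ ⁅⁅commutator G, (⊤ : Subgroup G)⁆, (⊤ : Subgroup G)⁆) : Setup G t := by
  have hcK : ⁅y, x⁆ ∈ commutator G := comm_mem y x
  have tmem : t ∈ ⁅⁅commutator G, (⊤ : Subgroup G)⁆, (⊤ : Subgroup G)⁆ := by
    by_contra hcon
    apply hne
    rw [eq_bot_iff]
    intro z hz
    rcases hle z hz with h1 | h1
    · rw [h1]; exact one_mem _
    · rw [h1] at hz; exact absurd hz hcon
  have h4 : ∀ z ∈ ⁅commutator G, (⊤ : Subgroup G)⁆, ∀ g : G, ⁅g, z⁆ = 1 ∨ ⁅g, z⁆ = t := by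
    intro z hz g
    apply hle
    rw [← commutatorElement_inv]
    exact inv_mem (Subgroup.commutator_mem_commutator hz (mem_top g))
  -- `γ₅ = 1`
  have h5 : ⁅⁅⁅commutator G, (⊤ : Subgroup G)⁆, (⊤ : Subgroup G)⁆, (⊤ : Subgroup G)⁆ = ⊥ := by
    rw [eq_bot_iff, Subgroup.commutator_le]
    intro z hz g _
    rw [Subgroup.mem_bot, commutatorElement_eq_one_iff_mul_comm]
    rcases hle z hz with h1 | h1
    · rw [h1]; simp
    · rw [h1]; exact htc g
  have hKH : ⁅commutator G, ⁅commutator G, (⊤ : Subgroup G)⁆⁆ = ⊥ := by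
    have h1 : ⁅⁅(⊤ : Subgroup G), ⁅commutator G, (⊤ : Subgroup G)⁆⁆, (⊤ : Subgroup G)⁆ = ⊥ := by
      rw [Subgroup.commutator_comm ⊤ ⁅commutator G, (⊤ : Subgroup G)⁆]; exact h5
    exact Subgroup.commutator_commutator_eq_bot_of_rotate h1 h5
  have hKH' : ∀ k ∈ commutator G, ∀ z ∈ ⁅commutator G, (⊤ : Subgroup G)⁆, k * z = z * k := by
    intro k hk z hz
    have := Subgroup.commutator_mem_commutator hk hz
    rw [hKH, Subgroup.mem_bot, commutatorElement_eq_one_iff_mul_comm] at this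
    exact this
  have hKc : ∀ k ∈ commutator G, k * ⁅y, x⁆ = ⁅y, x⁆ * k := by
    intro k hk
    obtain ⟨a, z, hz, rfl⟩ := exists_zpow_mod h hk
    have h1 : Commute ⁅y, x⁆ z := hKH' _ hcK z hz
    exact (((Commute.refl ⁅y, x⁆).zpow_left a).mul_left h1.symm).eq
  have hK : ∀ k ∈ commutator G, ∀ l ∈ commutator G, k * l = l * k := by
    intro k hk l hl
    obtain ⟨a, z, hz, rfl⟩ := exists_zpow_mod h hl
    have h1 : Commute k ⁅y, x⁆ := hKc k hk
    have h2 : Commute k z := hKH' k hk z hz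
    exact ((h1.zpow_right a).mul_right h2).eq
  have hcc : ⁅y, x⁆ * ⁅y, x⁆ = 1 ∨ ⁅y, x⁆ * ⁅y, x⁆ = t := by
    rw [← pow_two]; exact hle _ hc2
  have hH : ∀ z ∈ ⁅commutator G, (⊤ : Subgroup G)⁆, z * z = 1 := by
    -- generators
    have gens : ∀ g : G, ∀ k ∈ commutator G, ⁅k, g⁆ * ⁅k, g⁆ = 1 := by
      intro g
      let M : Subgroup G :=
        { carrier := {k | k ∈ commutator G ∧ ⁅k, g⁆ * ⁅k, g⁆ = 1}
          one_mem' := ⟨one_mem _, by simp⟩
          mul_mem' := by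
            rintro a b ⟨ha, ha2⟩ ⟨hb, hb2⟩
            refine ⟨mul_mem ha hb, ?_⟩
            rw [commutatorElement_mul_left_eq_conj_mul, hK a ha _ (comm_mem b g),
              mul_inv_cancel_right]
            have : Commute ⁅b, g⁆ ⁅a, g⁆ := hK _ (comm_mem b g) _ (comm_mem a g)
            calc ⁅b, g⁆ * ⁅a, g⁆ * (⁅b, g⁆ * ⁅a, g⁆)
                = ⁅b, g⁆ * (⁅a, g⁆ * ⁅b, g⁆) * ⁅a, g⁆ := by group
              _ = ⁅b, g⁆ * (⁅b, g⁆ * ⁅a, g⁆) * ⁅a, g⁆ := by rw [this.eq]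
              _ = (⁅b, g⁆ * ⁅b, g⁆) * (⁅a, g⁆ * ⁅a, g⁆) := by group
              _ = 1 := by rw [ha2, hb2, one_mul]
          inv_mem' := by
            rintro a ⟨ha, ha2⟩
            refine ⟨inv_mem ha, ?_⟩
            have e1 : ⁅a⁻¹, g⁆ = a⁻¹ * ⁅a, g⁆⁻¹ * a := by
              simp [commutatorElement_def, mul_assoc]
            have e2 : a⁻¹ * ⁅a, g⁆⁻¹ * a = ⁅a, g⁆⁻¹ := by
              rw [hK a⁻¹ (inv_mem ha) _ (inv_mem (comm_mem a g)), mul_assoc, inv_mul_cancel,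
                mul_one]
            rw [e1, e2, ← mul_inv_rev, ha2, inv_one] }
      have hcM : ⁅y, x⁆ ∈ M := by
        refine ⟨hcK, ?_⟩
        have e3 : ⁅⁅y, x⁆ * ⁅y, x⁆, g⁆ = ⁅⁅y, x⁆, g⁆ * ⁅⁅y, x⁆, g⁆ := by
          rw [commutatorElement_mul_left_eq_conj_mul, hK _ hcK _ (comm_mem _ g),
            mul_inv_cancel_right]
        rw [← e3, commutatorElement_eq_one_iff_mul_comm]
        rcases hcc with h1 | h1
        · rw [h1]; simp
        · rw [h1]; exact htc g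
      have hHM : ∀ z ∈ ⁅commutator G, (⊤ : Subgroup G)⁆, z ∈ M := by
        intro z hz
        refine ⟨Subgroup.commutator_le_left _ _ hz, ?_⟩
        have h1 := hle _ (Subgroup.commutator_mem_commutator hz (mem_top g))
        rcases h1 with h1 | h1
        · rw [h1, one_mul]
        · rw [h1, ht2]
      intro k hk
      obtain ⟨a, z, hz, rfl⟩ := exists_zpow_mod h hk
      exact (mul_mem (Subgroup.zpow_mem _ hcM a) (hHM z hz)).2
    let E : Subgroup G :=
      { carrier := {z | z ∈ commutator G ∧ z * z = 1}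
        one_mem' := ⟨one_mem _, by simp⟩
        mul_mem' := by
          rintro a b ⟨ha, ha2⟩ ⟨hb, hb2⟩
          refine ⟨mul_mem ha hb, ?_⟩
          calc a * b * (a * b) = a * (b * a) * b := by group
            _ = a * (a * b) * b := by rw [hK b hb a ha]
            _ = (a * a) * (b * b) := by group
            _ = 1 := by rw [ha2, hb2, one_mul]
        inv_mem' := by
          rintro a ⟨ha, ha2⟩
          refine ⟨inv_mem ha, ?_⟩
          rw [← mul_inv_rev, ha2, inv_one] }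
    have hHE : ⁅commutator G, (⊤ : Subgroup G)⁆ ≤ E := by
      rw [Subgroup.commutator_le]
      intro k hk g _
      exact ⟨comm_mem k g, gens g k hk⟩
    intro z hz
    exact (hHE hz).2
  refine ⟨htne, ht2, htc, h4, hK, hH, ?_, tmem⟩
  intro k hk
  obtain ⟨a, z, hz, rfl⟩ := exists_zpow_mod h hk
  have h1 : Commute (⁅y, x⁆ ^ a) z := (show Commute ⁅y, x⁆ z from hKH' _ hcK z hz).zpow_left a
  have h2 : ⁅y, x⁆ ^ a * z * (⁅y, x⁆ ^ a * z) = (⁅y, x⁆ * ⁅y, x⁆) ^ a := by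
    calc ⁅y, x⁆ ^ a * z * (⁅y, x⁆ ^ a * z) = ⁅y, x⁆ ^ a * (z * ⁅y, x⁆ ^ a) * z := by group
      _ = ⁅y, x⁆ ^ a * (⁅y, x⁆ ^ a * z) * z := by rw [h1.eq]
      _ = ⁅y, x⁆ ^ a * ⁅y, x⁆ ^ a * (z * z) := by group
      _ = (⁅y, x⁆ * ⁅y, x⁆) ^ a := by
        rw [hH z hz, mul_one, (Commute.refl ⁅y, x⁆).mul_zpow]
  rw [h2]
  rcases hcc with h3 | h3
  · left; rw [h3, one_zpow]
  · rw [h3]
    exact zpow_eq_one_or_self (by rw [pow_two]; exact ht2) a

end

theorem gamma4_eq_bot_aux (n : ℕ) : ∀ (G : Type u) [Group G] [Finite G] (_ : IsPGroup 2 G)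
    (x y : G), Ext ![x, y] → ⁅y, x⁆ ^ 2 ∈ ⁅commutator G, (⊤ : Subgroup G)⁆ → Nat.card G = n →
      ⁅⁅commutator G, (⊤ : Subgroup G)⁆, (⊤ : Subgroup G)⁆ = ⊥ := by
  induction n using Nat.strong_induction_on with
  | _ n ih =>
    intro G _ _ hG x y hE hc2 hn
    by_contra hne
    have hp : Fact (Nat.Prime 2) := ⟨Nat.prime_two⟩
    have hnt : Nontrivial G := by
      by_contra hcon
      rw [not_nontrivial_iff_subsingleton] at hcon
      exact hne (Subsingleton.elim _ _)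
    have hcnt : Nontrivial (center G) := hG.center_nontrivial
    -- a central element of order two
    obtain ⟨t, ht⟩ : ∃ t : center G, orderOf t = 2 := by
      apply exists_prime_orderOf_dvd_card' 2
      obtain ⟨k, hk⟩ := (hG.to_subgroup (center G)).exists_card_eq
      have h1 : 1 < Nat.card (center G) := Finite.one_lt_card
      rw [hk]
      rcases k with _ | k
      · rw [hk, pow_zero] at h1; omega
      · exact Dvd.intro_left (2 ^ k) (pow_succ 2 k).symm
    have htne : (t : G) ≠ 1 := by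
      intro h
      have : t = 1 := Subtype.ext h
      rw [this, orderOf_one] at ht
      omega
    have ht2 : (t : G) * t = 1 := by
      have : t ^ 2 = 1 := by rw [← ht]; exact pow_orderOf_eq_one t
      have h1 := congrArg Subtype.val this
      rwa [pow_two] at h1
    have htc : ∀ g : G, (t : G) * g = g * t := fun g => (Subgroup.mem_center_iff.mp t.2 g).symm
    let Z : Subgroup G := Subgroup.zpowers (t : G)
    have hZc : Z ≤ center G := Subgroup.zpowers_le.mpr t.2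
    have hZn : Z.Normal := by
      refine ⟨fun z hz g => ?_⟩
      have := Subgroup.mem_center_iff.mp (hZc hz) g
      rw [this, mul_inv_cancel_right]; exact hz
    have hcard : Nat.card (G ⧸ Z) < n := by
      have h1 := Subgroup.card_eq_card_quotient_mul_card_subgroup Z
      have h2 : Nat.card Z = 2 := by
        rw [Nat.card_zpowers, Subgroup.orderOf_coe]; exact ht
      have h3 : 0 < Nat.card (G ⧸ Z) := Nat.card_pos
      rw [h2, hn] at h1
      omega
    have hq := ih _ hcard (G ⧸ Z) (hG.to_quotient Z) _ _ (quotient_pair Z hE) (by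
      rw [← map_mk_commutator, ← map_mk_top, ← Subgroup.map_commutator]
      exact ⟨_, hc2, rfl⟩) rfl
    rw [← map_mk_commutator, ← map_mk_top, ← Subgroup.map_commutator, ← Subgroup.map_commutator,
      Subgroup.map_eq_bot_iff, QuotientGroup.ker_mk'] at hq
    have hle : ∀ z ∈ ⁅⁅commutator G, (⊤ : Subgroup G)⁆, (⊤ : Subgroup G)⁆,
        z = 1 ∨ z = (t : G) := by
      intro z hz
      obtain ⟨a, rfl⟩ := Subgroup.mem_zpowers_iff.mp (hq hz)
      exact zpow_eq_one_or_self (by rw [pow_two]; exact ht2) a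
    have S := setup_of hE.gen htne ht2 htc hle hne (sq_mem_gamma4 hG hE hc2)
    exact S.false_of_ext hG hE

theorem gamma4_eq_bot {G : Type u} [Group G] [Finite G] (hG : IsPGroup 2 G) {x y : G}
    (hE : Ext ![x, y]) (hc2 : ⁅y, x⁆ ^ 2 ∈ ⁅commutator G, (⊤ : Subgroup G)⁆) :
    ⁅⁅commutator G, (⊤ : Subgroup G)⁆, (⊤ : Subgroup G)⁆ = ⊥ :=
  gamma4_eq_bot_aux _ G hG x y hE hc2 rfl

/-- The extension property for a pair in a finite 2-group. -/
theorem two_nec {G : Type u} [Group G] [Finite G] (hG : IsPGroup 2 G) {x y : G}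
    (hE : Ext ![x, y]) :
    (IsCyclic (commutator G) ∧
      ∀ z ∈ ⁅commutator G, (⊤ : Subgroup G)⁆, ∃ b ∈ commutator G, z = b ^ 4) ∨
    (⁅⁅commutator G, (⊤ : Subgroup G)⁆, (⊤ : Subgroup G)⁆ = ⊥ ∧
      ∀ k ∈ commutator G, k ^ 2 = 1) := by
  by_cases hc2 : ⁅y, x⁆ ^ 2 ∈ ⁅commutator G, (⊤ : Subgroup G)⁆
  swap
  · left; exact cyclic_of_not_mem hG hE hc2
  right
  have h4 := gamma4_eq_bot hG hE hc2
  refine ⟨h4, ?_⟩
  have hcc := sq_mem_gamma4 hG hE hc2
  rw [h4, Subgroup.mem_bot] at hcc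
  have hexp := gamma3_exp_two h4 hE.gen hc2
  intro k hk
  obtain ⟨a, z, hz, rfl⟩ := exists_zpow_mod hE.gen hk
  have hcK : ⁅y, x⁆ ∈ commutator G := comm_mem y x
  have h1 : Commute (⁅y, x⁆ ^ a) z :=
    K_comm h4 (Subgroup.zpow_mem _ hcK a) (Subgroup.commutator_le_left _ _ hz)
  rw [h1.mul_pow, hexp z hz, mul_one, ← zpow_natCast, ← zpow_mul, mul_comm, zpow_mul,
    zpow_natCast, hcc, one_zpow]

end Pool.Agent.ClassAut
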