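import Pool.Agent.ClassAut.OddNec

/-!
# Two generators, `p = 2`: the case `c ^ 2 ∉ γ₃`
-/

set_option autoImplicit false

namespace Pool.Agent.ClassAut

open Subgroup
open scoped commutatorElement

variable {G : Type*} [Group G]

section

variable (h4 : ⁅⁅commutator G, (⊤ : Subgroup G)⁆, (⊤ : Subgroup G)⁆ = ⊥)
include h4

lemma gamma3_form_two [Finite G] (hG : IsPGroup 2 G)
    (hexp4 : ∀ k ∈ commutator G, k ^ 4 = 1)
    (hexp2 : ∀ z ∈ ⁅commutator G, (⊤ : Subgroup G)⁆, z ^ 2 = 1)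
    {x y : G} (hc2 : ⁅y, x⁆ ^ 2 ∉ ⁅commutator G, (⊤ : Subgroup G)⁆)
    (hE : Ext ![x, y]) {z : G} (hz : z ∈ ⁅commutator G, (⊤ : Subgroup G)⁆) :
    ∃ a : ℤ, z = ⁅⁅y, x⁆, x⁆ ^ a := by
  have hle : ⁅commutator G, (⊤ : Subgroup G)⁆ ≤ commutator G := Subgroup.commutator_le_left _ _
  obtain ⟨g, hg⟩ := hE.exists_comm (hle hz)
  obtain ⟨j, a, hja⟩ := comm_with_gen_form h4 hE.gen g
  have hc : ⁅y, x⁆ ∈ commutator G := comm_mem y x
  have hW : ⁅y, ⁅y, x⁆⁆ ∈ ⁅commutator G, (⊤ : Subgroup G)⁆ := by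
    rw [← commutatorElement_inv]
    exact inv_mem (Subgroup.commutator_mem_commutator hc (mem_top y))
  have hV : ⁅⁅y, x⁆, x⁆ ∈ ⁅commutator G, (⊤ : Subgroup G)⁆ :=
    Subgroup.commutator_mem_commutator hc (mem_top x)
  rw [hg] at hja
  have hcj : ⁅y, x⁆ ^ j ∈ ⁅commutator G, (⊤ : Subgroup G)⁆ := by
    have e : ⁅y, x⁆ ^ j
        = z * (⁅⁅y, x⁆, x⁆ ^ a)⁻¹ * (⁅y, ⁅y, x⁆⁆ ^ (j.choose 2))⁻¹ := by
      rw [hja]; group
    rw [e]
    exact mul_mem (mul_mem hz (inv_mem (Subgroup.zpow_mem _ hV a)))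
      (inv_mem (Subgroup.pow_mem _ hW _))
  have h2 : Fact (Nat.Prime 2) := ⟨Nat.prime_two⟩
  have h2j : 2 ∣ j := by
    by_contra hcon
    apply hc2
    have hcon' : ¬ ((2 : ℕ) : ℤ) ∣ (j : ℤ) := by
      intro hd; exact hcon (by exact_mod_cast hd)
    exact Subgroup.pow_mem _ (mem_of_zpow_mem hG hcon' (by rw [zpow_natCast]; exact hcj)) 2
  obtain ⟨l, hl⟩ := h2j
  have h2l : 2 ∣ l := by
    by_contra hcon
    apply hc2
    have hcon' : ¬ ((2 : ℕ) : ℤ) ∣ (l : ℤ) := by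
      intro hd; exact hcon (by exact_mod_cast hd)
    exact mem_of_zpow_mem hG hcon' (by rw [zpow_natCast, ← pow_mul, ← hl]; exact hcj)
  obtain ⟨m, hm⟩ := h2l
  refine ⟨a, ?_⟩
  have hj4 : j = 4 * m := by omega
  have hch : j.choose 2 = 2 * (m * (4 * m - 1)) := by
    rw [Nat.choose_two_right, hj4]
    have : 4 * m * (4 * m - 1) = 2 * (2 * (m * (4 * m - 1))) := by ring
    rw [this]; simp
  rw [hja, hch, hj4, pow_mul, pow_mul, hexp4 _ hc, hexp2 _ hW]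
  simp

lemma class_two_of_two [Finite G] (hG : IsPGroup 2 G)
    (hexp4 : ∀ k ∈ commutator G, k ^ 4 = 1)
    (hexp2 : ∀ z ∈ ⁅commutator G, (⊤ : Subgroup G)⁆, z ^ 2 = 1)
    {x y : G} (hc2 : ⁅y, x⁆ ^ 2 ∉ ⁅commutator G, (⊤ : Subgroup G)⁆)
    (hE : Ext ![x, y]) : ⁅commutator G, (⊤ : Subgroup G)⁆ = ⊥ := by
  have hc : ⁅y, x⁆ ∈ commutator G := comm_mem y x
  obtain ⟨m, hm⟩ := gamma3_form_two h4 hG hexp4 hexp2 hc2 hE
    (Subgroup.commutator_mem_commutator hc (mem_top y))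
  -- the new generator
  have hgen : Gen (y * x ^ (-m)) x := hE.gen.swap.mul_zpow (-m)
  have hE' : Ext ![y * x ^ (-m), x] := hE.change_gen hgen
  have e1 : ⁅x, y * x ^ (-m)⁆ = ⁅y, x⁆⁻¹ := by
    rw [commutatorElement_mul_right_eq_mul_conj]
    have : ⁅x, x ^ (-m)⁆ = 1 := by
      rw [commutatorElement_eq_one_iff_mul_comm]
      exact ((Commute.refl x).zpow_right _).eq
    rw [this]; simp [commutatorElement_inv]
  have e2 : ⁅⁅y, x⁆, y * x ^ (-m)⁆ = 1 := by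
    rw [bil_right h4 hc, bil_zpow_right h4 hc, hm, zpow_neg, mul_inv_cancel]
  have hc2' : ⁅x, y * x ^ (-m)⁆ ^ 2 ∉ ⁅commutator G, (⊤ : Subgroup G)⁆ := by
    rw [e1, inv_pow]
    intro hcon
    exact hc2 (by simpa using inv_mem hcon)
  rw [eq_bot_iff]
  intro z hz
  obtain ⟨a, ha⟩ := gamma3_form_two h4 hG hexp4 hexp2 hc2' hE' hz
  rw [e1, bil_inv_left h4 hc, e2] at ha
  rw [Subgroup.mem_bot, ha]; simp

end

/-- `K = ⟨c⟩ γ₃` -/
lemma commutator_le_zpowers_sup {x y : G} (h : Gen x y) :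
    commutator G ≤ Subgroup.zpowers ⁅y, x⁆ ⊔ ⁅commutator G, (⊤ : Subgroup G)⁆ := by
  have hc : ⁅y, x⁆ ∈ commutator G := comm_mem y x
  set L := Subgroup.zpowers ⁅y, x⁆ ⊔ ⁅commutator G, (⊤ : Subgroup G)⁆ with hL
  have hLK : L ≤ commutator G :=
    sup_le (Subgroup.zpowers_le.mpr hc) (Subgroup.commutator_le_left _ _)
  have hLn : L.Normal := by
    refine ⟨fun z hz g => ?_⟩
    have e : g * z * g⁻¹ = ⁅z, g⁆⁻¹ * z := by simp [commutatorElement_def, mul_assoc]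
    rw [e]
    refine L.mul_mem (L.inv_mem ?_) hz
    exact Subgroup.mem_sup_right (Subgroup.commutator_mem_commutator (hLK hz) (mem_top g))
  exact h.swap.commutator_le hLn (Subgroup.mem_sup_left (Subgroup.mem_zpowers _))

/-- Elements of `K` are `c ^ a` modulo `γ₃`. -/
lemma exists_zpow_mod {x y : G} (h : Gen x y) {k : G} (hk : k ∈ commutator G) :
    ∃ a : ℤ, ∃ z ∈ ⁅commutator G, (⊤ : Subgroup G)⁆, k = ⁅y, x⁆ ^ a * z := by
  have h1 := commutator_le_zpowers_sup h hk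
  rw [Subgroup.mem_sup_of_normal_right] at h1
  obtain ⟨u, hu, z, hz, huz⟩ := h1
  obtain ⟨a, rfl⟩ := Subgroup.mem_zpowers_iff.mp hu
  exact ⟨a, z, hz, huz.symm⟩

/-- The normal subgroup generated by the fourth powers of elements of `K`. -/
def fourth (G : Type*) [Group G] : Subgroup G :=
  Subgroup.normalClosure {z | ∃ k ∈ commutator G, z = k ^ 4}

instance fourth_normal : (fourth G).Normal := Subgroup.normalClosure_normal

lemma pow_mem_fourth {k : G} (hk : k ∈ commutator G) : k ^ 4 ∈ fourth G :=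
  Subgroup.subset_normalClosure ⟨k, hk, rfl⟩

lemma fourth_le {N : Subgroup G} [N.Normal] (h : ∀ k ∈ commutator G, k ^ 4 ∈ N) :
    fourth G ≤ N := by
  apply Subgroup.normalClosure_le_normal
  rintro _ ⟨k, hk, rfl⟩
  exact h k hk

lemma fourth_le_frK [Finite G] (hG : IsPGroup 2 G) : fourth G ≤ frK G := by
  have h2 : Fact (Nat.Prime 2) := ⟨Nat.prime_two⟩
  apply fourth_le
  intro k hk
  have := pow_mem_frK hG ((commutator G).pow_mem hk 2)
  rwa [← pow_mul] at this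

/-- The Frattini subgroup of `γ₃`, as a subgroup of `G`. -/
def frH (G : Type*) [Group G] : Subgroup G :=
  (frattini (⁅commutator G, (⊤ : Subgroup G)⁆ : Subgroup G)).map
    (⁅commutator G, (⊤ : Subgroup G)⁆ : Subgroup G).subtype

instance frH_normal : (frH G).Normal := by
  unfold frH
  infer_instance

lemma frH_le : frH G ≤ ⁅commutator G, (⊤ : Subgroup G)⁆ := by
  rintro _ ⟨z, -, rfl⟩
  exact z.2

lemma pow_mem_frH [Finite G] {p : ℕ} [Fact p.Prime] (hG : IsPGroup p G) {k : G}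
    (hk : k ∈ ⁅commutator G, (⊤ : Subgroup G)⁆) : k ^ p ∈ frH G :=
  ⟨(⟨k, hk⟩ : (⁅commutator G, (⊤ : Subgroup G)⁆ : Subgroup G)) ^ p,
    pow_mem_frattini (hG.to_subgroup _) _, rfl⟩

lemma gamma3_le_of_sup_frH [Finite G] {N : Subgroup G}
    (h : ⁅commutator G, (⊤ : Subgroup G)⁆ ≤ N ⊔ frH G) [N.Normal] :
    ⁅commutator G, (⊤ : Subgroup G)⁆ ≤ N := by
  have htop : N.subgroupOf ⁅commutator G, (⊤ : Subgroup G)⁆ = ⊤ := by
    apply frattini_nongenerating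
    rw [eq_top_iff]
    rintro ⟨z, hz⟩ -
    have h1 := h hz
    rw [Subgroup.mem_sup_of_normal_right] at h1
    obtain ⟨n, hn, f, hf, hnf⟩ := h1
    have hnH : n ∈ ⁅commutator G, (⊤ : Subgroup G)⁆ := by
      have : n = z * f⁻¹ := by rw [← hnf]; group
      rw [this]; exact mul_mem hz (inv_mem (frH_le hf))
    obtain ⟨f', hf', rfl⟩ := hf
    rw [Subgroup.mem_sup_of_normal_right]
    refine ⟨⟨n, hnH⟩, hn, f', hf', ?_⟩
    apply Subtype.ext
    exact hnf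
  rwa [Subgroup.subgroupOf_eq_top] at htop

/-- The case `c ^ 2 ∉ γ₃`. -/
theorem cyclic_of_not_mem [Finite G] (hG : IsPGroup 2 G) {x y : G} (hE : Ext ![x, y])
    (hc2 : ⁅y, x⁆ ^ 2 ∉ ⁅commutator G, (⊤ : Subgroup G)⁆) :
    IsCyclic (commutator G) ∧
      ∀ z ∈ ⁅commutator G, (⊤ : Subgroup G)⁆, ∃ b ∈ commutator G, z = b ^ 4 := by
  have h2 : Fact (Nat.Prime 2) := ⟨Nat.prime_two⟩
  have hnil : Group.IsNilpotent G := hG.isNilpotent
  have hc : ⁅y, x⁆ ∈ commutator G := comm_mem y x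
  let T : Subgroup G := (fourth G ⊔ frH G) ⊔ ⁅⁅commutator G, (⊤ : Subgroup G)⁆, (⊤ : Subgroup G)⁆
  have hT : T.Normal := inferInstance
  have h4 := quotient_h4 (N := T) le_sup_right
  have hexp4 : ∀ k ∈ commutator (G ⧸ T), k ^ 4 = 1 := by
    intro k hk
    rw [← map_mk_commutator] at hk
    obtain ⟨k₀, hk₀, rfl⟩ := hk
    rw [← map_pow]
    exact (QuotientGroup.eq_one_iff _).mpr
      (Subgroup.mem_sup_left (Subgroup.mem_sup_left (pow_mem_fourth hk₀)))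
  have hexp2 : ∀ z ∈ ⁅commutator (G ⧸ T), (⊤ : Subgroup (G ⧸ T))⁆, z ^ 2 = 1 := by
    intro k hk
    rw [← map_mk_commutator, ← map_mk_top, ← Subgroup.map_commutator] at hk
    obtain ⟨k₀, hk₀, rfl⟩ := hk
    rw [← map_pow]
    exact (QuotientGroup.eq_one_iff _).mpr
      (Subgroup.mem_sup_left (Subgroup.mem_sup_right (pow_mem_frH hG hk₀)))
  -- `c ^ 2` is not in `γ₃ T`
  have hfourth : fourth G ≤ Subgroup.zpowers (⁅y, x⁆ ^ 4) ⊔ ⁅commutator G, (⊤ : Subgroup G)⁆ := by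
    have hnorm : (Subgroup.zpowers (⁅y, x⁆ ^ 4) ⊔ ⁅commutator G, (⊤ : Subgroup G)⁆).Normal := by
      have hLK : Subgroup.zpowers (⁅y, x⁆ ^ 4) ⊔ ⁅commutator G, (⊤ : Subgroup G)⁆
          ≤ commutator G :=
        sup_le (Subgroup.zpowers_le.mpr (Subgroup.pow_mem _ hc 4)) (Subgroup.commutator_le_left _ _)
      refine ⟨fun z hz g => ?_⟩
      have e : g * z * g⁻¹ = ⁅z, g⁆⁻¹ * z := by simp [commutatorElement_def, mul_assoc]
      rw [e]
      refine Subgroup.mul_mem _ (Subgroup.inv_mem _ ?_) hz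
      exact Subgroup.mem_sup_right (Subgroup.commutator_mem_commutator (hLK hz) (mem_top g))
    apply fourth_le
    intro k hk
    obtain ⟨a, z, hz, rfl⟩ := exists_zpow_mod hE.gen hk
    have hq : QuotientGroup.mk' ⁅commutator G, (⊤ : Subgroup G)⁆ ((⁅y, x⁆ ^ a * z) ^ 4)
        = QuotientGroup.mk' ⁅commutator G, (⊤ : Subgroup G)⁆ ((⁅y, x⁆ ^ 4) ^ a) := by
      have hz1 : QuotientGroup.mk' ⁅commutator G, (⊤ : Subgroup G)⁆ z = 1 :=
        (QuotientGroup.eq_one_iff _).mpr hz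
      rw [map_pow, map_mul, hz1, mul_one, ← map_pow]
      congr 1
      rw [← zpow_natCast, ← zpow_mul, ← zpow_natCast ⁅y, x⁆ 4, ← zpow_mul, mul_comm]
    have hq2 := QuotientGroup.eq.mp hq
    have e : (⁅y, x⁆ ^ a * z) ^ 4
        = (⁅y, x⁆ ^ 4) ^ a * (((⁅y, x⁆ ^ a * z) ^ 4)⁻¹ * (⁅y, x⁆ ^ 4) ^ a)⁻¹ := by group
    rw [e]
    exact mul_mem (Subgroup.mem_sup_left (Subgroup.zpow_mem _ (Subgroup.mem_zpowers _) a))
      (inv_mem (Subgroup.mem_sup_right hq2))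
  have hTle : T ≤ Subgroup.zpowers (⁅y, x⁆ ^ 4) ⊔ ⁅commutator G, (⊤ : Subgroup G)⁆ := by
    refine sup_le (sup_le hfourth (frH_le.trans le_sup_right)) ?_
    exact le_trans (Subgroup.commutator_le_left _ _) le_sup_right
  have hc2T : ⁅(y : G ⧸ T), (x : G ⧸ T)⁆ ^ 2
      ∉ ⁅commutator (G ⧸ T), (⊤ : Subgroup (G ⧸ T))⁆ := by
    intro hcon
    rw [← map_mk_commutator, ← map_mk_top, ← Subgroup.map_commutator] at hcon
    obtain ⟨z, hz, hzc⟩ := hcon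
    have hzc' : QuotientGroup.mk' T z = QuotientGroup.mk' T (⁅y, x⁆ ^ 2) := hzc
    have h5 := QuotientGroup.eq.mp hzc'
    have h6 : ⁅y, x⁆ ^ 2 ∈ Subgroup.zpowers (⁅y, x⁆ ^ 4) ⊔ ⁅commutator G, (⊤ : Subgroup G)⁆ := by
      have e : ⁅y, x⁆ ^ 2 = z * (z⁻¹ * ⁅y, x⁆ ^ 2) := by group
      rw [e]
      exact mul_mem (Subgroup.mem_sup_right hz) (hTle h5)
    rw [Subgroup.mem_sup_of_normal_right] at h6
    obtain ⟨u, hu, w, hw, huw⟩ := h6
    obtain ⟨a, rfl⟩ := Subgroup.mem_zpowers_iff.mp hu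
    have h7 : (⁅y, x⁆ ^ 2) ^ (1 - 2 * a) ∈ ⁅commutator G, (⊤ : Subgroup G)⁆ := by
      have : (⁅y, x⁆ ^ 2) ^ (1 - 2 * a) = w := by
        have e1 : w = ((⁅y, x⁆ ^ 4) ^ a)⁻¹ * ⁅y, x⁆ ^ 2 := by rw [← huw]; group
        rw [e1]
        group
      rw [this]; exact hw
    apply hc2
    refine mem_of_zpow_mem hG ?_ h7
    intro hd
    obtain ⟨e, he⟩ := hd
    omega
  have h1 := class_two_of_two h4 (hG.to_quotient T) hexp4 hexp2 hc2T (quotient_pair T hE)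
  rw [← map_mk_commutator, ← map_mk_top, ← Subgroup.map_commutator, Subgroup.map_eq_bot_iff,
    QuotientGroup.ker_mk'] at h1
  have h3 : ⁅commutator G, (⊤ : Subgroup G)⁆ ≤ fourth G ⊔ frH G := by
    apply le_of_le_commutator_sup
    rw [sup_comm]; exact h1
  have h5 : ⁅commutator G, (⊤ : Subgroup G)⁆ ≤ fourth G := gamma3_le_of_sup_frH h3
  have h6 : commutator G = Subgroup.zpowers ⁅y, x⁆ :=
    eq_zpowers_of_le hE.gen (h5.trans (fourth_le_frK hG))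
  refine ⟨isCyclic_of_eq_zpowers h6, ?_⟩
  have hPn : (Subgroup.zpowers (⁅y, x⁆ ^ 4)).Normal := by
    refine ⟨fun z hz g => ?_⟩
    obtain ⟨a, rfl⟩ := Subgroup.mem_zpowers_iff.mp hz
    have h7 : g * ⁅y, x⁆ * g⁻¹ ∈ commutator G := Subgroup.Normal.conj_mem inferInstance _ hc g
    rw [h6] at h7
    obtain ⟨m, hm⟩ := Subgroup.mem_zpowers_iff.mp h7
    rw [← conj_zpow, ← conj_pow, ← hm]
    refine Subgroup.mem_zpowers_iff.mpr ⟨m * a, ?_⟩
    group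
  have h8 : fourth G ≤ Subgroup.zpowers (⁅y, x⁆ ^ 4) := by
    apply fourth_le
    intro k hk
    rw [h6] at hk
    obtain ⟨a, rfl⟩ := Subgroup.mem_zpowers_iff.mp hk
    refine Subgroup.mem_zpowers_iff.mpr ⟨a, ?_⟩
    group
  intro z hz
  obtain ⟨a, ha⟩ := Subgroup.mem_zpowers_iff.mp (h8 (h5 hz))
  refine ⟨⁅y, x⁆ ^ a, Subgroup.zpow_mem _ hc a, ?_⟩
  rw [← ha]
  group

end Pool.Agent.ClassAut
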