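import Pool.Agent.ClassAut.TwoNecA

/-!
# Two generators, `p = 2`, class three: the case `c ^ 2 ∈ γ₃`
-/

set_option autoImplicit false

namespace Pool.Agent.ClassAut

open Subgroup
open scoped commutatorElement

variable {G : Type*} [Group G]

/-- A normal subgroup containing `⁅c, x⁆` and `⁅c, y⁆` contains `γ₃`. -/
lemma gamma3_le {x y : G} (h : Gen x y) {N : Subgroup G} [N.Normal]
    (hx : ⁅⁅y, x⁆, x⁆ ∈ N) (hy : ⁅⁅y, x⁆, y⁆ ∈ N) :
    ⁅commutator G, (⊤ : Subgroup G)⁆ ≤ N := by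
  -- the preimage of the centre of `G ⧸ N`
  let Z : Subgroup G := (Subgroup.center (G ⧸ N)).comap (QuotientGroup.mk' N)
  have hZn : Z.Normal := inferInstance
  have hcZ : ⁅y, x⁆ ∈ Z := by
    rw [Subgroup.mem_comap, Subgroup.mem_center_iff]
    intro z
    obtain ⟨z, rfl⟩ := QuotientGroup.mk'_surjective N z
    let C : Subgroup G := (Subgroup.centralizer {QuotientGroup.mk' N ⁅y, x⁆}).comap
      (QuotientGroup.mk' N)
    have hx' : x ∈ C := by
      rw [Subgroup.mem_comap, Subgroup.mem_centralizer_singleton_iff]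
      have : QuotientGroup.mk' N ⁅⁅y, x⁆, x⁆ = 1 := (QuotientGroup.eq_one_iff _).mpr hx
      rw [map_commutatorElement, commutatorElement_eq_one_iff_mul_comm] at this
      exact this.symm
    have hy' : y ∈ C := by
      rw [Subgroup.mem_comap, Subgroup.mem_centralizer_singleton_iff]
      have : QuotientGroup.mk' N ⁅⁅y, x⁆, y⁆ = 1 := (QuotientGroup.eq_one_iff _).mpr hy
      rw [map_commutatorElement, commutatorElement_eq_one_iff_mul_comm] at this
      exact this.symm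
    have := h.induction hx' hy' z
    rw [Subgroup.mem_comap, Subgroup.mem_centralizer_singleton_iff] at this
    exact this
  have hKZ : commutator G ≤ Z := h.swap.commutator_le hZn hcZ
  rw [Subgroup.commutator_le]
  intro k hk g _
  have h1 := hKZ hk
  rw [Subgroup.mem_comap, Subgroup.mem_center_iff] at h1
  have h2 := h1 (QuotientGroup.mk' N g)
  have h3 : QuotientGroup.mk' N ⁅k, g⁆ = 1 := by
    rw [map_commutatorElement, commutatorElement_eq_one_iff_mul_comm]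
    exact h2.symm
  exact (QuotientGroup.eq_one_iff _).mp h3

section

variable (h4 : ⁅⁅commutator G, (⊤ : Subgroup G)⁆, (⊤ : Subgroup G)⁆ = ⊥)
include h4

/-- in class three, with `c ^ 2 ∈ γ₃`, the subgroup `γ₃` has exponent two -/
lemma gamma3_exp_two {x y : G} (h : Gen x y)
    (hc2 : ⁅y, x⁆ ^ 2 ∈ ⁅commutator G, (⊤ : Subgroup G)⁆) :
    ∀ z ∈ ⁅commutator G, (⊤ : Subgroup G)⁆, z ^ 2 = 1 := by
  have hc : ⁅y, x⁆ ∈ commutator G := comm_mem y x
  have hcen : ⁅commutator G, (⊤ : Subgroup G)⁆ ≤ center G :=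
    Subgroup.commutator_top_right_eq_bot_iff_le_center.mp h4
  have hsq : ∀ g : G, ⁅⁅y, x⁆, g⁆ ^ 2 = 1 := by
    intro g
    rw [← bil_pow_left h4 hc, commutatorElement_eq_one_iff_mul_comm]
    exact (Subgroup.mem_center_iff.mp (hcen hc2) g).symm
  let N : Subgroup G :=
    { carrier := {z | z ∈ center G ∧ z ^ 2 = 1}
      one_mem' := ⟨one_mem _, one_pow _⟩
      mul_mem' := by
        rintro a b ⟨ha, ha2⟩ ⟨hb, hb2⟩
        refine ⟨mul_mem ha hb, ?_⟩
        have : Commute a b := (Subgroup.mem_center_iff.mp hb a)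
        rw [this.mul_pow, ha2, hb2, one_mul]
      inv_mem' := by
        rintro a ⟨ha, ha2⟩
        refine ⟨inv_mem ha, ?_⟩
        rw [inv_pow, ha2, inv_one] }
  have hNn : N.Normal := by
    refine ⟨?_⟩
    rintro z ⟨hz, hz2⟩ g
    have : g * z * g⁻¹ = z := by
      rw [Subgroup.mem_center_iff.mp hz g]; group
    rw [this]; exact ⟨hz, hz2⟩
  have hle : ⁅commutator G, (⊤ : Subgroup G)⁆ ≤ N := by
    apply gamma3_le h
    · exact ⟨hcen (Subgroup.commutator_mem_commutator hc (mem_top _)), hsq x⟩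
    · exact ⟨hcen (Subgroup.commutator_mem_commutator hc (mem_top _)), hsq y⟩
  intro z hz
  exact (hle hz).2

/-- The consequence of the fact that `c ^ 2` is a commutator `⁅g, x⁆`. -/
lemma square_form [Finite G] (hG : IsPGroup 2 G) {x y : G} (hE : Ext ![x, y])
    (hc2 : ⁅y, x⁆ ^ 2 ∈ ⁅commutator G, (⊤ : Subgroup G)⁆)
    (hc : ⁅y, x⁆ ∉ ⁅commutator G, (⊤ : Subgroup G)⁆) :
    ⁅y, x⁆ ^ 2 = 1 ∨ ⁅y, x⁆ ^ 2 = ⁅⁅y, x⁆, x⁆ ∨ ⁅⁅y, x⁆, y⁆ = 1 ∨
      ⁅⁅y, x⁆, y⁆ = ⁅⁅y, x⁆, x⁆ := by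
  have h2 : Fact (Nat.Prime 2) := ⟨Nat.prime_two⟩
  have hcK : ⁅y, x⁆ ∈ commutator G := comm_mem y x
  have hexp := gamma3_exp_two h4 hE.gen hc2
  have hV : ⁅⁅y, x⁆, x⁆ ∈ ⁅commutator G, (⊤ : Subgroup G)⁆ :=
    Subgroup.commutator_mem_commutator hcK (mem_top x)
  have hW : ⁅⁅y, x⁆, y⁆ ∈ ⁅commutator G, (⊤ : Subgroup G)⁆ :=
    Subgroup.commutator_mem_commutator hcK (mem_top y)
  have hW2 := hexp _ hW
  have hV2 := hexp _ hV
  have hs2 := hexp _ hc2
  have hW' : ⁅y, ⁅y, x⁆⁆ = ⁅⁅y, x⁆, y⁆ := by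
    rw [← commutatorElement_inv, inv_eq_iff_mul_eq_one, ← pow_two, hW2]
  obtain ⟨g, hg⟩ := hE.exists_comm (Subgroup.pow_mem _ hcK 2)
  obtain ⟨j, a, hja⟩ := comm_with_gen_form h4 hE.gen g
  rw [hg, hW'] at hja
  set c := ⁅y, x⁆ with hc_def
  have hcj : c ^ j ∈ ⁅commutator G, (⊤ : Subgroup G)⁆ := by
    have e : c ^ j = c ^ 2 * (⁅c, x⁆ ^ a)⁻¹ * (⁅c, y⁆ ^ (j.choose 2))⁻¹ := by
      rw [hja]; group
    rw [e]
    exact mul_mem (mul_mem hc2 (inv_mem (Subgroup.zpow_mem _ hV a)))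
      (inv_mem (Subgroup.pow_mem _ hW _))
  have h2j : 2 ∣ j := by
    by_contra hcon
    apply hc
    have hcon' : ¬ ((2 : ℕ) : ℤ) ∣ (j : ℤ) := by
      intro hd; exact hcon (by exact_mod_cast hd)
    exact mem_of_zpow_mem hG hcon' (by rw [zpow_natCast]; exact hcj)
  obtain ⟨l, hl⟩ := h2j
  have hch : j.choose 2 = l * (2 * l - 1) := by
    rw [Nat.choose_two_right, hl]
    have : 2 * l * (2 * l - 1) = 2 * (l * (2 * l - 1)) := by ring
    rw [this]; simp
  rcases Nat.even_or_odd' l with ⟨m, hm | hm⟩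
  · -- `l` even
    have e1 : c ^ j = 1 := by
      have : j = 2 * 2 * m := by omega
      rw [this, pow_mul, pow_mul, hs2, one_pow]
    have e2 : ⁅c, y⁆ ^ j.choose 2 = 1 := by
      have : j.choose 2 = 2 * (m * (2 * l - 1)) := by rw [hch, hm]; ring
      rw [this, pow_mul, hW2, one_pow]
    rw [e1, e2, one_mul, one_mul] at hja
    rcases Int.even_or_odd' a with ⟨b, hb | hb⟩
    · left
      rw [hja, hb, zpow_mul]
      norm_cast
      rw [hV2, one_zpow]
    · right; left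
      rw [hja, hb, zpow_add, zpow_mul]
      norm_cast
      rw [hV2, one_zpow, one_mul]
      simp
  · -- `l` odd
    have e1 : c ^ j = c ^ 2 := by
      have : j = 2 * 2 * m + 2 := by omega
      rw [this, pow_add, pow_mul, pow_mul, hs2, one_pow, one_mul]
    have e2 : ⁅c, y⁆ ^ j.choose 2 = ⁅c, y⁆ := by
      have : j.choose 2 = 2 * (4 * m * m + 3 * m) + 1 := by
        rw [hch, hm]
        have : 2 * (2 * m + 1) - 1 = 4 * m + 1 := by omega
        rw [this]; ring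
      rw [this, pow_add, pow_mul, hW2, one_pow, one_mul, pow_one]
    rw [e1, e2, mul_assoc] at hja
    have h5 : ⁅c, y⁆ * ⁅c, x⁆ ^ a = 1 := by
      have : c ^ 2 * 1 = c ^ 2 * (⁅c, y⁆ * ⁅c, x⁆ ^ a) := by rw [mul_one]; exact hja
      exact (mul_left_cancel this).symm
    rcases Int.even_or_odd' a with ⟨b, hb | hb⟩
    · right; right; left
      have : ⁅c, x⁆ ^ a = 1 := by
        rw [hb, zpow_mul]; norm_cast; rw [hV2, one_zpow]
      rw [this, mul_one] at h5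
      exact h5
    · right; right; right
      have : ⁅c, x⁆ ^ a = ⁅c, x⁆ := by
        rw [hb, zpow_add, zpow_mul]; norm_cast; rw [hV2, one_zpow, one_mul]; simp
      rw [this] at h5
      have h6 : ⁅c, x⁆⁻¹ = ⁅c, x⁆ := by rw [inv_eq_iff_mul_eq_one, ← pow_two, hV2]
      rw [← h6]
      exact eq_inv_of_mul_eq_one_left h5

/-- The case `c ^ 2 ∈ γ₃` in class three. -/
theorem sq_eq_one_of_mem [Finite G] (hG : IsPGroup 2 G) {x y : G} (hE : Ext ![x, y])
    (hc2 : ⁅y, x⁆ ^ 2 ∈ ⁅commutator G, (⊤ : Subgroup G)⁆) : ⁅y, x⁆ ^ 2 = 1 := by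
  have h2 : Fact (Nat.Prime 2) := ⟨Nat.prime_two⟩
  by_cases hcH : ⁅y, x⁆ ∈ ⁅commutator G, (⊤ : Subgroup G)⁆
  · have hK := not_mem_of_nontrivial hG hE.gen hcH
    have : ⁅y, x⁆ ∈ commutator G := comm_mem y x
    rw [hK, Subgroup.mem_bot] at this
    rw [this, one_pow]
  by_contra hs
  have hcK : ⁅y, x⁆ ∈ commutator G := comm_mem y x
  have hexp := gamma3_exp_two h4 hE.gen hc2
  set c := ⁅y, x⁆ with hc_def
  have hV : ⁅c, x⁆ ∈ ⁅commutator G, (⊤ : Subgroup G)⁆ :=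
    Subgroup.commutator_mem_commutator hcK (mem_top x)
  have hW : ⁅c, y⁆ ∈ ⁅commutator G, (⊤ : Subgroup G)⁆ :=
    Subgroup.commutator_mem_commutator hcK (mem_top y)
  have hW2 := hexp _ hW
  have hV2 := hexp _ hV
  have hs2 := hexp _ hc2
  have hWi : ⁅c, y⁆⁻¹ = ⁅c, y⁆ := by rw [inv_eq_iff_mul_eq_one, ← pow_two, hW2]
  have hVi : ⁅c, x⁆⁻¹ = ⁅c, x⁆ := by rw [inv_eq_iff_mul_eq_one, ← pow_two, hV2]
  have hsi : (c ^ 2)⁻¹ = c ^ 2 := by rw [inv_eq_iff_mul_eq_one, ← pow_two, hs2]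
  -- pair `(x, y)`
  have P1 := square_form h4 hG hE hc2 hcH
  -- pair `(y, x)`
  have hE2 : Ext ![y, x] := hE.change_gen hE.gen.swap
  have hci : ⁅x, y⁆ = c⁻¹ := by rw [hc_def, commutatorElement_inv]
  have P2 := square_form h4 hG hE2 (by rw [hci, inv_pow]; exact inv_mem hc2)
    (by rw [hci]; intro hcon; exact hcH (by simpa using inv_mem hcon))
  rw [hci, inv_pow, hsi, bil_inv_left h4 hcK, bil_inv_left h4 hcK, hVi, hWi] at P2
  -- pair `(x * y, y)`
  have hgen3 : Gen (x * y) y := by simpa using hE.gen.mul_zpow 1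
  have hE3 : Ext ![x * y, y] := hE.change_gen hgen3
  have hc3 : ⁅y, x * y⁆ = c := by
    rw [commutatorElement_mul_right_eq_mul_conj, commutatorElement_self]
    simp [hc_def]
  have P3 := square_form h4 hG hE3 (by rw [hc3]; exact hc2) (by rw [hc3]; exact hcH)
  rw [hc3, bil_right h4 hcK] at P3
  -- both `⁅c, x⁆ = 1` and `⁅c, y⁆ = 1` is impossible
  have h0 : ¬ (⁅c, x⁆ = 1 ∧ ⁅c, y⁆ = 1) := by
    rintro ⟨h1, h5⟩
    have h6 : ⁅commutator G, (⊤ : Subgroup G)⁆ ≤ ⊥ :=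
      gamma3_le hE.gen (by rw [← hc_def, h1]; exact one_mem _)
        (by rw [← hc_def, h5]; exact one_mem _)
    exact hs (Subgroup.mem_bot.mp (h6 hc2))
  -- case analysis
  by_cases hW1 : ⁅c, y⁆ = 1
  · have hV1 : ⁅c, x⁆ ≠ 1 := fun h => h0 ⟨h, hW1⟩
    rcases P2 with h | h | h | h
    · exact hs h
    · exact hs (h.trans hW1)
    · exact hV1 h
    · exact hV1 (h.trans hW1)
  by_cases hV1 : ⁅c, x⁆ = 1
  · rcases P1 with h | h | h | h
    · exact hs h
    · exact hs (h.trans hV1)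
    · exact hW1 h
    · exact hW1 (h.trans hV1)
  by_cases hVW : ⁅c, x⁆ = ⁅c, y⁆
  · rcases P3 with h | h | h | h
    · exact hs h
    · apply hs; rw [h, hVW, ← pow_two, hW2]
    · exact hW1 h
    · apply hW1; rw [h, hVW, ← pow_two, hW2]
  · rcases P1 with h | h | h | h
    · exact hs h
    · rcases P2 with h' | h' | h' | h'
      · exact hs h'
      · exact hVW (h.symm.trans h')
      · exact hV1 h'
      · exact hVW h'
    · exact hW1 h
    · exact hVW h.symm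

end

/-- The case `c ^ 2 ∈ γ₃` in general: `c ^ 2 ∈ γ₄`. -/
theorem sq_mem_gamma4 [Finite G] (hG : IsPGroup 2 G) {x y : G} (hE : Ext ![x, y])
    (hc2 : ⁅y, x⁆ ^ 2 ∈ ⁅commutator G, (⊤ : Subgroup G)⁆) :
    ⁅y, x⁆ ^ 2 ∈ ⁅⁅commutator G, (⊤ : Subgroup G)⁆, (⊤ : Subgroup G)⁆ := by
  let N : Subgroup G := ⁅⁅commutator G, (⊤ : Subgroup G)⁆, (⊤ : Subgroup G)⁆
  have h4 := quotient_h4 (N := N) le_rfl
  have h := sq_eq_one_of_mem h4 (hG.to_quotient N) (quotient_pair N hE) (by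
    rw [← map_mk_commutator, ← map_mk_top, ← Subgroup.map_commutator]
    exact ⟨_, hc2, rfl⟩)
  exact (QuotientGroup.eq_one_iff _).mp h

end Pool.Agent.ClassAut
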