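import Pool.Agent.ClassAut.TwoNecB

/-!
# Two generators, `p = 2`: no class four
-/

set_option autoImplicit false

namespace Pool.Agent.ClassAut

open Subgroup
open scoped commutatorElement

variable {G : Type*} [Group G]

/-- The situation to be excluded: `γ₄ = {1, t}` with `t` central of order two. -/
structure Setup (G : Type*) [Group G] (t : G) : Prop where
  tne : t ≠ 1
  tsq : t * t = 1
  tcen : ∀ g : G, t * g = g * t
  h4 : ∀ z ∈ ⁅commutator G, (⊤ : Subgroup G)⁆, ∀ g : G, ⁅g, z⁆ = 1 ∨ ⁅g, z⁆ = t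
  hK : ∀ k ∈ commutator G, ∀ l ∈ commutator G, k * l = l * k
  hH : ∀ z ∈ ⁅commutator G, (⊤ : Subgroup G)⁆, z * z = 1
  hsq : ∀ k ∈ commutator G, k * k = 1 ∨ k * k = t
  tmem : t ∈ ⁅⁅commutator G, (⊤ : Subgroup G)⁆, (⊤ : Subgroup G)⁆

lemma mem_H {c : G} (hc : c ∈ commutator G) (g : G) :
    ⁅g, c⁆ ∈ ⁅commutator G, (⊤ : Subgroup G)⁆ := by
  rw [← commutatorElement_inv]
  exact inv_mem (Subgroup.commutator_mem_commutator hc (mem_top g))

lemma H_le_K : ⁅commutator G, (⊤ : Subgroup G)⁆ ≤ commutator G :=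
  Subgroup.commutator_le_left _ _

lemma conj_eq_comm_mul (u z : G) : u * z * u⁻¹ = ⁅u, z⁆ * z := by
  simp [commutatorElement_def]

lemma zpow_four' (y : G) : (y * y) * (y * y) = y ^ (4 : ℤ) := by
  rw [show (4 : ℤ) = 2 + 2 from rfl, zpow_add, zpow_two]

lemma comm_mul' (g h c : G) :
    ⁅g * h, c⁆ = ⁅g, ⁅h, c⁆⁆ * (⁅h, c⁆ * ⁅g, c⁆) := by
  rw [commutatorElement_mul_left_eq_conj_mul, conj_eq_comm_mul, mul_assoc]

/-- Cosets of a subgroup containing `K`, `x ^ 2`, `y ^ 2`. -/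
lemma Gen.four_cosets {x y : G} (h : Gen x y) {A : Subgroup G}
    (hA : commutator G ≤ A) (hx : x * x ∈ A) (hy : y * y ∈ A) (g : G) :
    g ∈ A ∨ (∃ a ∈ A, g = a * x) ∨ (∃ a ∈ A, g = a * y) ∨ (∃ a ∈ A, g = a * (y * x)) := by
  have hAn : A.Normal := by
    refine ⟨fun z hz u => ?_⟩
    have e : u * z * u⁻¹ = ⁅u, z⁆ * z := by simp [commutatorElement_def]
    rw [e]; exact mul_mem (hA (comm_mem u z)) hz
  obtain ⟨k, hk, i, j, rfl⟩ := h.exists_form g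
  have hk' := hA hk
  have ex : ∀ b : ℤ, x ^ (2 * b) ∈ A := by
    intro b
    rw [zpow_mul, zpow_two]; exact Subgroup.zpow_mem _ hx b
  have ey : ∀ b : ℤ, y ^ (2 * b) ∈ A := by
    intro b
    rw [zpow_mul, zpow_two]; exact Subgroup.zpow_mem _ hy b
  rcases Int.even_or_odd' i with ⟨a, rfl | rfl⟩ <;>
  rcases Int.even_or_odd' j with ⟨b, rfl | rfl⟩
  · left
    exact mul_mem (mul_mem hk' (ey b)) (ex a)
  · right; right; left
    refine ⟨k * y ^ (2 * b) * (y * x ^ (2 * a) * y⁻¹), mul_mem (mul_mem hk' (ey b))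
      (hAn.conj_mem _ (ex a) y), ?_⟩
    rw [zpow_add, zpow_one]; group
  · right; left
    refine ⟨k * y ^ (2 * b) * x ^ (2 * a), mul_mem (mul_mem hk' (ey b)) (ex a), ?_⟩
    rw [zpow_add, zpow_one]; group
  · right; right; right
    refine ⟨k * y ^ (2 * b) * (y * x ^ (2 * a) * y⁻¹), mul_mem (mul_mem hk' (ey b))
      (hAn.conj_mem _ (ex a) y), ?_⟩
    rw [zpow_add, zpow_one, zpow_add, zpow_one]; group

namespace Setup

variable {t : G} (S : Setup G t)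
include S

lemma tmemH : t ∈ ⁅commutator G, (⊤ : Subgroup G)⁆ :=
  Subgroup.commutator_le_left _ _ S.tmem

lemma cen {z : G} (hz : z ∈ ⁅commutator G, (⊤ : Subgroup G)⁆) (g u : G) :
    ⁅g, z⁆ * u = u * ⁅g, z⁆ := by
  rcases S.h4 z hz g with h | h
  · rw [h]; simp
  · rw [h]; exact S.tcen u

lemma sq_comm {z : G} (hz : z ∈ ⁅commutator G, (⊤ : Subgroup G)⁆) (g : G) :
    ⁅g, z⁆ * ⁅g, z⁆ = 1 := by
  rcases S.h4 z hz g with h | h
  · rw [h]; simp
  · rw [h]; exact S.tsq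

lemma left_mul {z : G} (hz : z ∈ ⁅commutator G, (⊤ : Subgroup G)⁆) (g h : G) :
    ⁅g * h, z⁆ = ⁅g, z⁆ * ⁅h, z⁆ := by
  rw [commutatorElement_mul_left_eq_conj_mul, ← S.cen hz h g, mul_inv_cancel_right,
    S.cen hz h]

lemma right_mul {z w : G} (_hz : z ∈ ⁅commutator G, (⊤ : Subgroup G)⁆)
    (hw : w ∈ ⁅commutator G, (⊤ : Subgroup G)⁆) (g : G) :
    ⁅g, z * w⁆ = ⁅g, z⁆ * ⁅g, w⁆ := by
  rw [commutatorElement_mul_right_eq_mul_conj, mul_assoc ⁅g, z⁆, ← S.cen hw g, mul_assoc,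
    mul_assoc, mul_inv_cancel, mul_one]

lemma comm_t (g : G) : ⁅g, t⁆ = 1 := by
  rw [commutatorElement_eq_one_iff_mul_comm]; exact (S.tcen g).symm

lemma tmem_one_or {z : G} (h : z = 1 ∨ z = t) (g : G) : ⁅g, z⁆ = 1 := by
  rcases h with h | h
  · rw [h]; simp
  · rw [h]; exact S.comm_t g

lemma F_add {c : G} (hc : c ∈ commutator G) (u g h : G) :
    ⁅u, ⁅g * h, c⁆⁆ = ⁅u, ⁅h, c⁆⁆ * ⁅u, ⁅g, c⁆⁆ := by
  have h1 : ⁅g, ⁅h, c⁆⁆ ∈ ⁅commutator G, (⊤ : Subgroup G)⁆ := mem_H (H_le_K (mem_H hc h)) g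
  rw [comm_mul', S.right_mul h1 (mul_mem (mem_H hc h) (mem_H hc g)),
    S.tmem_one_or (S.h4 _ (mem_H hc h) g), one_mul, S.right_mul (mem_H hc h) (mem_H hc g)]

lemma F_symm {c : G} (hc : c ∈ commutator G) (g h : G) : ⁅g, ⁅h, c⁆⁆ = ⁅h, ⁅g, c⁆⁆ := by
  have e1 : ⁅g * h, c⁆ = ⁅h * g, c⁆ := by
    have e2 : g * h = ⁅g, h⁆ * (h * g) := by simp [commutatorElement_def, mul_assoc]
    have hk : ⁅g, h⁆ ∈ commutator G := comm_mem g h
    rw [e2, commutatorElement_mul_left_eq_conj_mul ⁅g, h⁆,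
      S.hK _ hk ⁅h * g, c⁆ (comm_mem _ _), mul_inv_cancel_right,
      (commutatorElement_eq_one_iff_mul_comm (g₁ := ⁅g, h⁆)).mpr (S.hK _ hk c hc), mul_one]
  rw [comm_mul', comm_mul', S.hK ⁅g, c⁆ (comm_mem _ _) ⁅h, c⁆ (comm_mem _ _)] at e1
  exact mul_right_cancel e1

lemma inv_H {z : G} (hz : z ∈ ⁅commutator G, (⊤ : Subgroup G)⁆) : z⁻¹ = z := by
  rw [inv_eq_iff_mul_eq_one]; exact S.hH z hz

lemma comm_inv {c : G} (hc : c ∈ commutator G) (g : G) : ⁅g, c⁻¹⁆ = ⁅g, c⁆ := by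
  have h1 : ⁅g, c⁆ * (c * ⁅g, c⁻¹⁆ * c⁻¹) = 1 := by
    rw [← mul_assoc, ← mul_assoc, ← commutatorElement_mul_right_eq_mul_conj, mul_inv_cancel,
      commutatorElement_one_right]
  have h2 : c * ⁅g, c⁻¹⁆ * c⁻¹ = ⁅g, c⁻¹⁆ := by
    rw [S.hK c hc _ (comm_mem _ _), mul_inv_cancel_right]
  rw [h2] at h1
  rw [← S.inv_H (mem_H hc g)]
  exact (inv_eq_of_mul_eq_one_right h1).symm

/-- `y * x` versus `x` -/
lemma K_ne_bot : commutator G ≠ ⊥ := by
  intro h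
  have := H_le_K S.tmemH
  rw [h, Subgroup.mem_bot] at this
  exact S.tne this

/-- An element commuting with `⁅x, c⁆` and `⁅y, c⁆` commutes with `γ₃`. -/
lemma comm_H {x y : G} (h : Gen x y) {g : G} (hx : ⁅g, ⁅x, ⁅x, y⁆⁆⁆ = 1)
    (hy : ⁅g, ⁅y, ⁅x, y⁆⁆⁆ = 1) {z : G} (hz : z ∈ ⁅commutator G, (⊤ : Subgroup G)⁆) :
    ⁅g, z⁆ = 1 := by
  have hcK : ⁅x, y⁆ ∈ commutator G := comm_mem x y
  let N : Subgroup G :=
    { carrier := {z | z ∈ ⁅commutator G, (⊤ : Subgroup G)⁆ ∧ ⁅g, z⁆ = 1}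
      one_mem' := ⟨one_mem _, commutatorElement_one_right _⟩
      mul_mem' := by
        rintro a b ⟨ha, ha2⟩ ⟨hb, hb2⟩
        refine ⟨mul_mem ha hb, ?_⟩
        rw [S.right_mul ha hb, ha2, hb2, one_mul]
      inv_mem' := by
        rintro a ⟨ha, ha2⟩
        refine ⟨inv_mem ha, ?_⟩
        rw [S.inv_H ha]; exact ha2 }
  have hNn : N.Normal := by
    refine ⟨?_⟩
    rintro w ⟨hw, hw2⟩ u
    have e : u * w * u⁻¹ = ⁅u, w⁆ * w := by simp [commutatorElement_def]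
    refine ⟨Subgroup.Normal.conj_mem inferInstance w hw u, ?_⟩
    rw [e, S.right_mul (mem_H (H_le_K hw) u) hw, hw2, mul_one]
    exact S.tmem_one_or (S.h4 w hw u) g
  have hx1 : ⁅⁅x, y⁆, x⁆ ∈ N := by
    have : ⁅x, ⁅x, y⁆⁆ ∈ N := ⟨mem_H hcK x, hx⟩
    rw [← commutatorElement_inv]; exact inv_mem this
  have hy1 : ⁅⁅x, y⁆, y⁆ ∈ N := by
    have : ⁅y, ⁅x, y⁆⁆ ∈ N := ⟨mem_H hcK y, hy⟩
    rw [← commutatorElement_inv]; exact inv_mem this
  have := gamma3_le h.swap (N := N) hy1 hx1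
  exact (this hz).2

/-- The general obstruction. -/
lemma obstruction {x y w : G} (h : Gen x y) (hw : ∀ k ∈ commutator G, ⁅k, w⁆ = 1)
    (hP : ⁅x, w⁆ ∈ ⁅commutator G, (⊤ : Subgroup G)⁆)
    (hQ : ⁅y, w⁆ ∈ ⁅commutator G, (⊤ : Subgroup G)⁆)
    (hxP : ⁅x, ⁅x, w⁆⁆ = 1) (hyP : ⁅y, ⁅x, w⁆⁆ = t) (hxQ : ⁅x, ⁅y, w⁆⁆ = t)
    (hyQ : ⁅y, ⁅y, w⁆⁆ = 1) (g : G) : ⁅g, w⁆ ≠ t := by
  intro hg
  let A : Subgroup G := Subgroup.centralizer {w}
  have hmem : ∀ a : G, a ∈ A ↔ ⁅a, w⁆ = 1 := by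
    intro a
    rw [Subgroup.mem_centralizer_singleton_iff, commutatorElement_eq_one_iff_mul_comm]
  have hKA : commutator G ≤ A := fun k hk => (hmem k).mpr (hw k hk)
  have hsq : ∀ u : G, ⁅u, ⁅u, w⁆⁆ = 1 → ⁅u, w⁆ ∈ ⁅commutator G, (⊤ : Subgroup G)⁆ →
      u * u ∈ A := by
    intro u hu1 hu2
    rw [hmem, commutatorElement_mul_left_eq_conj_mul]
    rw [conj_eq_comm_mul, hu1, one_mul]
    exact S.hH _ hu2
  have hxA := hsq x hxP hP
  have hyA := hsq y hyQ hQ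
  -- `⁅a u, w⁆ = t` implies `⁅u, w⁆ = t`
  have key : ∀ a ∈ A, ∀ u : G, ⁅a * u, w⁆ = t → ⁅u, w⁆ = t := by
    intro a ha u hau
    rw [commutatorElement_mul_left_eq_conj_mul, (hmem a).mp ha, mul_one] at hau
    have : ⁅u, w⁆ = a⁻¹ * t * a := by rw [← hau]; group
    rw [this, mul_assoc, S.tcen, inv_mul_cancel_left]
  rcases h.four_cosets hKA hxA hyA g with h1 | ⟨a, ha, rfl⟩ | ⟨a, ha, rfl⟩ | ⟨a, ha, rfl⟩
  · rw [(hmem g).mp h1] at hg
    exact S.tne hg.symm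
  · have := key a ha x hg
    rw [this, S.comm_t] at hyP
    exact S.tne hyP.symm
  · have := key a ha y hg
    rw [this, S.comm_t] at hxQ
    exact S.tne hxQ.symm
  · have h2 := key a ha (y * x) hg
    rw [commutatorElement_mul_left_eq_conj_mul] at h2
    rw [conj_eq_comm_mul, hyP] at h2
    have h3 : ⁅x, t * ⁅x, w⁆ * ⁅y, w⁆⁆ = ⁅x, t⁆ := by rw [h2]
    rw [S.right_mul (mul_mem S.tmemH hP) hQ, S.right_mul S.tmemH hP, S.comm_t, hxP, hxQ,
      one_mul, one_mul] at h3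
    exact S.tne h3

section ext

variable [Finite G] (hG : IsPGroup 2 G)

/-- case (ii) -/
lemma case_two {x y : G} (hE : Ext ![x, y]) (hxx : ⁅x, ⁅x, ⁅x, y⁆⁆⁆ = 1)
    (hxy : ⁅x, ⁅y, ⁅x, y⁆⁆⁆ = t) (hyy : ⁅y, ⁅y, ⁅x, y⁆⁆⁆ = 1) : False := by
  have hcK : ⁅x, y⁆ ∈ commutator G := comm_mem x y
  set c := ⁅x, y⁆ with hc_def
  have hv := mem_H hcK x
  obtain ⟨α, hα, hαx, hαy⟩ := hE.exists_aut (H_le_K hv) (one_mem (commutator G))
  have h1 := hα c
  have h2 : α c = t * c := by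
    rw [hc_def, map_commutatorElement, hαx, hαy, one_mul, ← hc_def,
      commutatorElement_mul_left_eq_conj_mul, ← hc_def,
      S.hK ⁅x, c⁆ (H_le_K hv) c hcK, mul_inv_cancel_right]
    have e1 : ⁅⁅x, c⁆, y⁆ = t := by
      rw [← commutatorElement_inv, S.F_symm hcK y x, hxy]
      exact S.inv_H S.tmemH
    rw [e1, S.tcen]
  rw [h2, isConj_mul_iff] at h1
  obtain ⟨g, hg⟩ := h1
  refine S.obstruction hE.gen (w := c) ?_ (mem_H hcK x) (mem_H hcK y) hxx ?_ hxy hyy g hg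
  · intro k hk
    rw [commutatorElement_eq_one_iff_mul_comm]; exact S.hK k hk c hcK
  · rw [S.F_symm hcK y x]; exact hxy

/-- case (iii) -/
lemma case_three {x y : G} (hE : Ext ![x, y]) (hxx : ⁅x, ⁅x, ⁅x, y⁆⁆⁆ = t)
    (hxy : ⁅x, ⁅y, ⁅x, y⁆⁆⁆ = 1) (hyy : ⁅y, ⁅y, ⁅x, y⁆⁆⁆ = t) : False := by
  have hcK : ⁅x, y⁆ ∈ commutator G := comm_mem x y
  set c := ⁅x, y⁆ with hc_def
  have hv := mem_H hcK x
  have hyx : ⁅y, ⁅x, c⁆⁆ = 1 := by rw [S.F_symm hcK y x]; exact hxy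
  -- squares act trivially on `γ₃`
  have hsq : ∀ u : G, ∀ z ∈ ⁅commutator G, (⊤ : Subgroup G)⁆, ⁅u * u, z⁆ = 1 := by
    intro u z hz
    rw [S.left_mul hz]; exact S.sq_comm hz u
  have hxxc : ⁅x * x, c⁆ = t := by
    rw [comm_mul', hxx, S.hH _ (mem_H hcK x), mul_one]
  have hyyc : ⁅y * y, c⁆ = t := by
    rw [comm_mul', hyy, S.hH _ (mem_H hcK y), mul_one]
  set w := x * x * (y * y) with hw_def
  have hwH : ∀ z ∈ ⁅commutator G, (⊤ : Subgroup G)⁆, ⁅w, z⁆ = 1 := by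
    intro z hz
    rw [hw_def, S.left_mul hz, hsq x z hz, hsq y z hz, one_mul]
  have hwc : ⁅w, c⁆ = 1 := by
    rw [hw_def, comm_mul', hxxc, hyyc, S.comm_t, one_mul, S.tsq]
  have hwK : ∀ k ∈ commutator G, ⁅k, w⁆ = 1 := by
    intro k hk
    obtain ⟨a, z, hz, rfl⟩ := exists_zpow_mod hE.gen hk
    have hcomm : ∀ u : G, ⁅w, u⁆ = 1 ↔ u ∈ Subgroup.centralizer {w} := by
      intro u
      rw [Subgroup.mem_centralizer_singleton_iff, commutatorElement_eq_one_iff_mul_comm, eq_comm]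
    have h1 : c ∈ Subgroup.centralizer {w} := (hcomm c).mp hwc
    have h2 : z ∈ Subgroup.centralizer {w} := (hcomm z).mp (hwH z hz)
    have h3 : ⁅y, x⁆ ^ a * z ∈ Subgroup.centralizer {w} := by
      refine mul_mem (Subgroup.zpow_mem _ ?_ a) h2
      rw [← commutatorElement_inv, ← hc_def]; exact inv_mem h1
    rw [← commutatorElement_inv, (hcomm _).mpr h3, inv_one]
  -- the value of `α`
  obtain ⟨α, hα, hαx, hαy⟩ := hE.exists_aut (H_le_K hv) (one_mem (commutator G))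
  have h1 := hα w
  have h2 : α w = t * w := by
    rw [hw_def, map_mul, map_mul, map_mul, hαx, hαy, one_mul]
    have e1 : ⁅x, c⁆ * x * (⁅x, c⁆ * x) = ⁅x, c⁆ * ⁅x, ⁅x, c⁆⁆ * ⁅x, c⁆ * (x * x) := by
      have e0 := conj_eq_comm_mul x ⁅x, c⁆
      calc ⁅x, c⁆ * x * (⁅x, c⁆ * x) = ⁅x, c⁆ * (x * ⁅x, c⁆ * x⁻¹) * (x * x) := by group
        _ = _ := by rw [e0]; group
    rw [e1, hxx, mul_assoc ⁅x, c⁆ t, S.tcen, ← mul_assoc ⁅x, c⁆ ⁅x, c⁆ t, S.hH _ hv, one_mul]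
    simp only [mul_assoc]
  rw [h2, isConj_mul_iff] at h1
  obtain ⟨g, hg⟩ := h1
  -- the commutators with `w`
  have hcc : c * c = 1 ∨ c * c = t := S.hsq c hcK
  have hccH : c * c ∈ ⁅commutator G, (⊤ : Subgroup G)⁆ := by
    rcases hcc with h | h
    · rw [h]; exact one_mem _
    · rw [h]; exact S.tmemH
  have hcci : (c * c)⁻¹ = c * c := S.inv_H hccH
  have hP : ⁅x, w⁆ = c * c * ⁅y, c⁆ := by
    rw [hw_def, commutatorElement_mul_right_eq_mul_conj]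
    have e1 : ⁅x, x * x⁆ = 1 := by
      rw [commutatorElement_eq_one_iff_mul_comm]; group
    have e2 : ⁅x, y * y⁆ = c * (⁅y, c⁆ * c) := by
      rw [commutatorElement_mul_right_eq_mul_conj, ← hc_def, mul_assoc c, mul_assoc c,
        conj_eq_comm_mul]
    have e3 : c * (⁅y, c⁆ * c) = c * c * ⁅y, c⁆ := by
      rw [S.hK ⁅y, c⁆ (comm_mem _ _) c hcK, mul_assoc]
    rw [e1, one_mul, e2, e3, conj_eq_comm_mul, hsq x _ (mul_mem hccH (mem_H hcK y)), one_mul]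
  have hQ : ⁅y, w⁆ = c * c * ⁅x, c⁆ := by
    rw [hw_def, commutatorElement_mul_right_eq_mul_conj]
    have e1 : ⁅y, y * y⁆ = 1 := by
      rw [commutatorElement_eq_one_iff_mul_comm]; group
    have e2 : ⁅y, x * x⁆ = c⁻¹ * (⁅x, c⁻¹⁆ * c⁻¹) := by
      rw [commutatorElement_mul_right_eq_mul_conj, hc_def, commutatorElement_inv, mul_assoc,
        mul_assoc, ← mul_assoc x, conj_eq_comm_mul]
    have e3 : c⁻¹ * (⁅x, c⁻¹⁆ * c⁻¹) = c * c * ⁅x, c⁆ := by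
      rw [S.comm_inv hcK, S.hK ⁅x, c⁆ (comm_mem _ _) c⁻¹ (inv_mem hcK), ← mul_assoc,
        ← mul_inv_rev, hcci]
    rw [e1, e2, e3, mul_one, mul_assoc, mul_inv_cancel, mul_one]
  refine S.obstruction hE.gen (w := w) hwK ?_ ?_ ?_ ?_ ?_ ?_ g hg
  · rw [hP]; exact mul_mem hccH (mem_H hcK y)
  · rw [hQ]; exact mul_mem hccH (mem_H hcK x)
  · rw [hP, S.right_mul hccH (mem_H hcK y), S.tmem_one_or hcc, one_mul]; exact hxy
  · rw [hP, S.right_mul hccH (mem_H hcK y), S.tmem_one_or hcc, one_mul]; exact hyy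
  · rw [hQ, S.right_mul hccH (mem_H hcK x), S.tmem_one_or hcc, one_mul]; exact hxx
  · rw [hQ, S.right_mul hccH (mem_H hcK x), S.tmem_one_or hcc, one_mul]; exact hyx

include hG in
/-- case (i), main step: the full class of `x` forces `⁅x, c⁆ = t`. -/
lemma case_one_aux {x y : G} (hE : Ext ![x, y]) (hxx : ⁅x, ⁅x, ⁅x, y⁆⁆⁆ = 1)
    (hxy : ⁅x, ⁅y, ⁅x, y⁆⁆⁆ = 1) (hyy : ⁅y, ⁅y, ⁅x, y⁆⁆⁆ = t) : ⁅x, ⁅x, y⁆⁆ = t := by
  have h2 : Fact (Nat.Prime 2) := ⟨Nat.prime_two⟩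
  have hcK : ⁅x, y⁆ ∈ commutator G := comm_mem x y
  set c := ⁅x, y⁆ with hc_def
  have hyx : ⁅y, ⁅x, c⁆⁆ = 1 := by rw [S.F_symm hcK y x]; exact hxy
  have hxH : ∀ z ∈ ⁅commutator G, (⊤ : Subgroup G)⁆, ⁅x, z⁆ = 1 := fun z hz =>
    S.comm_H hE.gen hxx hxy hz
  have hcc : c * c = 1 ∨ c * c = t := S.hsq c hcK
  have hccH : c * c ∈ ⁅commutator G, (⊤ : Subgroup G)⁆ := by
    rcases hcc with h | h
    · rw [h]; exact one_mem _
    · rw [h]; exact S.tmemH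
  obtain ⟨g, hg⟩ := hE.exists_comm (H_le_K S.tmemH)
  obtain ⟨k, hk, i, j, rfl⟩ := hE.gen.exists_form g
  -- drop the power of `x`
  have e1 : ⁅k * y ^ j * x ^ i, x⁆ = ⁅k * y ^ j, x⁆ := by
    rw [commutatorElement_mul_left_eq_conj_mul]
    have : ⁅x ^ i, x⁆ = 1 := by
      rw [commutatorElement_eq_one_iff_mul_comm]
      exact ((Commute.refl x).zpow_left i).eq
    rw [this]; simp
  rw [e1, commutatorElement_mul_left_eq_conj_mul,
    S.hK k hk ⁅y ^ j, x⁆ (comm_mem _ _), mul_inv_cancel_right] at hg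
  -- the contribution of `k`
  have hkx : ⁅k, x⁆ = 1 ∨ ⁅k, x⁆ = ⁅x, c⁆ := by
    obtain ⟨a, z, hz, rfl⟩ := exists_zpow_mod hE.gen hk
    have hz1 : ⁅z, x⁆ = 1 := by rw [← commutatorElement_inv, hxH z hz, inv_one]
    have hcyx : ⁅y, x⁆ = c⁻¹ := by rw [hc_def, commutatorElement_inv]
    rw [commutatorElement_mul_left_eq_conj_mul, hz1, mul_one, mul_inv_cancel, one_mul, hcyx]
    -- `⁅(c⁻¹) ^ a, x⁆`
    have hx1 : ⁅c⁻¹, x⁆ = ⁅x, c⁆ := by
      rw [← commutatorElement_inv, S.comm_inv hcK, S.inv_H (mem_H hcK x)]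
    have hci : c⁻¹ ∈ commutator G := inv_mem hcK
    have hpow : ∀ n : ℕ, ⁅(c⁻¹) ^ n, x⁆ = ⁅x, c⁆ ^ n := by
      intro n
      induction n with
      | zero => simp
      | succ n ih =>
        rw [pow_succ, commutatorElement_mul_left_eq_conj_mul, hx1,
          S.hK _ (Subgroup.pow_mem _ hci n) _ (comm_mem _ _), mul_inv_cancel_right, ih,
          ← pow_succ']
    have hsq1 : ⁅x, c⁆ ^ 2 = 1 := by rw [pow_two]; exact S.hH _ (mem_H hcK x)
    have hzpow : ∃ n : ℕ, (c⁻¹) ^ a = (c⁻¹) ^ n := by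
      have := (isOfFinOrder_of_finite (c⁻¹))
      obtain ⟨n, hn⟩ := (this.mem_powers_iff_mem_zpowers.mpr
        (Subgroup.mem_zpowers_iff.mpr ⟨a, rfl⟩))
      exact ⟨n, hn.symm⟩
    obtain ⟨n, hn⟩ := hzpow
    rw [hn, hpow]
    rcases Nat.even_or_odd' n with ⟨m, hm | hm⟩
    · left; rw [hm, pow_mul, hsq1, one_pow]
    · right; rw [hm, pow_add, pow_mul, hsq1, one_pow, one_mul, pow_one]
  -- `y ^ 2` and `y ^ 4`
  have hr : ⁅y * y, x⁆ = c * c * ⁅y, c⁆ := by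
    have e2 : ⁅y * y, x⁆ = ⁅y, c⁻¹⁆ * c⁻¹ * c⁻¹ := by
      rw [commutatorElement_mul_left_eq_conj_mul, hc_def, commutatorElement_inv,
        conj_eq_comm_mul]
    have hcci : c⁻¹ * c⁻¹ = c * c := by
      rw [← mul_inv_rev]; exact S.inv_H hccH
    rw [e2, S.comm_inv hcK, mul_assoc, hcci, S.hK _ (comm_mem _ _) _ (H_le_K hccH)]
  have hrH : c * c * ⁅y, c⁆ ∈ ⁅commutator G, (⊤ : Subgroup G)⁆ := mul_mem hccH (mem_H hcK y)
  have hyyr : ⁅y * y, ⁅y * y, x⁆⁆ = 1 := by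
    rw [hr, S.left_mul hrH]; exact S.sq_comm hrH y
  have hconj : y * y * ⁅y * y, x⁆ * (y * y)⁻¹ = ⁅y * y, x⁆ := by
    rw [conj_eq_comm_mul, hyyr, one_mul]
  have hy4 : (y * y) * (y * y) ∈ Subgroup.centralizer {x} := by
    rw [Subgroup.mem_centralizer_singleton_iff, ← commutatorElement_eq_one_iff_mul_comm,
      commutatorElement_mul_left_eq_conj_mul, hconj, hr]
    exact S.hH _ hrH
  -- `j` is even
  have hjH : ⁅y ^ j, x⁆ ∈ ⁅commutator G, (⊤ : Subgroup G)⁆ := by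
    have : ⁅y ^ j, x⁆ = t * ⁅k, x⁆⁻¹ := by rw [← hg]; group
    rw [this]
    refine mul_mem S.tmemH (inv_mem ?_)
    rcases hkx with h | h
    · rw [h]; exact one_mem _
    · rw [h]; exact mem_H hcK x
  rcases Int.even_or_odd' j with ⟨l, hl | hl⟩
  swap
  · exfalso
    -- `y ^ j` is a generator partner of `x`
    have hgen : Gen x (y ^ j) := by
      apply gen_of_mem hE.gen (mem_closure_pair_left _ _)
      refine mem_of_zpow_mem (p := 2) hG (e := j) ?_ ?_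
      · intro hd; obtain ⟨e, he⟩ := hd
        push_cast at he
        omega
      · exact mem_closure_pair_right _ _
    exact S.K_ne_bot (not_mem_of_nontrivial hG hgen hjH)
  rcases Int.even_or_odd' l with ⟨m, hm | hm⟩
  · -- `4 ∣ j`
    have hyj : y ^ j = ((y * y) * (y * y)) ^ m := by
      rw [zpow_four', ← zpow_mul]
      congr 1
      omega
    have h5 : ⁅y ^ j, x⁆ = 1 := by
      rw [commutatorElement_eq_one_iff_mul_comm]
      have := Subgroup.zpow_mem _ hy4 m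
      rw [Subgroup.mem_centralizer_singleton_iff] at this
      rw [hyj]; exact this
    rw [h5, one_mul] at hg
    rcases hkx with h | h
    · rw [h] at hg; exact absurd hg.symm S.tne
    · rw [h] at hg; exact hg
  · -- `j ≡ 2` modulo 4
    exfalso
    have hyj : y ^ j = ((y * y) * (y * y)) ^ m * (y * y) := by
      rw [zpow_four', ← zpow_mul, ← zpow_two, ← zpow_add]
      congr 1
      omega
    have hyH : ∀ n : ℤ, ⁅((y * y) * (y * y)) ^ n, ⁅y * y, x⁆⁆ = 1 := by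
      intro n
      rw [commutatorElement_eq_one_iff_mul_comm]
      have h7 : Commute (y * y) ⁅y * y, x⁆ := by
        rw [commutatorElement_eq_one_iff_mul_comm] at hyyr; exact hyyr
      exact ((h7.mul_left h7).zpow_left n).eq
    have h5 : ⁅y ^ j, x⁆ = ⁅y * y, x⁆ := by
      rw [hyj, commutatorElement_mul_left_eq_conj_mul]
      have h6 : ⁅((y * y) * (y * y)) ^ m, x⁆ = 1 := by
        rw [commutatorElement_eq_one_iff_mul_comm]
        have := Subgroup.zpow_mem _ hy4 m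
        rw [Subgroup.mem_centralizer_singleton_iff] at this
        exact this
      have h7 := hyH m
      rw [commutatorElement_eq_one_iff_mul_comm] at h7
      rw [h6, mul_one, h7, mul_inv_cancel_right]
    rw [h5, hr] at hg
    have h6 : ⁅y, c * c * ⁅y, c⁆ * ⁅k, x⁆⁆ = ⁅y, t⁆ := by rw [hg]
    have hkH : ⁅k, x⁆ ∈ ⁅commutator G, (⊤ : Subgroup G)⁆ := by
      rcases hkx with h | h
      · rw [h]; exact one_mem _
      · rw [h]; exact mem_H hcK x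
    have hyk : ⁅y, ⁅k, x⁆⁆ = 1 := by
      rcases hkx with h | h
      · rw [h]; simp
      · rw [h]; exact hyx
    rw [S.right_mul hrH hkH, S.right_mul hccH (mem_H hcK y), S.tmem_one_or hcc, hyy, hyk,
      S.comm_t, one_mul, mul_one] at h6
    exact S.tne h6

include hG in
/-- case (i) -/
lemma case_one {x y : G} (hE : Ext ![x, y]) (hxx : ⁅x, ⁅x, ⁅x, y⁆⁆⁆ = 1)
    (hxy : ⁅x, ⁅y, ⁅x, y⁆⁆⁆ = 1) (hyy : ⁅y, ⁅y, ⁅x, y⁆⁆⁆ = t) : False := by
  have hcK : ⁅x, y⁆ ∈ commutator G := comm_mem x y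
  have h1 := S.case_one_aux hG hE hxx hxy hyy
  have hgen : Gen (x * y ^ (2 : ℤ)) y := hE.gen.mul_zpow 2
  have e0 : x * y ^ (2 : ℤ) = x * (y * y) := by rw [zpow_two]
  rw [e0] at hgen
  have hE' : Ext ![x * (y * y), y] := hE.change_gen hgen
  have hc' : ⁅x * (y * y), y⁆ = ⁅x, y⁆ := by
    rw [commutatorElement_mul_left_eq_conj_mul]
    have : ⁅y * y, y⁆ = 1 := by rw [commutatorElement_eq_one_iff_mul_comm]; group
    rw [this]; simp
  have hyx : ⁅y, ⁅x, ⁅x, y⁆⁆⁆ = 1 := by rw [S.F_symm hcK y x]; exact hxy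
  have hyyc : ⁅y * y, ⁅x, y⁆⁆ = t := by
    rw [comm_mul', hyy, S.hH _ (mem_H hcK y), mul_one]
  have hcomm : ⁅x * (y * y), ⁅x, y⁆⁆ = ⁅x, ⁅x, y⁆⁆ * t := by
    rw [comm_mul', hyyc, S.comm_t, one_mul, S.tcen]
  have hxv := mem_H hcK x
  have h2 := S.case_one_aux hG hE' (by
      rw [hc', hcomm, S.right_mul hxv S.tmemH, S.comm_t, mul_one, S.left_mul hxv, hxx,
        S.left_mul hxv, hyx]; simp)
    (by
      rw [hc', S.left_mul (mem_H hcK y), hxy, S.left_mul (mem_H hcK y), hyy, S.tsq]; simp)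
    (by rw [hc']; exact hyy)
  rw [hc', hcomm, h1, S.tsq] at h2
  exact S.tne h2.symm

include hG in
/-- `F(x, x) = 1` is impossible -/
lemma false_of_left {x y : G} (hE : Ext ![x, y]) (hxx : ⁅x, ⁅x, ⁅x, y⁆⁆⁆ = 1) : False := by
  have hcK : ⁅x, y⁆ ∈ commutator G := comm_mem x y
  rcases S.h4 _ (mem_H hcK y) y with hyy | hyy
  · rcases S.h4 _ (mem_H hcK y) x with hxy | hxy
    · -- everything is zero
      have hyx : ⁅y, ⁅x, ⁅x, y⁆⁆⁆ = 1 := by rw [S.F_symm hcK y x]; exact hxy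
      have h1 : ∀ z ∈ ⁅commutator G, (⊤ : Subgroup G)⁆, ⁅x, z⁆ = 1 := fun z hz =>
        S.comm_H hE.gen hxx hxy hz
      have h2 : ∀ z ∈ ⁅commutator G, (⊤ : Subgroup G)⁆, ⁅y, z⁆ = 1 := fun z hz =>
        S.comm_H hE.gen hyx hyy hz
      have h3 : ⁅⁅commutator G, (⊤ : Subgroup G)⁆, (⊤ : Subgroup G)⁆ = ⊥ := by
        rw [eq_bot_iff, Subgroup.commutator_le]
        intro z hz g _
        rw [Subgroup.mem_bot, commutatorElement_eq_one_iff_mul_comm]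
        have : g ∈ Subgroup.centralizer {z} := by
          apply hE.gen.induction
          · rw [Subgroup.mem_centralizer_singleton_iff, ← commutatorElement_eq_one_iff_mul_comm]
            exact h1 z hz
          · rw [Subgroup.mem_centralizer_singleton_iff, ← commutatorElement_eq_one_iff_mul_comm]
            exact h2 z hz
        rw [Subgroup.mem_centralizer_singleton_iff] at this
        exact this.symm
      have h5 := S.tmem
      rw [h3, Subgroup.mem_bot] at h5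
      exact S.tne h5
    · exact S.case_two hE hxx hxy hyy
  · rcases S.h4 _ (mem_H hcK y) x with hxy | hxy
    · exact S.case_one hG hE hxx hxy hyy
    · -- pair `(y, x y)`
      have hgen : Gen (x * y) y := by simpa using hE.gen.mul_zpow 1
      have hE' : Ext ![y, x * y] := hE.change_gen hgen.swap
      have hc' : ⁅y, x * y⁆ = ⁅x, y⁆⁻¹ := by
        rw [commutatorElement_mul_right_eq_mul_conj, commutatorElement_self, commutatorElement_inv]
        simp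
      have hyx : ⁅y, ⁅x, ⁅x, y⁆⁆⁆ = t := by rw [S.F_symm hcK y x]; exact hxy
      have hyv := mem_H hcK y
      have hxv := mem_H hcK x
      refine S.case_three hE' ?_ ?_ ?_
      · rw [hc', S.comm_inv hcK]; exact hyy
      · rw [hc', S.comm_inv hcK, S.F_add hcK, hyy, hyx, S.tsq]
      · rw [hc', S.comm_inv hcK, S.F_add hcK, S.left_mul hyv, S.left_mul hxv, hxy, hyy, hxx, hyx,
          S.tsq]; simp

include hG in
theorem false_of_ext {x y : G} (hE : Ext ![x, y]) : False := by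
  have hcK : ⁅x, y⁆ ∈ commutator G := comm_mem x y
  rcases S.h4 _ (mem_H hcK x) x with hxx | hxx
  · exact S.false_of_left hG hE hxx
  rcases S.h4 _ (mem_H hcK y) y with hyy | hyy
  · have hE' : Ext ![y, x] := hE.change_gen hE.gen.swap
    have hc' : ⁅y, x⁆ = ⁅x, y⁆⁻¹ := (commutatorElement_inv x y).symm
    refine S.false_of_left hG hE' ?_
    rw [hc', S.comm_inv hcK]; exact hyy
  · have hgen : Gen (x * y) y := by simpa using hE.gen.mul_zpow 1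
    have hE' : Ext ![x * y, y] := hE.change_gen hgen
    have hc' : ⁅x * y, y⁆ = ⁅x, y⁆ := by
      rw [commutatorElement_mul_left_eq_conj_mul, commutatorElement_self]; simp
    refine S.false_of_left hG hE' ?_
    have hyx : ⁅y, ⁅x, ⁅x, y⁆⁆⁆ = ⁅x, ⁅y, ⁅x, y⁆⁆⁆ := S.F_symm hcK y x
    have hyv := mem_H hcK y
    have hxv := mem_H hcK x
    rw [hc', S.F_add hcK, S.left_mul hyv, S.left_mul hxv, hxx, hyy, hyx]
    have h1 := S.sq_comm hyv x
    calc ⁅x, ⁅y, ⁅x, y⁆⁆⁆ * t * (t * ⁅x, ⁅y, ⁅x, y⁆⁆⁆)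
        = ⁅x, ⁅y, ⁅x, y⁆⁆⁆ * (t * t) * ⁅x, ⁅y, ⁅x, y⁆⁆⁆ := by group
      _ = 1 := by rw [S.tsq, mul_one, h1]

end ext

end Setup

end Pool.Agent.ClassAut
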