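import Pool.Agent.ClassAut.TwoNec
import Pool.Agent.ClassAut.CyclicCase
import Pool.Agent.ClassAut.ClassTwo

/-!
# Finite `p`-groups attaining the upper bound for the number of class-preserving automorphisms

We determine all finite `p`-groups `G` with `|Aut_c(G)| = |γ₂(G)| ^ d(G)`.
-/

set_option autoImplicit false

namespace Pool.Agent.ClassAut.WithdrawnClassification

open Pool.Agent.ClassAut
open scoped commutatorElement

lemma le_center_of_le_one {G : Type*} [Group G] {n : ℕ} (hn : n ≤ 1) {s : Fin n → G}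
    (hs : Subgroup.closure (Set.range s) = ⊤) : commutator G ≤ Subgroup.center G := by
  have hsub : ∀ i j : Fin n, i = j := by
    intro i j
    apply Fin.ext
    have := i.isLt
    have := j.isLt
    omega
  have h1 : (⊤ : Subgroup G) ≤ Subgroup.centralizer (Set.range s) := by
    rw [← hs, Subgroup.closure_le]
    rintro _ ⟨i, rfl⟩
    rw [SetLike.mem_coe, Subgroup.mem_centralizer_iff]
    rintro _ ⟨j, rfl⟩
    rw [hsub i j]
  have h2 : (⊤ : Subgroup G) ≤ Subgroup.center G := by
    nth_rewrite 1 [← hs]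
    rw [Subgroup.closure_le]
    rintro _ ⟨i, rfl⟩
    rw [SetLike.mem_coe, Subgroup.mem_center_iff]
    intro g
    exact (Subgroup.mem_centralizer_iff.mp (h1 (Subgroup.mem_top g)) (s i) ⟨i, rfl⟩).symm
  exact le_top.trans h2

lemma eq_pair {G : Type*} (s : Fin 2 → G) : s = ![s 0, s 1] := by
  funext i
  fin_cases i <;> rfl

/-- **Classification of the finite `p`-groups with `|Aut_c(G)| = |γ₂(G)| ^ d(G)`.**

For a finite `p`-group `G` with `d = Group.rank G` generators, the number of class-preserving
automorphisms equals `|γ₂(G)| ^ d` if and only if one of the following holds: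

* `G` has class at most two and `x ^ G = x γ₂(G)` for every `x` outside the Frattini subgroup;
* `d = 2`, `γ₂(G)` is cyclic and, if `p = 2`, every element of `γ₃(G) = [γ₂(G), G]` is a fourth
  power of an element of `γ₂(G)`;
* `p = 2`, `d = 2`, `γ₄(G) = 1` and `c ^ 2 = 1` for all `c` in `γ₂(G)`. -/
theorem result (p : ℕ) [Fact p.Prime] (G : Type*) [Group G] [Finite G] (hG : IsPGroup p G) :
    Nat.card {α : G ≃* G // ∀ x : G, IsConj x (α x)} = Nat.card (commutator G) ^ Group.rank G ↔
      (commutator G ≤ Subgroup.center G ∧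
        ∀ x : G, x ∉ frattini G → ∀ c ∈ commutator G, IsConj x (x * c)) ∨
      (Group.rank G = 2 ∧ IsCyclic (commutator G) ∧
        (p = 2 → ∀ z ∈ ⁅commutator G, (⊤ : Subgroup G)⁆, ∃ b ∈ commutator G, z = b ^ 4)) ∨
      (p = 2 ∧ Group.rank G = 2 ∧
        ⁅⁅commutator G, (⊤ : Subgroup G)⁆, (⊤ : Subgroup G)⁆ = ⊥ ∧
        ∀ c ∈ commutator G, c ^ 2 = 1) := by
  have hnil : Group.IsNilpotent G := hG.isNilpotent
  obtain ⟨n, hn, s, hs⟩ : ∃ n, n = Group.rank G ∧ ∃ s : Fin n → G,
      Subgroup.closure (Set.range s) = ⊤ := ⟨_, rfl, exists_generating_tuple⟩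
  rw [← hn, card_eq_iff_ext hs]
  constructor
  · intro hE
    by_cases hKc : commutator G ≤ Subgroup.center G
    · left
      exact ⟨hKc, fun x hx => isConj_mul_right_of_left (fun c hc => hE.isConj hG hx hc)⟩
    · right
      have hn3 : n < 3 := by
        by_contra hcon
        exact hKc (Ext.le_center_of_three (by omega) hE)
      have hn1 : 1 < n := by
        by_contra hcon
        exact hKc (le_center_of_le_one (by omega) hs)
      have hn2 : n = 2 := by omega
      subst hn2
      rw [eq_pair s] at hE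
      by_cases hp2 : p = 2
      · subst hp2
        rcases two_nec hG hE with ⟨h1, h2⟩ | ⟨h1, h2⟩
        · left; exact ⟨rfl, h1, fun _ => h2⟩
        · right; exact ⟨rfl, rfl, h1, h2⟩
      · left
        exact ⟨rfl, isCyclic_of_odd hG hp2 hE, fun h => absurd h hp2⟩
  · rintro (⟨h1, h2⟩ | ⟨h1, h2, h3⟩ | ⟨hp2, h1, h2, h3⟩)
    · exact ext_of_classTwo hG h1 (fun x hx => isConj_mul_left_of_right (h2 x hx)) hn hs
    · subst h1
      rw [eq_pair s] at hs ⊢
      exact ext_of_cyclic hG (gen_iff.mp hs) h2 h3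
    · subst hp2
      subst h1
      rw [eq_pair s] at hs ⊢
      exact ext_of_two h2 h3 hG hn (gen_iff.mp hs)

end Pool.Agent.ClassAut.WithdrawnClassification
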